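import Pool.Agent.H41N.VP.Place

set_option autoImplicit false

/-!
The cells near a smooth hypersurface.
-/

namespace Pool.Agent.H41N.VP

open Pool.Agent.TH42.NC

section

variable {𝕜 : Type*} [NontriviallyNormedField 𝕜] {n : ℕ}

lemma exists_centers (Z : Finset (Fin n → 𝕜)) (h : ℝ) (hh : 0 < h) :
    ∃ (W : Finset (Fin n → 𝕜)) (c : (Fin n → 𝕜) → (Fin n → 𝕜)), W ⊆ Z ∧
      (∀ z ∈ W, ∀ z' ∈ W, z ≠ z' → h ≤ ‖z - z'‖) ∧ ∀ z ∈ Z, c z ∈ W ∧ ‖z - c z‖ ≤ h := by
  classical
  obtain ⟨W, hW, hmax⟩ := Finset.exists_max_image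
    (Z.powerset.filter (fun W => ∀ z ∈ W, ∀ z' ∈ W, z ≠ z' → h ≤ ‖z - z'‖)) Finset.card
    ⟨∅, by simp⟩
  rw [Finset.mem_filter, Finset.mem_powerset] at hW
  have key : ∀ z ∈ Z, ∃ w, w ∈ W ∧ ‖z - w‖ ≤ h := by
    intro z hz
    by_contra hcon
    push Not at hcon
    have hzW : z ∉ W := by
      intro hzW
      have h1 := hcon z hzW
      rw [sub_self, norm_zero] at h1
      linarith
    have h1 := hmax (insert z W) (by
      rw [Finset.mem_filter, Finset.mem_powerset]
      refine ⟨Finset.insert_subset hz hW.1, ?_⟩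
      intro a ha b hb hab
      rw [Finset.mem_insert] at ha hb
      rcases ha with rfl | ha
      · rcases hb with rfl | hb
        · exact absurd rfl hab
        · exact (hcon b hb).le
      · rcases hb with rfl | hb
        · rw [norm_sub_rev]
          exact (hcon a ha).le
        · exact hW.2 a ha b hb hab)
    rw [Finset.card_insert_of_notMem hzW] at h1
    omega
  choose! c hc using key
  exact ⟨W, c, hW.1, hW.2, hc⟩

variable [CompleteSpace 𝕜] [ProperSpace 𝕜]

/-- **The cells.** -/
theorem cells {C0 : ℝ} (hC0 : 1 ≤ C0) (hP : Packs 𝕜 C0) (hn : 1 ≤ n)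
    (G : MvPolynomial (Fin n) 𝕜) (d : ℕ) (hG : G.IsHomogeneous d)
    (hsm : ∀ z : Fin n → 𝕜, z ≠ 0 → MvPolynomial.eval z G = 0 →
      ∃ i, MvPolynomial.eval z (MvPolynomial.pderiv i G) ≠ 0) (i0 : Fin n) :
    ∃ C : ℝ, 1 ≤ C ∧ ∀ h : ℝ, 0 < h → h ≤ 1 → ∀ Z : Finset (Fin n → 𝕜),
      (∀ z ∈ Z, ‖z‖ ≤ 1 ∧ z i0 = 1 ∧ ‖MvPolynomial.eval z G‖ ≤ h ^ 2) →
      ∃ c : (Fin n → 𝕜) → (Fin n → 𝕜),
        (∃ W : Finset (Fin n → 𝕜), (∀ z ∈ Z, c z ∈ W) ∧ (W.card : ℝ) * h ^ n ≤ C * h ^ 2) ∧
        (∀ m, 1 ≤ m → m ≤ n → ∀ y : Fin m → Fin n → 𝕜, (∀ a, y a ∈ Z) →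
          (∀ a b, c (y a) = c (y b)) → ∀ K : Fin m → Fin n, ‖mnr y K‖ ≤ C * h ^ (m - 1)) ∧
        (∀ y : Fin n → Fin n → 𝕜, (∀ a, y a ∈ Z) →
          (∀ a b, c (y a) = c (y b)) → ∀ K : Fin n → Fin n, ‖mnr y K‖ ≤ C * h ^ n) := by
  classical
  set Kc : Set (Fin n → 𝕜) := Metric.closedBall 0 1 ∩ {z | z i0 = 1} with hKc
  have hKcc : IsCompact Kc := by
    apply (isCompact_closedBall _ _).inter_right
    exact isClosed_eq (continuous_apply i0) continuous_const
  have hne0 : ∀ z ∈ Kc, z ≠ 0 := by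
    rintro z hz rfl
    have h1 : (0 : Fin n → 𝕜) i0 = 1 := hz.2
    simp at h1
  -- packing
  have hsnc : ∀ z ∈ Kc, SNC (![G, MvPolynomial.X i0 - 1] : Fin 2 → MvPolynomial (Fin n) 𝕜) z := by
    intro z hz
    have hz1 : z i0 = 1 := hz.2
    have hg1 : (fun i => MvPolynomial.eval z (MvPolynomial.pderiv i
        (MvPolynomial.X i0 - 1 : MvPolynomial (Fin n) 𝕜))) = Pi.single i0 (1 : 𝕜) := by
      funext i
      rw [map_sub, MvPolynomial.pderiv_X, Derivation.map_one_eq_zero, sub_zero]
      by_cases h : i = i0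
      · subst h
        simp
      · rw [Pi.single_eq_of_ne h, Pi.single_eq_of_ne (Ne.symm h), map_zero]
    unfold SNC
    by_cases hGz : MvPolynomial.eval z G = 0
    · have hpair : LinearIndependent 𝕜 (fun j : Fin 2 => fun i => MvPolynomial.eval z
          (MvPolynomial.pderiv i ((![G, MvPolynomial.X i0 - 1] : Fin 2 →
            MvPolynomial (Fin n) 𝕜) j))) := by
        have h1 : (fun j : Fin 2 => fun i => MvPolynomial.eval z
          (MvPolynomial.pderiv i ((![G, MvPolynomial.X i0 - 1] : Fin 2 →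
            MvPolynomial (Fin n) 𝕜) j))) =
            ![fun i => MvPolynomial.eval z (MvPolynomial.pderiv i G), Pi.single i0 (1 : 𝕜)] := by
          funext j
          fin_cases j
          · rfl
          · exact hg1
        rw [h1, LinearIndependent.pair_iff]
        intro s t hst
        have h2 := congrArg (fun f : Fin n → 𝕜 => ∑ i, f i * z i) hst
        simp only [Pi.add_apply, Pi.smul_apply, smul_eq_mul, Pi.zero_apply, zero_mul,
          Finset.sum_const_zero, add_mul, Finset.sum_add_distrib] at h2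
        have h3 : ∑ i, s * MvPolynomial.eval z (MvPolynomial.pderiv i G) * z i = 0 := by
          have h4 := euler G d hG z
          rw [hGz, mul_zero] at h4
          rw [← mul_zero s, ← h4, Finset.mul_sum]
          refine Finset.sum_congr rfl fun i _ => by ring
        have h4 : ∑ i, t * (Pi.single i0 (1 : 𝕜) : Fin n → 𝕜) i * z i = t := by
          rw [Finset.sum_eq_single i0]
          · rw [Pi.single_eq_same, hz1]
            ring
          · intro i _ hi
            rw [Pi.single_eq_of_ne hi]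
            ring
          · simp
        rw [h3, h4, zero_add] at h2
        refine ⟨?_, h2⟩
        obtain ⟨i, hi⟩ := hsm z (hne0 z hz) hGz
        have h5 := congrFun hst i
        rw [h2, zero_smul, add_zero, Pi.smul_apply, Pi.zero_apply, smul_eq_mul] at h5
        exact (mul_eq_zero.1 h5).resolve_right hi
      exact hpair.comp _ Subtype.val_injective
    · have : Subsingleton {j : Fin 2 // MvPolynomial.eval z
          ((![G, MvPolynomial.X i0 - 1] : Fin 2 → MvPolynomial (Fin n) 𝕜) j) = 0} := by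
        refine ⟨fun a b => ?_⟩
        have h1 : ∀ a : {j : Fin 2 // MvPolynomial.eval z
          ((![G, MvPolynomial.X i0 - 1] : Fin 2 → MvPolynomial (Fin n) 𝕜) j) = 0}, a.1 = 1 := by
          rintro ⟨a, ha⟩
          fin_cases a
          · exact absurd ha hGz
          · rfl
        exact Subtype.ext ((h1 a).trans (h1 b).symm)
      rw [linearIndependent_subsingleton_index_iff]
      rintro ⟨a, ha⟩
      fin_cases a
      · exact absurd ha hGz
      · intro h1
        have h2 : (Pi.single i0 (1 : 𝕜) : Fin n → 𝕜) = 0 := hg1.symm.trans h1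
        have h3 := congrFun h2 i0
        simp at h3
  obtain ⟨C1, hC1, hb⟩ := compact_bd hC0 hP _ 1 le_rfl Kc hKcc hsnc
  -- lower bound for the gradient
  have hgrad : ∃ η : ℝ, 0 < η ∧ η ≤ 1 ∧ ∀ z ∈ Kc, ‖MvPolynomial.eval z G‖ ≤ η →
      ∃ k, η ≤ ‖MvPolynomial.eval z (MvPolynomial.pderiv k G)‖ := by
    by_cases hKne : Kc.Nonempty
    · have hcont : Continuous (fun z : Fin n → 𝕜 => ‖MvPolynomial.eval z G‖ +
          ∑ k, ‖MvPolynomial.eval z (MvPolynomial.pderiv k G)‖) :=
        (continuous_eval G).norm.add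
          (continuous_finsetSum _ fun k _ => (continuous_eval _).norm)
      obtain ⟨z1, hz1, hmin⟩ := hKcc.exists_isMinOn hKne hcont.continuousOn
      set μ : ℝ := ‖MvPolynomial.eval z1 G‖ +
          ∑ k, ‖MvPolynomial.eval z1 (MvPolynomial.pderiv k G)‖ with hμ
      have hμ0 : 0 < μ := by
        have h1 : 0 ≤ ∑ k, ‖MvPolynomial.eval z1 (MvPolynomial.pderiv k G)‖ :=
          Finset.sum_nonneg fun _ _ => norm_nonneg _
        by_cases h2 : MvPolynomial.eval z1 G = 0
        · obtain ⟨i, hi⟩ := hsm z1 (hne0 z1 hz1) h2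
          have h3 : ‖MvPolynomial.eval z1 (MvPolynomial.pderiv i G)‖ ≤
              ∑ k, ‖MvPolynomial.eval z1 (MvPolynomial.pderiv k G)‖ :=
            Finset.single_le_sum (f := fun k => ‖MvPolynomial.eval z1 (MvPolynomial.pderiv k G)‖)
              (fun _ _ => norm_nonneg _) (Finset.mem_univ i)
          have h4 : 0 < ‖MvPolynomial.eval z1 (MvPolynomial.pderiv i G)‖ := norm_pos_iff.2 hi
          have h5 : 0 ≤ ‖MvPolynomial.eval z1 G‖ := norm_nonneg _
          linarith
        · have h4 : 0 < ‖MvPolynomial.eval z1 G‖ := norm_pos_iff.2 h2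
          linarith
      have hn0 : (0 : ℝ) < n := by exact_mod_cast hn
      refine ⟨min 1 (μ / (2 * n + 2)), by positivity, min_le_left _ _, ?_⟩
      intro z hz hz2
      by_contra hcon
      push Not at hcon
      have h1 : μ ≤ ‖MvPolynomial.eval z G‖ +
          ∑ k, ‖MvPolynomial.eval z (MvPolynomial.pderiv k G)‖ := hmin hz
      have h2 : ∑ k, ‖MvPolynomial.eval z (MvPolynomial.pderiv k G)‖ ≤
          ∑ _k : Fin n, μ / (2 * n + 2) :=
        Finset.sum_le_sum fun k _ => ((hcon k).trans_le (min_le_right _ _)).le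
      rw [Finset.sum_const, Finset.card_univ, Fintype.card_fin, nsmul_eq_mul] at h2
      have h3 := hz2.trans (min_le_right _ _)
      have h4 : μ / (2 * n + 2) + n * (μ / (2 * n + 2)) = μ / 2 := by
        field_simp
        ring
      linarith
    · exact ⟨1, one_pos, le_rfl, fun z hz => absurd ⟨z, hz⟩ hKne⟩
  obtain ⟨η, hη, hη1, hgrad⟩ := hgrad
  obtain ⟨T, hT, hT'⟩ := taylor2 G
  set D : ℝ := T + 2 + d with hD
  have hD1 : 1 ≤ D := by
    have : (0 : ℝ) ≤ d := Nat.cast_nonneg d
    linarith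
  set A : ℝ := n.factorial * 2 ^ n with hA
  have hfac1 : (1 : ℝ) ≤ n.factorial := by
    have := Nat.factorial_pos n
    exact_mod_cast this
  have hA1 : 1 ≤ A := by
    have : (1 : ℝ) ≤ 2 ^ n := one_le_pow₀ (by norm_num)
    nlinarith
  have hDη : 1 ≤ D / η := by
    rw [le_div_iff₀ hη]
    linarith
  have hADη : A ≤ A * (D / η) := le_mul_of_one_le_right (by linarith) hDη
  refine ⟨C1 + A * (D / η), by linarith, ?_⟩
  intro h hh hh1 Z hZ
  obtain ⟨W, c, hWZ, hsep, hc⟩ := exists_centers Z h hh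
  have hZK : ∀ z ∈ Z, z ∈ Kc := by
    intro z hz
    refine ⟨?_, (hZ z hz).2.1⟩
    rw [mem_closedBall_zero_iff]
    exact (hZ z hz).1
  have hh2 : h ^ 2 ≤ h := by nlinarith
  refine ⟨c, ⟨W, fun z hz => (hc z hz).1, ?_⟩, ?_, ?_⟩
  · have h1 := hb (fun _ => h) h hh hh1 (fun _ => le_rfl) W (by
      intro z hz
      refine ⟨hZK z (hWZ hz), ?_⟩
      intro j
      have h2 := hZ z (hWZ hz)
      rw [one_mul]
      fin_cases j
      · exact h2.2.2.trans hh2
      · have h3 : MvPolynomial.eval z (MvPolynomial.X i0 - 1 : MvPolynomial (Fin n) 𝕜) = 0 := by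
          rw [map_sub, MvPolynomial.eval_X, map_one, h2.2.1, sub_self]
        show ‖MvPolynomial.eval z (MvPolynomial.X i0 - 1 : MvPolynomial (Fin n) 𝕜)‖ ≤ h
        rw [h3, norm_zero]
        exact hh.le) hsep
    have hpos : 0 < h ^ n := by positivity
    rw [Finset.prod_const, Finset.card_univ, Fintype.card_fin, ← mul_div_assoc,
      le_div_iff₀ hpos] at h1
    refine h1.trans ?_
    apply mul_le_mul_of_nonneg_right _ (by positivity)
    have : 0 ≤ A * (D / η) := by positivity
    linarith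
  · intro m hm hmn y hy hcy K
    have h1 := minor_small y (c (y ⟨0, hm⟩)) h hh.le (fun a => by
      rw [hcy ⟨0, hm⟩ a]
      exact (hc _ (hy a)).2) (fun a => (hZ _ (hy a)).1) K ⟨0, hm⟩
    refine h1.trans ?_
    rw [mul_pow, ← mul_assoc]
    apply mul_le_mul_of_nonneg_right _ (by positivity)
    have h2 : (m.factorial : ℝ) ≤ n.factorial := by
      exact_mod_cast Nat.factorial_le hmn
    have h3 : (2 : ℝ) ^ (m - 1) ≤ 2 ^ n := pow_le_pow_right₀ (by norm_num) (by omega)
    have h4 : (m.factorial : ℝ) * 2 ^ (m - 1) ≤ A := by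
      rw [hA]
      exact mul_le_mul h2 h3 (by positivity) (by positivity)
    linarith
  · intro y hy hcy K
    have hy1 : ∀ a, ‖y a‖ ≤ 1 := fun a => (hZ _ (hy a)).1
    set a0 : Fin n := ⟨0, hn⟩ with ha0
    set z0 : Fin n → 𝕜 := c (y a0) with hz0
    have hz0Z : z0 ∈ Z := hWZ (hc _ (hy a0)).1
    have hyz : ∀ a, ‖y a - z0‖ ≤ h := by
      intro a
      rw [hz0, hcy a0 a]
      exact (hc _ (hy a)).2
    have hfin : ‖mnr y K‖ ≤ A * (D / η) * h ^ n := by
      by_cases hcase : h ^ 2 ≤ η
      · obtain ⟨k, hk⟩ := hgrad z0 (hZK z0 hz0Z) ((hZ z0 hz0Z).2.2.trans hcase)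
        have h1 := minor_small_full y z0 h hh.le hh1 hyz hy1 K k
          (fun i => MvPolynomial.eval z0 (MvPolynomial.pderiv i G)) D (by linarith) (by
          intro a
          have h2 : ∑ i, MvPolynomial.eval z0 (MvPolynomial.pderiv i G) * y a i =
              dP G z0 (y a - z0) + d * MvPolynomial.eval z0 G := by
            rw [← euler G d hG z0, dP_apply, ← Finset.sum_add_distrib]
            refine Finset.sum_congr rfl fun i _ => ?_
            rw [Pi.sub_apply]
            ring
          have h3 := hT' (y a) z0 (hy1 a) (hZ z0 hz0Z).1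
          have h4 : dP G z0 (y a - z0) = MvPolynomial.eval (y a) G - MvPolynomial.eval z0 G -
              (MvPolynomial.eval (y a) G - MvPolynomial.eval z0 G - dP G z0 (y a - z0)) := by
            ring
          have h5 : ‖dP G z0 (y a - z0)‖ ≤ (2 + T) * h ^ 2 := by
            rw [h4]
            refine (norm_sub_le _ _).trans ?_
            have h6 := norm_sub_le (MvPolynomial.eval (y a) G) (MvPolynomial.eval z0 G)
            have h7 := (hZ _ (hy a)).2.2
            have h8 := (hZ z0 hz0Z).2.2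
            have h9 : ‖y a - z0‖ ^ 2 ≤ h ^ 2 :=
              pow_le_pow_left₀ (norm_nonneg _) (hyz a) 2
            have h10 : T * ‖y a - z0‖ ^ 2 ≤ T * h ^ 2 := mul_le_mul_of_nonneg_left h9 hT
            linarith
          rw [h2]
          refine (norm_add_le _ _).trans ?_
          rw [norm_mul]
          have h11 : ‖(d : 𝕜)‖ ≤ d := by
            have := Nat.norm_cast_le (α := 𝕜) d
            simpa using this
          have h12 : ‖(d : 𝕜)‖ * ‖MvPolynomial.eval z0 G‖ ≤ d * h ^ 2 :=
            mul_le_mul h11 (hZ z0 hz0Z).2.2 (norm_nonneg _) (Nat.cast_nonneg _)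
          rw [hD]
          linarith)
        have h2 : η * ‖mnr y K‖ ≤ n.factorial * ((2 * h) ^ (n - 1) * (D * h)) :=
          (mul_le_mul_of_nonneg_right hk (norm_nonneg _)).trans h1
        have h3 : (n.factorial : ℝ) * ((2 * h) ^ (n - 1) * (D * h)) ≤ A * D * h ^ n := by
          have h4 : h ^ n = h ^ (n - 1) * h := by
            rw [← pow_succ]
            congr 1
            omega
          have h5 : (2 : ℝ) ^ (n - 1) ≤ 2 ^ n := pow_le_pow_right₀ (by norm_num) (by omega)
          rw [mul_pow, h4, hA]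
          calc (n.factorial : ℝ) * (2 ^ (n - 1) * h ^ (n - 1) * (D * h)) =
                2 ^ (n - 1) * (n.factorial * D * (h ^ (n - 1) * h)) := by ring
            _ ≤ 2 ^ n * (n.factorial * D * (h ^ (n - 1) * h)) :=
                mul_le_mul_of_nonneg_right h5 (by positivity)
            _ = _ := by ring
        have h4 : η * ‖mnr y K‖ ≤ A * D * h ^ n := h2.trans h3
        calc ‖mnr y K‖ = (η * ‖mnr y K‖) / η := by field_simp
          _ ≤ (A * D * h ^ n) / η := div_le_div_of_nonneg_right h4 hη.le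
          _ = _ := by ring
      · push Not at hcase
        have h1 := minor_small y z0 h hh.le hyz hy1 K a0
        have h2 : h ^ n = h ^ (n - 1) * h := by
          rw [← pow_succ]
          congr 1
          omega
        have h3 : η ≤ h := (hcase.trans_le hh2).le
        have h4 : (2 : ℝ) ^ (n - 1) ≤ 2 ^ n := pow_le_pow_right₀ (by norm_num) (by omega)
        have h5 : 1 ≤ D / η * h := by
          rw [div_mul_eq_mul_div, le_div_iff₀ hη]
          nlinarith
        refine h1.trans ?_
        rw [mul_pow, h2, hA]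
        calc (n.factorial : ℝ) * (2 ^ (n - 1) * h ^ (n - 1)) =
              2 ^ (n - 1) * (n.factorial * h ^ (n - 1)) := by ring
          _ ≤ 2 ^ n * (n.factorial * h ^ (n - 1)) :=
              mul_le_mul_of_nonneg_right h4 (by positivity)
          _ = n.factorial * 2 ^ n * h ^ (n - 1) * 1 := by ring
          _ ≤ n.factorial * 2 ^ n * h ^ (n - 1) * (D / η * h) :=
              mul_le_mul_of_nonneg_left h5 (by positivity)
          _ = _ := by ring
    refine hfin.trans ?_
    apply mul_le_mul_of_nonneg_right _ (by positivity)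
    linarith

end

end Pool.Agent.H41N.VP
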