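import Pool.Agent.H41N.VP.IntCells

set_option autoImplicit false

/-!
The count in one class, off the hyperplanes of small height.
-/

namespace Pool.Agent.H41N.VP

open Pool.Agent.TH42.NC

theorem class_count {n q : ℕ} (hn : 2 ≤ n) (F : Fin q → MvPolynomial (Fin n) ℤ) (d : Fin q → ℕ)
    (hF : ∀ j, (F j).IsHomogeneous (d j)) (S : Finset ℕ) (hS : ∀ p ∈ S, p.Prime)
    (hsm : ∀ j, ∀ v : Option {p // p ∈ S}, SmoothV hS (F j) v) :
    ∃ C : ℝ, 1 ≤ C ∧ ∀ (B θ : ℝ) (h : Option {p // p ∈ S} → ℝ) (i0 : Option {p // p ∈ S} → Fin n)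
      (j : Option {p // p ∈ S} → Fin q), 1 ≤ B → (∀ v, 0 < h v ∧ h v ≤ 1) →
      1 ≤ B * ∏ v, h v → ∀ X : Finset (Fin n → ℤ),
      (∀ x ∈ X, (∀ v, x (i0 v) ≠ 0 ∧ (∀ i, vabs v (x i) ≤ vabs v (x (i0 v))) ∧
          (h v < 1 → vabs v (MvPolynomial.eval x (F (j v))) ≤
            h v ^ 2 * vabs v (x (i0 v)) ^ d (j v))) ∧
        |(x (i0 none) : ℝ)| ≤ B ∧ (∀ p, vabs (some p) (x (i0 (some p))) ≤ 1) ∧
        ∀ c : Fin n → ℤ, c ≠ 0 → (∀ i, |(c i : ℝ)| ≤ C * B ^ θ) → ∑ i, c i * x i ≠ 0) →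
      (X.card : ℝ) ≤ C * (B ^ n * (∏ v, h v) ^ 2 + B ^ ((n : ℝ) - 1 - θ)) := by
  classical
  have hn1 : 1 ≤ n := by omega
  have hex := fun (v : Option {p // p ∈ S}) (j : Fin q) (i0 : Fin n) =>
    cellsV_exists hS v hn1 (F j) (d j) (hF j) i0 (hsm j v)
  choose Cf hCf1 hCf using hex
  set C1 : ℝ := 1 + ∑ v, ∑ j, ∑ i0, Cf v j i0 with hC1
  have hC1le : ∀ v j i0, Cf v j i0 ≤ C1 := by
    intro v j i0
    have e0 : ∀ v j i0, 0 ≤ Cf v j i0 := fun v j i0 => by linarith [hCf1 v j i0]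
    have e1 : Cf v j i0 ≤ ∑ i0, Cf v j i0 :=
      Finset.single_le_sum (f := fun i0 => Cf v j i0) (fun _ _ => e0 _ _ _) (Finset.mem_univ i0)
    have e2 : ∑ i0, Cf v j i0 ≤ ∑ j, ∑ i0, Cf v j i0 :=
      Finset.single_le_sum (f := fun j => ∑ i0, Cf v j i0)
        (fun _ _ => Finset.sum_nonneg fun _ _ => e0 _ _ _) (Finset.mem_univ j)
    have e3 : ∑ j, ∑ i0, Cf v j i0 ≤ ∑ v, ∑ j, ∑ i0, Cf v j i0 :=
      Finset.single_le_sum (f := fun v => ∑ j, ∑ i0, Cf v j i0)
        (fun _ _ => Finset.sum_nonneg fun _ _ => Finset.sum_nonneg fun _ _ => e0 _ _ _)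
        (Finset.mem_univ v)
    linarith
  have hC11 : 1 ≤ C1 := by
    have : 0 ≤ ∑ v, ∑ j, ∑ i0, Cf v j i0 := Finset.sum_nonneg fun v _ =>
      Finset.sum_nonneg fun j _ => Finset.sum_nonneg fun i0 _ => by linarith [hCf1 v j i0]
    linarith
  set s : ℕ := Fintype.card (Option {p // p ∈ S}) with hs
  set C' : ℝ := 3 ^ n * C1 ^ s with hC'
  have hC1s : 1 ≤ C1 ^ s := one_le_pow₀ hC11
  have h3n : (1 : ℝ) ≤ 3 ^ n := one_le_pow₀ (by norm_num)
  have hC'1 : 1 ≤ C' := one_le_mul_of_one_le_of_one_le h3n hC1s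
  refine ⟨C1 ^ s * C', one_le_mul_of_one_le_of_one_le hC1s hC'1, ?_⟩
  intro B θ h i0 j hB hh hBH X hX
  have hB0 : 0 < B := by linarith
  set H : ℝ := ∏ v, h v with hH
  have hH0 : 0 < H := Finset.prod_pos fun v _ => (hh v).1
  set bv : Option {p // p ∈ S} → ℝ := fun v => match v with
    | none => B
    | some _ => 1 with hbv
  have hbv0 : ∀ v, 0 ≤ bv v := by
    intro v
    cases v with
    | none => exact hB0.le
    | some p => exact zero_le_one
  have hcell : ∀ v, ∃ (g : (Fin n → ℤ) → ℕ) (k : ℕ), (∀ x ∈ X, g x < k) ∧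
      (k : ℝ) * h v ^ n ≤ C1 * h v ^ 2 ∧
      (∀ m, 1 ≤ m → m ≤ n → ∀ y : Fin m → Fin n → ℤ, (∀ a, y a ∈ X) →
        (∀ a b, g (y a) = g (y b)) → ∀ K : Fin m → Fin n,
          vabs v (mnr y K) ≤ C1 * h v ^ (m - 1) * bv v ^ m) ∧
      (∀ y : Fin n → Fin n → ℤ, (∀ a, y a ∈ X) →
        (∀ a b, g (y a) = g (y b)) → ∀ K : Fin n → Fin n,
          vabs v (mnr y K) ≤ C1 * h v ^ n * bv v ^ n) := by
    intro v
    refine (hCf v (j v) (i0 v)).mono (hC1le _ _ _) (h v) (bv v) (hh v).1 (hh v).2 (hbv0 v) X ?_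
    intro x hx
    obtain ⟨h1, h2, h3, _⟩ := hX x hx
    refine ⟨(h1 v).1, (h1 v).2.1, ?_, (h1 v).2.2⟩
    cases v with
    | none => exact h2
    | some p => exact h3 p
  choose g k hgk hkh hm hmn using hcell
  -- the size of the minors in a cell
  set Xf : ℕ → ℝ := fun m => if m = n then C1 * h none ^ n * B ^ n
    else C1 * h none ^ (m - 1) * B ^ m with hXf
  set Rf : ℕ → ℕ → ℝ := fun p m => if hp : p ∈ S then
    (if m = n then C1 * h (some ⟨p, hp⟩) ^ n else C1 * h (some ⟨p, hp⟩) ^ (m - 1)) else 0 with hRf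
  have hRf' : ∀ (p : {p // p ∈ S}) (m : ℕ), Rf p.1 m =
      if m = n then C1 * h (some p) ^ n else C1 * h (some p) ^ (m - 1) := by
    intro p m
    simp only [hRf]
    rw [dif_pos p.2]
  have hRf0 : ∀ p ∈ S, ∀ m, 0 ≤ Rf p m := by
    intro p hp m
    rw [hRf' ⟨p, hp⟩ m]
    have := (hh (some ⟨p, hp⟩)).1
    split_ifs <;> positivity
  have hprodn : Xf n * ∏ p ∈ S, Rf p n = C1 ^ s * (B ^ n * H ^ n) := by
    rw [← Finset.prod_coe_sort S (fun p => Rf p n)]
    simp only [hRf', if_true, hXf]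
    rw [Finset.prod_mul_distrib, Finset.prod_const, Finset.card_univ, hs, Fintype.card_option, hH,
      Fintype.prod_option, mul_pow, ← Finset.prod_pow, pow_succ]
    ring
  have hprodk : ∀ m, m ≠ n → Xf m * ∏ p ∈ S, Rf p m = C1 ^ s * (B ^ m * H ^ (m - 1)) := by
    intro m hmn
    rw [← Finset.prod_coe_sort S (fun p => Rf p m)]
    simp only [hRf', if_neg hmn, hXf]
    rw [Finset.prod_mul_distrib, Finset.prod_const, Finset.card_univ, hs, Fintype.card_option, hH,
      Fintype.prod_option, mul_pow, ← Finset.prod_pow, pow_succ]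
    ring
  -- the codes
  set γ : (Fin n → ℤ) → (Option {p // p ∈ S} → ℕ) := fun x v => g v x with hγ
  set box : Finset (Option {p // p ∈ S} → ℕ) := Fintype.piFinset (fun v => Finset.range (k v))
    with hbox
  have hmaps : ∀ x ∈ X, γ x ∈ box := by
    intro x hx
    rw [hbox, Fintype.mem_piFinset]
    intro v
    rw [Finset.mem_range]
    exact hgk v x hx
  set Mc : ℝ := C' * (B ^ n * H ^ n) + B ^ ((n : ℝ) - 1 - θ) * H ^ (n - 2) with hMc
  have hfib : ∀ b ∈ box, (((X.filter (fun x => γ x = b)).card : ℕ) : ℝ) ≤ Mc := by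
    intro b _
    set P := X.filter (fun x => γ x = b) with hP
    have hPX : ∀ x ∈ P, x ∈ X := fun x hx => (Finset.mem_filter.1 hx).1
    have hPg : ∀ v, ∀ x ∈ P, ∀ x' ∈ P, g v x = g v x' := by
      intro v x hx x' hx'
      have h1 := (Finset.mem_filter.1 hx).2
      have h2 := (Finset.mem_filter.1 hx').2
      exact congrFun (h1.trans h2.symm) v
    have hMc1 : 0 ≤ C' * (B ^ n * H ^ n) := by positivity
    have hMc2 : 0 ≤ B ^ ((n : ℝ) - 1 - θ) * H ^ (n - 2) := by positivity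
    rcases P.eq_empty_or_nonempty with he | ⟨x0, hx0⟩
    · rw [he, Finset.card_empty, Nat.cast_zero]
      positivity
    have hlat := lattice S hS P ⟨x0, hx0, by
      intro h0
      have h1 := ((hX x0 (hPX x0 hx0)).1 none).1
      apply h1
      rw [h0]
      rfl⟩ Xf Rf hRf0 (by
      intro m hm1 hmn' y hy K
      by_cases hmeq : m = n
      · subst hmeq
        simp only [hXf, if_true]
        exact hmn none y (fun a => hPX _ (hy a)) (fun a b => hPg none _ (hy a) _ (hy b)) K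
      · simp only [hXf, if_neg hmeq]
        exact hm none m hm1 hmn' y (fun a => hPX _ (hy a))
          (fun a b => hPg none _ (hy a) _ (hy b)) K) (by
      intro p hp m hm1 hmn' y hy K
      rw [hRf' ⟨p, hp⟩ m]
      by_cases hmeq : m = n
      · subst hmeq
        simp only [if_true]
        have h1 := hmn (some ⟨p, hp⟩) y (fun a => hPX _ (hy a))
          (fun a b => hPg (some ⟨p, hp⟩) _ (hy a) _ (hy b)) K
        simp only [hbv, one_pow, mul_one] at h1
        exact h1
      · simp only [if_neg hmeq]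
        have h1 := hm (some ⟨p, hp⟩) m hm1 hmn' y (fun a => hPX _ (hy a))
          (fun a b => hPg (some ⟨p, hp⟩) _ (hy a) _ (hy b)) K
        simp only [hbv, one_pow, mul_one] at h1
        exact h1)
    rcases hlat with h1 | ⟨m, hm1, hmn', c, hc0, hcP, hcle⟩
    · rw [hprodn] at h1
      have h2 : (3 : ℝ) ^ n * (C1 ^ s * (B ^ n * H ^ n)) = C' * (B ^ n * H ^ n) := by
        rw [hC']; ring
      rw [h2] at h1
      linarith
    · rw [hprodk m (by omega)] at hcle
      have h1 := (hX x0 (hPX x0 hx0)).2.2.2 c hc0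
      have h2 : ∃ i, C' * B ^ θ < |(c i : ℝ)| := by
        by_contra hcon
        push Not at hcon
        apply h1 _ (hcP x0 hx0)
        intro i
        refine (hcon i).trans ?_
        apply mul_le_mul_of_nonneg_right _ (by positivity)
        exact le_mul_of_one_le_left (by linarith) hC1s
      obtain ⟨i, hi⟩ := h2
      have h3 := hcle i
      have h4 : (3 : ℝ) ^ m * (C1 ^ s * (B ^ m * H ^ (m - 1))) ≤
          C' * (B ^ (n - 1) * H ^ (n - 2)) := by
        have h5 : B ^ m * H ^ (m - 1) ≤ B ^ (n - 1) * H ^ (n - 2) := by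
          have e1 : B ^ m * H ^ (m - 1) = B * (B * H) ^ (m - 1) := by
            have : B ^ m = B * B ^ (m - 1) := by
              rw [← pow_succ']
              congr 1
              omega
            rw [this, mul_pow]
            ring
          have e2 : B ^ (n - 1) * H ^ (n - 2) = B * (B * H) ^ (n - 2) := by
            have : B ^ (n - 1) = B * B ^ (n - 2) := by
              rw [← pow_succ']
              congr 1
              omega
            rw [this, mul_pow]
            ring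
          rw [e1, e2]
          exact mul_le_mul_of_nonneg_left (pow_le_pow_right₀ hBH (by omega)) hB0.le
        have h6 : (3 : ℝ) ^ m ≤ 3 ^ n := pow_le_pow_right₀ (by norm_num) hmn'.le
        rw [hC']
        calc (3 : ℝ) ^ m * (C1 ^ s * (B ^ m * H ^ (m - 1))) ≤
              3 ^ n * (C1 ^ s * (B ^ (n - 1) * H ^ (n - 2))) := by
              apply mul_le_mul h6 _ (by positivity) (by positivity)
              exact mul_le_mul_of_nonneg_left h5 (by positivity)
          _ = _ := by ring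
      have h5 : C' * B ^ θ * (P.card : ℝ) ≤ C' * (B ^ (n - 1) * H ^ (n - 2)) :=
        (mul_le_mul_of_nonneg_right hi.le (Nat.cast_nonneg _)).trans (h3.trans h4)
      have h6 : B ^ θ * (P.card : ℝ) ≤ B ^ (n - 1) * H ^ (n - 2) := by
        have hC'0 : 0 < C' := by linarith
        rw [mul_assoc] at h5
        exact le_of_mul_le_mul_left h5 hC'0
      have h7 : (P.card : ℝ) ≤ B ^ ((n : ℝ) - 1 - θ) * H ^ (n - 2) := by
        have hBθ : 0 < B ^ θ := Real.rpow_pos_of_pos hB0 _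
        have e1 : B ^ ((n : ℝ) - 1 - θ) = B ^ (n - 1) / B ^ θ := by
          rw [Real.rpow_sub hB0, ← Real.rpow_natCast B (n - 1)]
          congr 2
          rw [Nat.cast_sub hn1, Nat.cast_one]
        rw [e1, div_mul_eq_mul_div, le_div_iff₀ hBθ]
        linarith
      linarith
  have hcard : (X.card : ℝ) ≤ box.card * Mc := by
    have h1 := Finset.card_eq_sum_card_fiberwise (f := γ) (s := X) (t := box)
      (fun x hx => hmaps x hx)
    rw [h1]
    push_cast
    calc ∑ b ∈ box, (((X.filter (fun x => γ x = b)).card : ℕ) : ℝ) ≤ ∑ _b ∈ box, Mc :=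
          Finset.sum_le_sum hfib
      _ = box.card * Mc := by rw [Finset.sum_const, nsmul_eq_mul]
  have hboxc : (box.card : ℝ) * H ^ n ≤ C1 ^ s * H ^ 2 := by
    rw [hbox, Fintype.card_piFinset]
    simp only [Finset.card_range]
    push_cast
    rw [hH, ← Finset.prod_pow, ← Finset.prod_pow, ← Finset.prod_mul_distrib, hs,
      ← Finset.card_univ, ← Finset.prod_const, ← Finset.prod_mul_distrib]
    apply Finset.prod_le_prod
    · intro v _
      have := (hh v).1
      positivity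
    · intro v _
      exact hkh v
  have hMc0 : 0 ≤ Mc := by positivity
  have hHn : 0 < H ^ n := by positivity
  have hfin : (X.card : ℝ) * H ^ n ≤
      (C1 ^ s * C' * (B ^ n * H ^ 2 + B ^ ((n : ℝ) - 1 - θ))) * H ^ n := by
    have e1 : H ^ n = H ^ 2 * H ^ (n - 2) := by
      rw [← pow_add]
      congr 1
      omega
    have hBr : 0 < B ^ ((n : ℝ) - 1 - θ) := Real.rpow_pos_of_pos hB0 _
    calc (X.card : ℝ) * H ^ n ≤ (box.card * Mc) * H ^ n :=
          mul_le_mul_of_nonneg_right hcard hHn.le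
      _ = (box.card * H ^ n) * Mc := by ring
      _ ≤ (C1 ^ s * H ^ 2) * Mc := mul_le_mul_of_nonneg_right hboxc hMc0
      _ = C1 ^ s * (C' * (B ^ n * H ^ 2) * H ^ n +
          B ^ ((n : ℝ) - 1 - θ) * (H ^ 2 * H ^ (n - 2))) := by rw [hMc]; ring
      _ = C1 ^ s * (C' * (B ^ n * H ^ 2) * H ^ n + 1 * (B ^ ((n : ℝ) - 1 - θ) * H ^ n)) := by
          rw [← e1, one_mul]
      _ ≤ C1 ^ s * (C' * (B ^ n * H ^ 2) * H ^ n + C' * (B ^ ((n : ℝ) - 1 - θ) * H ^ n)) := by
          apply mul_le_mul_of_nonneg_left _ (by positivity)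
          have : 1 * (B ^ ((n : ℝ) - 1 - θ) * H ^ n) ≤ C' * (B ^ ((n : ℝ) - 1 - θ) * H ^ n) :=
            mul_le_mul_of_nonneg_right hC'1 (by positivity)
          linarith
      _ = _ := by ring
  exact le_of_mul_le_mul_right hfin hHn

end Pool.Agent.H41N.VP
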