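import Pool.Agent.H41N.VP.Line

set_option autoImplicit false

/-!
Uniform counts of integer vectors at which a form is small.
-/

namespace Pool.Agent.H41N.VP

open Polynomial Pool.Agent.H951R3.W

lemma exists_dir' {n : ℕ} (F : MvPolynomial (Fin n) ℤ) (hF0 : F ≠ 0) {d : ℕ} (hd : 1 ≤ d)
    (hF : F.IsHomogeneous d) :
    ∃ w : Fin n → ℤ, MvPolynomial.eval w F ≠ 0 ∧ (∃ i, w i ≠ 0) ∧ ∀ i, 0 ≤ w i ∧ w i ≤ d := by
  have h1 : ∃ w : Fin n → ℤ, (∀ i, w i ∈ Finset.Icc (0 : ℤ) d) ∧ MvPolynomial.eval w F ≠ 0 := by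
    by_contra h
    push Not at h
    apply hF0
    apply MvPolynomial.eq_zero_of_eval_zero_at_prod_finset F (fun _ => Finset.Icc (0 : ℤ) d)
    · intro i
      rw [Int.card_Icc]
      have h2 : F.degreeOf i ≤ d := (MvPolynomial.degreeOf_le_totalDegree F i).trans
        hF.totalDegree_le
      omega
    · intro w hw
      exact h w hw
  obtain ⟨w, hwr, hw⟩ := h1
  refine ⟨w, hw, ?_, fun i => Finset.mem_Icc.1 (hwr i)⟩
  by_contra h
  push Not at h
  have h2 : w = 0 := funext h
  apply hw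
  rw [h2, MvPolynomial.eval_zero, MvPolynomial.constantCoeff_eq]
  refine hF.coeff_eq_zero ?_
  simp
  omega

/-- **Uniform count of the vectors at which a form is small.** -/
theorem form_count (N d : ℕ) (hd : 1 ≤ d) (S : Finset ℕ) (hS : ∀ p ∈ S, p.Prime) :
    ∃ C : ℝ, 0 < C ∧ ∀ F : MvPolynomial (Fin (N + 1)) ℤ, F ≠ 0 → F.IsHomogeneous d →
      ∀ (B T : ℝ) (V : ℕ), 1 ≤ B → 0 ≤ T → ∀ X : Finset (Fin (N + 1) → ℤ),
      (∀ x ∈ X, (∀ i, |(x i : ℝ)| ≤ B) ∧ MvPolynomial.eval x F ≠ 0 ∧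
        |((MvPolynomial.eval x F : ℤ) : ℝ)| *
          ∏ p ∈ S, (padicNorm p ((MvPolynomial.eval x F : ℤ) : ℚ) : ℝ) ≤ T ∧
        ∀ p ∈ S, |padicValRat p ((MvPolynomial.eval x F : ℤ) : ℚ)| ≤ V) →
      (X.card : ℝ) ≤ C * (2 * V + 1) ^ S.card * B ^ N * (1 + T ^ ((1 : ℝ) / d)) := by
  classical
  set s : ℕ := S.card with hs
  set C1 : ℝ := (d : ℝ) * d ^ s * (1 + 2 ^ (s + 1)) with hC1
  have hdR : (0 : ℝ) < d := by exact_mod_cast hd
  set CY : ℝ := d * (2 * (1 + 2 * d) + 1) ^ N with hCY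
  refine ⟨CY * C1, by positivity, fun F hF0 hF B T V hB hT0 X hX => ?_⟩
  obtain ⟨w, hw, ⟨i0, hwi⟩, hwd⟩ := exists_dir' F hF0 hd hF
  set a : ℚ := ((MvPolynomial.eval w F : ℤ) : ℚ) with ha
  have ha0 : a ≠ 0 := by rw [ha]; exact_mod_cast hw
  set W : ℕ := d with hW
  have hWi : ∀ i, |(w i : ℝ)| ≤ W := by
    intro i
    have h1 : (0 : ℝ) ≤ (w i : ℝ) := by exact_mod_cast (hwd i).1
    rw [abs_of_nonneg h1]
    exact_mod_cast (hwd i).2
  set w0 : ℕ := (w i0).natAbs with hw0
  have hw0pos : 0 < w0 := Int.natAbs_pos.mpr hwi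
  have hw0d : (w0 : ℝ) ≤ d := by
    have h1 := hwd i0
    have h2 : w0 ≤ d := by omega
    exact_mod_cast h2
  have hB0 : 0 < B := by linarith
  -- the decomposition
  set tv : (Fin (N + 1) → ℤ) → ℤ := fun x => x i0 / w i0 with htv
  set yv : (Fin (N + 1) → ℤ) → (Fin (N + 1) → ℤ) := fun x i => x i - tv x * w i with hyv
  set R : ℤ := ⌊(1 + 2 * (W : ℝ)) * B⌋ with hR
  set Y : Finset (Fin (N + 1) → ℤ) :=
    Fintype.piFinset (fun i => if i = i0 then Finset.Ico (0 : ℤ) w0 else Finset.Icc (-R) R) with hY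
  have hmaps : ∀ x ∈ X, yv x ∈ Y := by
    intro x hx
    rw [hY, Fintype.mem_piFinset]
    intro i
    have hxB := (hX x hx).1
    split_ifs with hi
    · subst hi
      have h1 : yv x i = x i % w i := by
        rw [hyv]
        simp only [htv]
        rw [Int.emod_def, mul_comm]
      rw [h1, Finset.mem_Ico]
      refine ⟨Int.emod_nonneg _ hwi, ?_⟩
      have := Int.emod_lt_abs (x i) hwi
      rw [hw0]
      simpa using this
    · -- |tv x| ≤ B + 1
      have h2 : |((tv x : ℤ) : ℝ)| ≤ 2 * B := by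
        have h3 : |tv x| * w0 ≤ |x i0| + w0 := by
          have h4 : tv x * w i0 = x i0 - x i0 % w i0 := by
            have := Int.emod_add_mul_ediv (x i0) (w i0)
            simp only [htv]
            linarith [mul_comm (w i0) (x i0 / w i0)]
          have h5 : |tv x| * |w i0| = |x i0 - x i0 % w i0| := by rw [← abs_mul, h4]
          have h6 : ((w0 : ℕ) : ℤ) = |w i0| := by rw [hw0]; simp
          have h7 := Int.emod_nonneg (x i0) hwi
          have h8 := Int.emod_lt_abs (x i0) hwi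
          rw [h6, h5]
          calc |x i0 - x i0 % w i0| ≤ |x i0| + |x i0 % w i0| := abs_sub _ _
            _ ≤ |x i0| + |w i0| := by rw [abs_of_nonneg h7]; linarith
        have h9 : |((tv x : ℤ) : ℝ)| * w0 ≤ |(x i0 : ℝ)| + w0 := by exact_mod_cast h3
        have h10 : (1 : ℝ) ≤ w0 := by exact_mod_cast hw0pos
        have h11 := hxB i0
        have h12 : 0 ≤ |((tv x : ℤ) : ℝ)| := abs_nonneg _
        by_contra hcon
        push Not at hcon
        nlinarith
      have h13 : |((yv x i : ℤ) : ℝ)| ≤ (1 + 2 * W) * B := by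
        have h14 : ((yv x i : ℤ) : ℝ) = (x i : ℝ) - (tv x : ℝ) * (w i : ℝ) := by
          rw [hyv]; push_cast; ring
        rw [h14]
        calc |(x i : ℝ) - (tv x : ℝ) * (w i : ℝ)| ≤ |(x i : ℝ)| + |(tv x : ℝ) * (w i : ℝ)| :=
              abs_sub _ _
          _ ≤ B + (2 * B) * W := by
              rw [abs_mul]
              refine add_le_add (hxB i) ?_
              exact mul_le_mul h2 (hWi i) (abs_nonneg _) (by positivity)
          _ = (1 + 2 * W) * B := by ring
      rw [Finset.mem_Icc, ← abs_le, hR, Int.le_floor]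
      push_cast at h13 ⊢
      exact h13
  have hYcard : (Y.card : ℝ) ≤ CY * B ^ N := by
    have h1 : Y.card = w0 * (2 * R + 1).toNat ^ N := by
      rw [hY, Fintype.card_piFinset, ← Finset.mul_prod_erase Finset.univ _ (Finset.mem_univ i0)]
      rw [if_pos rfl, Int.card_Ico]
      have e1 : ((w0 : ℤ) - 0).toNat = w0 := by simp
      rw [e1]
      congr 1
      rw [Finset.prod_congr rfl (g := fun _ => (2 * R + 1).toNat)]
      · rw [Finset.prod_const, Finset.card_erase_of_mem (Finset.mem_univ _), Finset.card_univ,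
          Fintype.card_fin]
        rfl
      · intro i hi
        rw [if_neg (Finset.ne_of_mem_erase hi), Int.card_Icc]
        congr 1
        ring
    have hR0 : 0 ≤ R := Int.floor_nonneg.mpr (by positivity)
    have h2 : (((2 * R + 1).toNat : ℕ) : ℝ) ≤ (2 * (1 + 2 * W) + 1) * B := by
      have h3 : (((2 * R + 1).toNat : ℕ) : ℝ) = 2 * (R : ℝ) + 1 := by
        have : (((2 * R + 1).toNat : ℕ) : ℤ) = 2 * R + 1 := Int.toNat_of_nonneg (by omega)
        exact_mod_cast this
      rw [h3]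
      have h4 : (R : ℝ) ≤ (1 + 2 * (W : ℝ)) * B := Int.floor_le _
      nlinarith
    rw [h1]
    push_cast
    rw [hCY, mul_assoc]
    refine mul_le_mul hw0d ?_ (by positivity) (by positivity)
    rw [← mul_pow]
    exact pow_le_pow_left₀ (by positivity) h2 N
  -- fibres
  set Mr : ℝ := C1 * (2 * V + 1) ^ s * (1 + T ^ ((1 : ℝ) / d)) with hMr
  have hMr0 : 0 ≤ Mr := by positivity
  have hfib : ∀ y ∈ Y, (X.filter (fun x => yv x = y)).card ≤ ⌊Mr⌋₊ := by
    intro y _
    refine Nat.le_floor ?_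
    set Φ := X.filter (fun x => yv x = y) with hΦ
    have hxt : ∀ x ∈ Φ, ∀ i, x i = y i + tv x * w i := by
      intro x hx i
      have h1 : yv x = y := (Finset.mem_filter.mp hx).2
      rw [← h1, hyv]
      ring
    have hinj : Set.InjOn tv (Φ : Set (Fin (N + 1) → ℤ)) := by
      intro x hx x' hx' h
      funext i
      rw [hxt x hx i, hxt x' hx' i, h]
    set 𝒯 := Φ.image tv with h𝒯
    have hcard : 𝒯.card = Φ.card := Finset.card_image_of_injOn hinj
    rw [← hcard]
    set FQ := MvPolynomial.map (Int.castRingHom ℚ) F with hFQ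
    have hFQh : FQ.IsHomogeneous d := hF.map _
    set f : ℚ[X] := lineP FQ (fun i => (y i : ℚ)) (fun i => (w i : ℚ)) with hf
    obtain ⟨hdeg, hcoef⟩ := lineP_degree FQ hFQh (fun i => (y i : ℚ)) (fun i => (w i : ℚ))
    rw [eval_cast] at hcoef
    have hdeg' : f.natDegree = d := by
      refine le_antisymm hdeg ?_
      refine Polynomial.le_natDegree_of_ne_zero ?_
      rw [hcoef]
      exact ha0
    have hlead : f.leadingCoeff = a := by
      rw [Polynomial.leadingCoeff, hdeg', hcoef]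
    have hev : ∀ x ∈ Φ, f.eval (tv x : ℚ) = ((MvPolynomial.eval x F : ℤ) : ℚ) := by
      intro x hx
      rw [hf, eval_lineP, ← eval_cast]
      congr 2
      funext i
      rw [hxt x hx i]
      push_cast
      ring
    refine line_count_int S hS hd _ hw f hdeg' hlead T V hT0 𝒯 ?_ ?_ ?_
    · intro t ht
      obtain ⟨x, hx, rfl⟩ := Finset.mem_image.mp ht
      rw [hev x hx]
      exact_mod_cast (hX x (Finset.mem_filter.mp hx).1).2.1
    · intro t ht
      obtain ⟨x, hx, rfl⟩ := Finset.mem_image.mp ht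
      rw [hev x hx]
      have := (hX x (Finset.mem_filter.mp hx).1).2.2.1
      push_cast at this ⊢
      exact this
    · intro t ht p hp
      obtain ⟨x, hx, rfl⟩ := Finset.mem_image.mp ht
      rw [hev x hx]
      exact (hX x (Finset.mem_filter.mp hx).1).2.2.2 p hp
  have hcount := Finset.card_le_mul_card_image_of_maps_to (s := X) (t := Y) (f := yv) hmaps _ hfib
  have h1 : (X.card : ℝ) ≤ ⌊Mr⌋₊ * Y.card := by exact_mod_cast hcount
  have h2 : (X.card : ℝ) ≤ Mr * (CY * B ^ N) :=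
    h1.trans (mul_le_mul (Nat.floor_le hMr0) hYcard (by positivity) hMr0)
  calc (X.card : ℝ) ≤ Mr * (CY * B ^ N) := h2
    _ = CY * C1 * (2 * V + 1) ^ s * B ^ N * (1 + T ^ ((1 : ℝ) / d)) := by
        rw [hMr]
        ring


end Pool.Agent.H41N.VP
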