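import Pool.Agent.H41N.VP.Form

set_option autoImplicit false

/-!
Counting the integer vectors on hyperplanes of small height at which a form is small.
-/

namespace Pool.Agent.H41N.VP

open Pool.Agent.H951R3.W

section

variable {M : ℕ}

/-- elimination of the coordinate `m` by the equation `∑ c i * x i = 0` -/
noncomputable def elim (c : Fin (M + 2) → ℤ) (m : Fin (M + 2)) :
    Fin (M + 2) → MvPolynomial (Fin (M + 1)) ℤ :=
  m.insertNth (α := fun _ => MvPolynomial (Fin (M + 1)) ℤ)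
    (-(∑ k, MvPolynomial.C (c (m.succAbove k)) * MvPolynomial.X k))
    (fun k => MvPolynomial.C (c m) * MvPolynomial.X k)

lemma elim_hom (c : Fin (M + 2) → ℤ) (m i : Fin (M + 2)) : (elim c m i).IsHomogeneous 1 := by
  have hX : ∀ (a : ℤ) (k : Fin (M + 1)),
      (MvPolynomial.C a * MvPolynomial.X k : MvPolynomial (Fin (M + 1)) ℤ).IsHomogeneous 1 := by
    intro a k
    have h1 := (MvPolynomial.isHomogeneous_C (Fin (M + 1)) a).mul
      (MvPolynomial.isHomogeneous_X ℤ k)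
    simpa using h1
  by_cases h : i = m
  · subst h
    unfold elim
    rw [Fin.insertNth_apply_same]
    apply MvPolynomial.IsHomogeneous.neg
    exact MvPolynomial.IsHomogeneous.sum _ _ _ fun k _ => hX _ k
  · obtain ⟨k, rfl⟩ := Fin.exists_succAbove_eq h
    unfold elim
    rw [Fin.insertNth_apply_succAbove]
    exact hX _ k

lemma elim_eval (c : Fin (M + 2) → ℤ) (m : Fin (M + 2)) (x : Fin (M + 2) → ℤ)
    (hx : ∑ i, c i * x i = 0) (i : Fin (M + 2)) :
    MvPolynomial.eval (fun k => x (m.succAbove k)) (elim c m i) = c m * x i := by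
  by_cases h : i = m
  · subst h
    unfold elim
    rw [Fin.insertNth_apply_same, map_neg, map_sum]
    simp only [map_mul, MvPolynomial.eval_C, MvPolynomial.eval_X]
    rw [Fin.sum_univ_succAbove _ i] at hx
    linarith
  · obtain ⟨k, rfl⟩ := Fin.exists_succAbove_eq h
    unfold elim
    rw [Fin.insertNth_apply_succAbove]
    simp only [map_mul, MvPolynomial.eval_C, MvPolynomial.eval_X]

lemma eval_smul_int {n d : ℕ} (F : MvPolynomial (Fin n) ℤ) (hF : F.IsHomogeneous d) (r : ℤ)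
    (x : Fin n → ℤ) : MvPolynomial.eval (fun i => r * x i) F = r ^ d * MvPolynomial.eval x F := by
  classical
  rw [MvPolynomial.eval_eq', MvPolynomial.eval_eq', Finset.mul_sum]
  refine Finset.sum_congr rfl fun m hm => ?_
  have h1 := hF (MvPolynomial.mem_support_iff.mp hm)
  have h2 : ∑ i, m i = d := by
    rw [← h1]
    simp [Finsupp.weight, Finsupp.linearCombination, Finsupp.sum_fintype]
  simp only [mul_pow]
  rw [Finset.prod_mul_distrib, Finset.prod_pow_eq_pow_sum, h2]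
  ring

lemma elim_form {d : ℕ} (F : MvPolynomial (Fin (M + 2)) ℤ) (hF : F.IsHomogeneous d)
    (c : Fin (M + 2) → ℤ) (m : Fin (M + 2)) (x : Fin (M + 2) → ℤ) (hx : ∑ i, c i * x i = 0) :
    MvPolynomial.eval (fun k => x (m.succAbove k)) (MvPolynomial.aeval (elim c m) F) =
      c m ^ d * MvPolynomial.eval x F := by
  rw [← eval_smul_int F hF]
  have h1 : (MvPolynomial.eval (fun k => x (m.succAbove k))) (MvPolynomial.aeval (elim c m) F) =
      MvPolynomial.eval (fun i => MvPolynomial.eval (fun k => x (m.succAbove k)) (elim c m i)) F := by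
    rw [MvPolynomial.aeval_def, MvPolynomial.eval₂_eq', map_sum]
    conv_rhs => rw [MvPolynomial.eval_eq']
    refine Finset.sum_congr rfl fun m _ => ?_
    rw [map_mul, map_prod]
    simp
  rw [h1]
  congr 2
  funext i
  exact elim_eval c m x hx i

end

/-- one hyperplane -/
lemma hyp_one (M d : ℕ) (hd : 1 ≤ d) (S : Finset ℕ) (hS : ∀ p ∈ S, p.Prime) :
    ∃ C : ℝ, 0 < C ∧ ∀ F : MvPolynomial (Fin (M + 2)) ℤ, F.IsHomogeneous d →
      ∀ (c : Fin (M + 2) → ℤ) (m : Fin (M + 2)), c m ≠ 0 →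
      ∀ (B T Y : ℝ) (V : ℕ), 1 ≤ B → 0 ≤ T → |(c m : ℝ)| ≤ Y →
      ∀ X : Finset (Fin (M + 2) → ℤ),
      (∀ x ∈ X, (∀ i, |(x i : ℝ)| ≤ B) ∧ MvPolynomial.eval x F ≠ 0 ∧
        |((MvPolynomial.eval x F : ℤ) : ℝ)| *
          ∏ p ∈ S, (padicNorm p ((MvPolynomial.eval x F : ℤ) : ℚ) : ℝ) ≤ T ∧
        ∑ i, c i * x i = 0 ∧
        ∀ p ∈ S, |padicValRat p ((c m ^ d * MvPolynomial.eval x F : ℤ) : ℚ)| ≤ V) →
      (X.card : ℝ) ≤ C * (2 * V + 1) ^ S.card * B ^ M * (1 + Y * T ^ ((1 : ℝ) / d)) := by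
  classical
  obtain ⟨C, hC, hmain⟩ := form_count M d hd S hS
  refine ⟨C, hC, ?_⟩
  intro F hF c m hm B T Y V hB hT hY X hX
  have hY0 : 0 ≤ Y := (abs_nonneg _).trans hY
  rcases X.eq_empty_or_nonempty with hXe | ⟨x0, hx0⟩
  · rw [hXe, Finset.card_empty, Nat.cast_zero]
    positivity
  set z : (Fin (M + 2) → ℤ) → (Fin (M + 1) → ℤ) := fun x k => x (m.succAbove k) with hz
  set G : MvPolynomial (Fin (M + 1)) ℤ := MvPolynomial.aeval (elim c m) F with hG
  have hGh : G.IsHomogeneous d := by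
    have h1 := hF.aeval (elim c m) (elim_hom c m)
    rwa [one_mul] at h1
  have hev : ∀ x ∈ X, MvPolynomial.eval (z x) G = c m ^ d * MvPolynomial.eval x F :=
    fun x hx => elim_form F hF c m x (hX x hx).2.2.2.1
  have hne : ∀ x ∈ X, MvPolynomial.eval (z x) G ≠ 0 := by
    intro x hx
    rw [hev x hx]
    exact mul_ne_zero (pow_ne_zero _ hm) (hX x hx).2.1
  have hG0 : G ≠ 0 := by
    intro h
    apply hne x0 hx0
    rw [h, map_zero]
  have hinj : Set.InjOn z (X : Set (Fin (M + 2) → ℤ)) := by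
    intro x hx x' hx' h
    have h1 : ∀ k, x (m.succAbove k) = x' (m.succAbove k) := fun k => congrFun h k
    have h2 : x m = x' m := by
      have h3 := (hX x hx).2.2.2.1
      have h4 := (hX x' hx').2.2.2.1
      rw [Fin.sum_univ_succAbove _ m] at h3 h4
      have h5 : ∑ k, c (m.succAbove k) * x (m.succAbove k) =
          ∑ k, c (m.succAbove k) * x' (m.succAbove k) :=
        Finset.sum_congr rfl fun k _ => by rw [h1 k]
      have h6 : c m * x m = c m * x' m := by linarith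
      exact mul_left_cancel₀ hm h6
    funext i
    by_cases hi : i = m
    · rw [hi, h2]
    · obtain ⟨k, rfl⟩ := Fin.exists_succAbove_eq hi
      exact h1 k
  rw [← Finset.card_image_of_injOn hinj]
  have h1 := hmain G hG0 hGh B (Y ^ d * T) V hB (by positivity) (X.image z) (by
    intro y hy
    obtain ⟨x, hx, rfl⟩ := Finset.mem_image.1 hy
    obtain ⟨h1, h2, h3, h4, h5⟩ := hX x hx
    refine ⟨fun i => h1 _, hne x hx, ?_, ?_⟩
    · rw [hev x hx]
      have e1 : ∀ p ∈ S, (padicNorm p ((c m ^ d * MvPolynomial.eval x F : ℤ) : ℚ) : ℝ) =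
          (padicNorm p (c m : ℚ) : ℝ) ^ d *
            (padicNorm p ((MvPolynomial.eval x F : ℤ) : ℚ) : ℝ) := by
        intro p hp
        have : Fact p.Prime := ⟨hS p hp⟩
        push_cast
        rw [padicNorm.mul]
        have hpow : ∀ (a : ℚ) (k : ℕ), padicNorm p (a ^ k) = padicNorm p a ^ k := by
          intro a k
          induction k with
          | zero => simp
          | succ k ih => rw [pow_succ, padicNorm.mul, ih, pow_succ]
        rw [hpow]
        push_cast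
        rfl
      rw [Finset.prod_congr rfl e1, Finset.prod_mul_distrib]
      push_cast
      rw [abs_mul, abs_pow]
      have e2 : ∏ p ∈ S, (padicNorm p (c m : ℚ) : ℝ) ^ d ≤ 1 := by
        apply Finset.prod_le_one
        · intro p hp
          have : (0 : ℝ) ≤ (padicNorm p (c m : ℚ) : ℝ) := by exact_mod_cast padicNorm.nonneg _
          positivity
        · intro p hp
          have : Fact p.Prime := ⟨hS p hp⟩
          have e3 : (padicNorm p (c m : ℚ) : ℝ) ≤ 1 := by exact_mod_cast padicNorm.of_int (c m)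
          have e4 : (0 : ℝ) ≤ (padicNorm p (c m : ℚ) : ℝ) := by exact_mod_cast padicNorm.nonneg _
          exact pow_le_one₀ e4 e3
      have e5 : (0 : ℝ) ≤ ∏ p ∈ S, (padicNorm p (c m : ℚ) : ℝ) ^ d := by
        apply Finset.prod_nonneg
        intro p hp
        have : (0 : ℝ) ≤ (padicNorm p (c m : ℚ) : ℝ) := by exact_mod_cast padicNorm.nonneg _
        positivity
      have e6 : 0 ≤ |((MvPolynomial.eval x F : ℤ) : ℝ)| *
          ∏ p ∈ S, (padicNorm p ((MvPolynomial.eval x F : ℤ) : ℚ) : ℝ) := by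
        apply mul_nonneg (abs_nonneg _)
        apply Finset.prod_nonneg
        intro p hp
        exact_mod_cast padicNorm.nonneg _
      have e7 : |(c m : ℝ)| ^ d ≤ Y ^ d := pow_le_pow_left₀ (abs_nonneg _) hY d
      calc |(c m : ℝ)| ^ d * |(((MvPolynomial.eval x) F : ℤ) : ℝ)| *
            ((∏ p ∈ S, (padicNorm p (c m : ℚ) : ℝ) ^ d) *
              ∏ p ∈ S, (padicNorm p (((MvPolynomial.eval x) F : ℤ) : ℚ) : ℝ)) =
            |(c m : ℝ)| ^ d * (∏ p ∈ S, (padicNorm p (c m : ℚ) : ℝ) ^ d) *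
            (|(((MvPolynomial.eval x) F : ℤ) : ℝ)| *
              ∏ p ∈ S, (padicNorm p (((MvPolynomial.eval x) F : ℤ) : ℚ) : ℝ)) := by ring
        _ ≤ (Y ^ d * 1) * T := by
            refine mul_le_mul ?_ h3 e6 (by positivity)
            exact mul_le_mul e7 e2 e5 (by positivity)
        _ = Y ^ d * T := by ring
    · intro p hp
      rw [hev x hx]
      exact h5 p hp)
  have h2 : (Y ^ d * T) ^ ((1 : ℝ) / d) = Y * T ^ ((1 : ℝ) / d) := by
    rw [Real.mul_rpow (by positivity) hT, one_div, Real.pow_rpow_inv_natCast hY0 (by omega)]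
  rw [h2] at h1
  exact h1

/-- **Points on hyperplanes of small height.** -/
theorem hyp_count (M d : ℕ) (hd : 1 ≤ d) (S : Finset ℕ) (hS : ∀ p ∈ S, p.Prime)
    (F : MvPolynomial (Fin (M + 2)) ℤ) (hF : F.IsHomogeneous d) (ε : ℝ) (hε : 0 < ε) :
    ∃ C : ℝ, 0 < C ∧ ∀ (B T Y : ℝ), 1 ≤ B → 0 ≤ T → 1 ≤ Y →
      ∀ X : Finset (Fin (M + 2) → ℤ),
      (∀ x ∈ X, (∀ i, |(x i : ℝ)| ≤ B) ∧ MvPolynomial.eval x F ≠ 0 ∧
        |((MvPolynomial.eval x F : ℤ) : ℝ)| *
          ∏ p ∈ S, (padicNorm p ((MvPolynomial.eval x F : ℤ) : ℚ) : ℝ) ≤ T ∧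
        ∃ c : Fin (M + 2) → ℤ, c ≠ 0 ∧ (∀ i, |(c i : ℝ)| ≤ Y) ∧ ∑ i, c i * x i = 0) →
      (X.card : ℝ) ≤ C * (Y ^ (M + 2) * (B * Y) ^ ε * B ^ M * (1 + Y * T ^ ((1 : ℝ) / d))) := by
  classical
  obtain ⟨C1, hC1, hone⟩ := hyp_one M d hd S hS
  obtain ⟨A, hA1, hA⟩ := eval_bound F hF
  have hA0 : 0 < A := by linarith
  have hdR : (0 : ℝ) < d := by exact_mod_cast hd
  set s : ℕ := S.card with hs
  set ε' : ℝ := ε / (d * (s + 1)) with hε'
  have hε'0 : 0 < ε' := by positivity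
  obtain ⟨C2, hC2, hlog⟩ := log_pow_le s hε'0
  refine ⟨3 ^ (M + 2) * (C1 * (C2 * A ^ (ε' * s))), by positivity, ?_⟩
  intro B T Y hB hT hY X hX
  have hB0 : 0 < B := by linarith
  have hY0 : 0 < Y := by linarith
  have hBY : 1 ≤ B * Y := one_le_mul_of_one_le_of_one_le hB hY
  set R : ℝ := A * (B * Y) ^ d with hR
  have hR1 : 1 ≤ R := one_le_mul_of_one_le_of_one_le hA1 (one_le_pow₀ hBY)
  set V : ℕ := Nat.log 2 ⌊R⌋₊ with hV
  have hex : ∀ x ∈ X, ∃ c : Fin (M + 2) → ℤ, c ≠ 0 ∧ (∀ i, |(c i : ℝ)| ≤ Y) ∧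
      ∑ i, c i * x i = 0 := fun x hx => (hX x hx).2.2.2
  choose! cc hcc0 hccY hccx using hex
  set box : Finset (Fin (M + 2) → ℤ) :=
    Fintype.piFinset (fun _ => Finset.Icc (-⌊Y⌋) ⌊Y⌋) with hbox
  have hmaps : ∀ x ∈ X, cc x ∈ box := by
    intro x hx
    rw [hbox, Fintype.mem_piFinset]
    intro i
    rw [Finset.mem_Icc, ← abs_le, Int.le_floor]
    have := hccY x hx i
    push_cast
    exact this
  have hboxc : (box.card : ℝ) ≤ 3 ^ (M + 2) * Y ^ (M + 2) := by
    rw [hbox, Fintype.card_piFinset, Finset.prod_const, Finset.card_univ, Fintype.card_fin,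
      Int.card_Icc]
    push_cast
    rw [← mul_pow]
    apply pow_le_pow_left₀ (by positivity)
    have h0 : 0 ≤ ⌊Y⌋ := Int.floor_nonneg.2 hY0.le
    have h1 : (((⌊Y⌋ + 1 - -⌊Y⌋).toNat : ℕ) : ℝ) = 2 * (⌊Y⌋ : ℝ) + 1 := by
      have h2 : (((⌊Y⌋ + 1 - -⌊Y⌋).toNat : ℕ) : ℤ) = ⌊Y⌋ + 1 - -⌊Y⌋ :=
        Int.toNat_of_nonneg (by omega)
      have h3 : (((⌊Y⌋ + 1 - -⌊Y⌋).toNat : ℕ) : ℝ) = ((⌊Y⌋ + 1 - -⌊Y⌋ : ℤ) : ℝ) := by
        exact_mod_cast h2
      rw [h3]
      push_cast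
      ring
    rw [h1]
    have h2 : (⌊Y⌋ : ℝ) ≤ Y := Int.floor_le Y
    linarith
  set Mr : ℝ := C1 * (2 * V + 1) ^ s * B ^ M * (1 + Y * T ^ ((1 : ℝ) / d)) with hMr
  have hTd : 0 ≤ T ^ ((1 : ℝ) / d) := Real.rpow_nonneg hT _
  have hMr0 : 0 ≤ Mr := by positivity
  have hfib : ∀ c ∈ box, (((X.filter (fun x => cc x = c)).card : ℕ) : ℝ) ≤ Mr := by
    intro c _
    rcases (X.filter (fun x => cc x = c)).eq_empty_or_nonempty with he | ⟨x0, hx0⟩
    · rw [he, Finset.card_empty, Nat.cast_zero]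
      exact hMr0
    obtain ⟨hx0X, hx0c⟩ := Finset.mem_filter.1 hx0
    have hc0 : c ≠ 0 := by rw [← hx0c]; exact hcc0 x0 hx0X
    obtain ⟨m, hm⟩ := Function.ne_iff.1 hc0
    have hm' : c m ≠ 0 := hm
    have hcY : |(c m : ℝ)| ≤ Y := by rw [← hx0c]; exact hccY x0 hx0X m
    refine hone F hF c m hm' B T Y V hB hT hcY _ ?_
    intro x hx
    obtain ⟨hxX, hxc⟩ := Finset.mem_filter.1 hx
    obtain ⟨h1, h2, h3, _⟩ := hX x hxX
    refine ⟨h1, h2, h3, by rw [← hxc]; exact hccx x hxX, ?_⟩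
    intro p hp
    refine val_le p (hS p hp) _ (mul_ne_zero (pow_ne_zero _ hm') h2) ?_
    push_cast
    rw [abs_mul, abs_pow, hR, mul_pow]
    have h4 := hA B hB x h1
    calc |(c m : ℝ)| ^ d * |((MvPolynomial.eval x F : ℤ) : ℝ)| ≤ Y ^ d * (A * B ^ d) :=
          mul_le_mul (pow_le_pow_left₀ (abs_nonneg _) hcY d) h4 (abs_nonneg _) (by positivity)
      _ = A * (B ^ d * Y ^ d) := by ring
  have hcard : (X.card : ℝ) ≤ box.card * Mr := by
    have h1 := Finset.card_eq_sum_card_fiberwise (f := cc) (s := X) (t := box)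
      (fun x hx => hmaps x hx)
    rw [h1]
    push_cast
    calc ∑ c ∈ box, (((X.filter (fun x => cc x = c)).card : ℕ) : ℝ) ≤ ∑ _c ∈ box, Mr :=
          Finset.sum_le_sum hfib
      _ = box.card * Mr := by rw [Finset.sum_const, nsmul_eq_mul]
  have h3 : ((2 : ℝ) * V + 1) ^ s ≤ (C2 * A ^ (ε' * s)) * (B * Y) ^ ε := by
    have h4 := hlog R hR1
    refine h4.trans ?_
    rw [hR, Real.mul_rpow hA0.le (by positivity), mul_assoc]
    refine mul_le_mul_of_nonneg_left ?_ hC2.le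
    refine mul_le_mul_of_nonneg_left ?_ (by positivity)
    rw [← Real.rpow_natCast (B * Y) d, ← Real.rpow_mul (by positivity)]
    refine Real.rpow_le_rpow_of_exponent_le hBY ?_
    rw [hε']
    have h5 : (d : ℝ) * (ε / (d * (s + 1)) * s) = ε * (s / (s + 1)) := by
      field_simp
    rw [h5]
    have h6 : (s : ℝ) / (s + 1) ≤ 1 := by
      rw [div_le_one (by positivity)]
      linarith
    nlinarith
  calc (X.card : ℝ) ≤ box.card * Mr := hcard
    _ ≤ (3 ^ (M + 2) * Y ^ (M + 2)) * (C1 * ((C2 * A ^ (ε' * s)) * (B * Y) ^ ε) * B ^ M *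
        (1 + Y * T ^ ((1 : ℝ) / d))) := by
        refine mul_le_mul hboxc ?_ hMr0 (by positivity)
        rw [hMr]
        refine mul_le_mul_of_nonneg_right ?_ (by positivity)
        refine mul_le_mul_of_nonneg_right ?_ (by positivity)
        exact mul_le_mul_of_nonneg_left h3 hC1.le
    _ = _ := by ring

end Pool.Agent.H41N.VP
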