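import Pool.Agent.H41N.VP.Cells
import Pool.Agent.TH42.NC.Count

set_option autoImplicit false

/-!
The cells for integer vectors.
-/

namespace Pool.Agent.H41N.VP

open Pool.Agent.TH42.NC

/-- smoothness of a form over `R` -/
def SmoothR {n : ℕ} (F : MvPolynomial (Fin n) ℤ) (R : Type) [Field R] : Prop :=
  ∀ z : Fin n → R, z ≠ 0 → MvPolynomial.aeval z F = 0 →
    ∃ i, MvPolynomial.aeval z (MvPolynomial.pderiv i F) ≠ 0

section

variable {𝕜 : Type} [NontriviallyNormedField 𝕜] {n : ℕ}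

lemma mnr_cast {m : ℕ} (y : Fin m → Fin n → ℤ) (K : Fin m → Fin n) :
    ((mnr y K : ℤ) : 𝕜) = mnr (fun a i => (y a i : 𝕜)) K := by
  unfold mnr
  have h := RingHom.map_det (Int.castRingHom 𝕜) (Matrix.of fun a c => y a (K c))
  rw [eq_intCast] at h
  rw [h]
  congr 1

lemma mnr_scale {m : ℕ} (v : Fin m → 𝕜) (y : Fin m → Fin n → 𝕜) (K : Fin m → Fin n) :
    mnr (fun a i => v a * y a i) K = (∏ a, v a) * mnr y K := by
  unfold mnr
  rw [← Matrix.det_mul_column]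
  rfl

variable [CompleteSpace 𝕜] [ProperSpace 𝕜] [CharZero 𝕜]

theorem int_cells {C0 : ℝ} (hC0 : 1 ≤ C0) (hP : Packs 𝕜 C0) (hn : 1 ≤ n)
    (F : MvPolynomial (Fin n) ℤ) (d : ℕ) (hF : F.IsHomogeneous d)
    (hsm : SmoothR F 𝕜) (i0 : Fin n) :
    ∃ C : ℝ, 1 ≤ C ∧ ∀ h : ℝ, 0 < h → h ≤ 1 → ∀ P : Finset (Fin n → ℤ),
      (∀ x ∈ P, x i0 ≠ 0 ∧ (∀ i, ‖(x i : 𝕜)‖ ≤ ‖(x i0 : 𝕜)‖) ∧
        (h < 1 → ‖((MvPolynomial.eval x F : ℤ) : 𝕜)‖ ≤ h ^ 2 * ‖(x i0 : 𝕜)‖ ^ d)) →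
      ∃ (g : (Fin n → ℤ) → ℕ) (k : ℕ), (∀ x ∈ P, g x < k) ∧ (k : ℝ) * h ^ n ≤ C * h ^ 2 ∧
        (∀ m, 1 ≤ m → m ≤ n → ∀ y : Fin m → Fin n → ℤ, (∀ a, y a ∈ P) →
          (∀ a b, g (y a) = g (y b)) → ∀ K : Fin m → Fin n,
            ‖((mnr y K : ℤ) : 𝕜)‖ ≤ C * h ^ (m - 1) * ∏ a, ‖(y a i0 : 𝕜)‖) ∧
        (∀ y : Fin n → Fin n → ℤ, (∀ a, y a ∈ P) →
          (∀ a b, g (y a) = g (y b)) → ∀ K : Fin n → Fin n,
            ‖((mnr y K : ℤ) : 𝕜)‖ ≤ C * h ^ n * ∏ a, ‖(y a i0 : 𝕜)‖) := by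
  classical
  obtain ⟨C, hC, hcells⟩ := cells hC0 hP hn (F.map (Int.castRingHom 𝕜)) d (hF.map _) (by
    intro z hz h0
    rw [eval_map'] at h0
    obtain ⟨i, hi⟩ := hsm z hz h0
    refine ⟨i, ?_⟩
    rwa [MvPolynomial.pderiv_map, eval_map']) i0
  have hfac1 : (1 : ℝ) ≤ n.factorial := by
    have := Nat.factorial_pos n
    exact_mod_cast this
  refine ⟨C + n.factorial, by linarith, ?_⟩
  intro h hh hh1 P hPP
  -- normalised vectors
  set nz : (Fin n → ℤ) → (Fin n → 𝕜) := fun x i => (x i : 𝕜) / (x i0 : 𝕜) with hnz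
  have hx0 : ∀ x ∈ P, (x i0 : 𝕜) ≠ 0 := fun x hx => by
    exact_mod_cast (hPP x hx).1
  have hnz1 : ∀ x ∈ P, ‖nz x‖ ≤ 1 := by
    intro x hx
    rw [pi_norm_le_iff_of_nonneg zero_le_one]
    intro i
    have h1 : 0 < ‖(x i0 : 𝕜)‖ := norm_pos_iff.2 (hx0 x hx)
    simp only [hnz]
    rw [norm_div, div_le_one h1]
    exact (hPP x hx).2.1 i
  have hnz2 : ∀ x ∈ P, nz x i0 = 1 := fun x hx => div_self (hx0 x hx)
  have hmnr : ∀ (m : ℕ) (y : Fin m → Fin n → ℤ), (∀ a, y a ∈ P) → ∀ K : Fin m → Fin n,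
      ‖((mnr y K : ℤ) : 𝕜)‖ = (∏ a, ‖(y a i0 : 𝕜)‖) * ‖mnr (fun a => nz (y a)) K‖ := by
    intro m y hy K
    rw [mnr_cast]
    have h1 : (fun (a : Fin m) (i : Fin n) => (y a i : 𝕜)) =
        fun a i => (y a i0 : 𝕜) * nz (y a) i := by
      funext a i
      simp only [hnz]
      rw [mul_div_cancel₀ _ (hx0 _ (hy a))]
    rw [h1, mnr_scale (fun a => (y a i0 : 𝕜)) (fun a => nz (y a)) K, norm_mul, norm_prod]
  rcases lt_or_eq_of_le hh1 with hlt | heq
  · obtain ⟨c, ⟨W, hW, hWc⟩, hc1, hc2⟩ := hcells h hh hh1 (P.image nz) (by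
      intro z hz
      obtain ⟨x, hx, rfl⟩ := Finset.mem_image.1 hz
      refine ⟨hnz1 x hx, hnz2 x hx, ?_⟩
      rw [eval_map']
      have h1 := aeval_smul_hom F hF (x i0 : 𝕜) (nz x)
      have h2 : (fun i => (x i0 : 𝕜) * nz x i) = fun i => (x i : 𝕜) := by
        funext i
        simp only [hnz]
        rw [mul_div_cancel₀ _ (hx0 x hx)]
      rw [h2, aeval_int] at h1
      have h3 := (hPP x hx).2.2 hlt
      rw [h1, norm_mul, norm_pow, mul_comm (h ^ 2)] at h3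
      have h4 : 0 < ‖(x i0 : 𝕜)‖ ^ d := by
        have := norm_pos_iff.2 (hx0 x hx)
        positivity
      exact le_of_mul_le_mul_left h3 h4)
    -- codes
    set g : (Fin n → ℤ) → ℕ := fun x => if hx : c (nz x) ∈ W then
      (W.equivFin ⟨c (nz x), hx⟩ : ℕ) else 0 with hg
    have hgW : ∀ x ∈ P, ∀ x' ∈ P, g x = g x' → c (nz x) = c (nz x') := by
      intro x hx x' hx' hgg
      have h1 := hW _ (Finset.mem_image_of_mem nz hx)
      have h2 := hW _ (Finset.mem_image_of_mem nz hx')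
      simp only [hg] at hgg
      rw [dif_pos h1, dif_pos h2] at hgg
      have h3 := W.equivFin.injective (Fin.ext hgg)
      exact congrArg Subtype.val h3
    refine ⟨g, W.card, ?_, ?_, ?_, ?_⟩
    · intro x hx
      have h1 := hW _ (Finset.mem_image_of_mem nz hx)
      simp only [hg]
      rw [dif_pos h1]
      exact (W.equivFin _).2
    · refine hWc.trans ?_
      apply mul_le_mul_of_nonneg_right _ (by positivity)
      linarith
    · intro m hm hmn y hy hgy K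
      rw [hmnr m y hy K, mul_comm]
      apply mul_le_mul_of_nonneg_right _ (Finset.prod_nonneg fun _ _ => norm_nonneg _)
      refine (hc1 m hm hmn (fun a => nz (y a)) (fun a => Finset.mem_image_of_mem nz (hy a))
        (fun a b => hgW _ (hy a) _ (hy b) (hgy a b)) K).trans ?_
      apply mul_le_mul_of_nonneg_right _ (by positivity)
      linarith
    · intro y hy hgy K
      rw [hmnr n y hy K, mul_comm]
      apply mul_le_mul_of_nonneg_right _ (Finset.prod_nonneg fun _ _ => norm_nonneg _)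
      refine (hc2 (fun a => nz (y a)) (fun a => Finset.mem_image_of_mem nz (hy a))
        (fun a b => hgW _ (hy a) _ (hy b) (hgy a b)) K).trans ?_
      apply mul_le_mul_of_nonneg_right _ (by positivity)
      linarith
  · subst heq
    have hbd : ∀ (m : ℕ), m ≤ n → ∀ (y : Fin m → Fin n → ℤ), (∀ a, y a ∈ P) →
        ∀ K : Fin m → Fin n, ‖mnr (fun a => nz (y a)) K‖ ≤ n.factorial := by
      intro m hmn y hy K
      unfold mnr
      refine (norm_det_le _ (fun _ => 1) (fun _ => 1) ?_).trans ?_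
      · intro a b
        rw [one_mul]
        exact (norm_le_pi_norm (nz (y a)) (K b)).trans (hnz1 _ (hy a))
      · simp only [Finset.prod_const_one, mul_one]
        exact_mod_cast Nat.factorial_le hmn
    refine ⟨fun _ => 0, 1, fun _ _ => Nat.one_pos, ?_, ?_, ?_⟩
    · simp only [Nat.cast_one, one_pow, mul_one]
      linarith
    · intro m hm hmn y hy _ K
      rw [hmnr m y hy K, mul_comm, one_pow, mul_one]
      apply mul_le_mul_of_nonneg_right _ (Finset.prod_nonneg fun _ _ => norm_nonneg _)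
      have := hbd m hmn y hy K
      linarith
    · intro y hy _ K
      rw [hmnr n y hy K, mul_comm, one_pow, mul_one]
      apply mul_le_mul_of_nonneg_right _ (Finset.prod_nonneg fun _ _ => norm_nonneg _)
      have := hbd n le_rfl y hy K
      linarith

end

/-- the absolute values of `ℚ` at the real place and the primes in `S`, on integers -/
noncomputable def vabs {S : Finset ℕ} : Option {p // p ∈ S} → ℤ → ℝ
  | none, z => |(z : ℝ)|
  | some p, z => (padicNorm p.1 (z : ℚ) : ℝ)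

/-- the statement of `int_cells` at one place -/
def CellsV {S : Finset ℕ} (v : Option {p // p ∈ S}) {n : ℕ} (F : MvPolynomial (Fin n) ℤ) (d : ℕ)
    (i0 : Fin n) (C : ℝ) : Prop :=
  ∀ (h b : ℝ), 0 < h → h ≤ 1 → 0 ≤ b → ∀ P : Finset (Fin n → ℤ),
    (∀ x ∈ P, x i0 ≠ 0 ∧ (∀ i, vabs v (x i) ≤ vabs v (x i0)) ∧ vabs v (x i0) ≤ b ∧
      (h < 1 → vabs v (MvPolynomial.eval x F) ≤ h ^ 2 * vabs v (x i0) ^ d)) →
    ∃ (g : (Fin n → ℤ) → ℕ) (k : ℕ), (∀ x ∈ P, g x < k) ∧ (k : ℝ) * h ^ n ≤ C * h ^ 2 ∧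
      (∀ m, 1 ≤ m → m ≤ n → ∀ y : Fin m → Fin n → ℤ, (∀ a, y a ∈ P) →
        (∀ a b, g (y a) = g (y b)) → ∀ K : Fin m → Fin n,
          vabs v (mnr y K) ≤ C * h ^ (m - 1) * b ^ m) ∧
      (∀ y : Fin n → Fin n → ℤ, (∀ a, y a ∈ P) →
        (∀ a b, g (y a) = g (y b)) → ∀ K : Fin n → Fin n,
          vabs v (mnr y K) ≤ C * h ^ n * b ^ n)

lemma CellsV.mono {S : Finset ℕ} {v : Option {p // p ∈ S}} {n : ℕ} {F : MvPolynomial (Fin n) ℤ}
    {d : ℕ} {i0 : Fin n} {C C' : ℝ} (h : CellsV v F d i0 C) (hC : C ≤ C') :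
    CellsV v F d i0 C' := by
  intro t b ht ht1 hb P hP
  obtain ⟨g, k, h1, h2, h3, h4⟩ := h t b ht ht1 hb P hP
  refine ⟨g, k, h1, ?_, ?_, ?_⟩
  · exact h2.trans (mul_le_mul_of_nonneg_right hC (by positivity))
  · intro m hm hmn y hy hgy K
    refine (h3 m hm hmn y hy hgy K).trans ?_
    apply mul_le_mul_of_nonneg_right _ (by positivity)
    exact mul_le_mul_of_nonneg_right hC (by positivity)
  · intro y hy hgy K
    refine (h4 y hy hgy K).trans ?_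
    apply mul_le_mul_of_nonneg_right _ (by positivity)
    exact mul_le_mul_of_nonneg_right hC (by positivity)

lemma cellsV_of {S : Finset ℕ} (v : Option {p // p ∈ S}) {n : ℕ} (hn : 1 ≤ n)
    (F : MvPolynomial (Fin n) ℤ) (d : ℕ) (hF : F.IsHomogeneous d) (i0 : Fin n)
    {𝕜 : Type} [NontriviallyNormedField 𝕜] [CompleteSpace 𝕜] [ProperSpace 𝕜] [CharZero 𝕜]
    (hv : ∀ z : ℤ, vabs v z = ‖(z : 𝕜)‖) {C0 : ℝ} (hC0 : 1 ≤ C0) (hP : Packs 𝕜 C0)
    (hsm : SmoothR F 𝕜) : ∃ C : ℝ, 1 ≤ C ∧ CellsV v F d i0 C := by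
  obtain ⟨C, hC, hc⟩ := int_cells hC0 hP hn F d hF hsm i0
  refine ⟨C, hC, ?_⟩
  intro h b hh hh1 hb P hPP
  obtain ⟨g, k, h1, h2, h3, h4⟩ := hc h hh hh1 P (by
    intro x hx
    obtain ⟨e1, e2, _, e4⟩ := hPP x hx
    simp only [hv] at e2 e4
    exact ⟨e1, e2, e4⟩)
  have hprod : ∀ (m : ℕ) (y : Fin m → Fin n → ℤ), (∀ a, y a ∈ P) →
      ∏ a, ‖(y a i0 : 𝕜)‖ ≤ b ^ m := by
    intro m y hy
    have e : b ^ m = ∏ _a : Fin m, b := by
      rw [Finset.prod_const, Finset.card_univ, Fintype.card_fin]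
    rw [e]
    apply Finset.prod_le_prod (fun _ _ => norm_nonneg _)
    intro a _
    rw [← hv]
    exact (hPP _ (hy a)).2.2.1
  refine ⟨g, k, h1, h2, ?_, ?_⟩
  · intro m hm hmn y hy hgy K
    rw [hv]
    refine (h3 m hm hmn y hy hgy K).trans ?_
    exact mul_le_mul_of_nonneg_left (hprod m y hy) (by positivity)
  · intro y hy hgy K
    rw [hv]
    refine (h4 y hy hgy K).trans ?_
    exact mul_le_mul_of_nonneg_left (hprod n y hy) (by positivity)

/-- smoothness at the place `v` -/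
def SmoothV {S : Finset ℕ} (hS : ∀ p ∈ S, p.Prime) {n : ℕ} (F : MvPolynomial (Fin n) ℤ) :
    Option {p // p ∈ S} → Prop
  | none => SmoothR F ℝ
  | some p => haveI : Fact p.1.Prime := ⟨hS p.1 p.2⟩; SmoothR F ℚ_[p.1]

lemma cellsV_exists {S : Finset ℕ} (hS : ∀ p ∈ S, p.Prime) (v : Option {p // p ∈ S}) {n : ℕ}
    (hn : 1 ≤ n) (F : MvPolynomial (Fin n) ℤ) (d : ℕ) (hF : F.IsHomogeneous d) (i0 : Fin n)
    (hsm : SmoothV hS F v) : ∃ C : ℝ, 1 ≤ C ∧ CellsV v F d i0 C := by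
  cases v with
  | none =>
    exact cellsV_of none hn F d hF i0 (𝕜 := ℝ) (fun z => rfl) (C0 := 5) (by norm_num)
      packs_real hsm
  | some p =>
    have : Fact p.1.Prime := ⟨hS p.1 p.2⟩
    have hp1 : (1 : ℝ) < p.1 := by exact_mod_cast (hS p.1 p.2).one_lt
    refine cellsV_of (some p) hn F d hF i0 (𝕜 := ℚ_[p.1]) (fun z => ?_) (C0 := p.1) hp1.le
      (packs_padic p.1) hsm
    show (padicNorm p.1 (z : ℚ) : ℝ) = _
    rw [← Padic.eq_padicNorm]
    push_cast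
    rfl

end Pool.Agent.H41N.VP
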