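import Pool.Agent.H951R3.W.W1

set_option autoImplicit false

/-!
Counting the elements of a finite set of integer vectors by determinants.
-/

namespace Pool.Agent.H41N.VP

open Module

/-- the values of a multilinear map are in a subgroup if they are for the vectors of a generating
set -/
lemma multilin_mem {M : Type*} [AddCommGroup M] {r : ℕ} (s : Set M)
    (hs : Submodule.span ℤ s = ⊤) (f : MultilinearMap ℤ (fun _ : Fin r => M) ℤ)
    (T : Submodule ℤ ℤ) (h : ∀ y : Fin r → M, (∀ i, y i ∈ s) → f y ∈ T) : ∀ y, f y ∈ T := by
  classical
  have key : ∀ (t : Finset (Fin r)) (y : Fin r → M), (∀ i, i ∉ t → y i ∈ s) → f y ∈ T := by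
    intro t
    induction t using Finset.induction_on with
    | empty =>
      intro y hy
      exact h y fun i => hy i (Finset.notMem_empty i)
    | insert a t ha ih =>
      intro y hy
      have h1 : ∀ m : M, f (Function.update y a m) ∈ T := by
        intro m
        have hm : m ∈ Submodule.span ℤ s := by rw [hs]; exact Submodule.mem_top
        induction hm using Submodule.span_induction with
        | mem m hm =>
          apply ih
          intro i hi
          by_cases hia : i = a
          · subst hia
            rw [Function.update_self]
            exact hm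
          · rw [Function.update_of_ne hia]
            apply hy
            simp only [Finset.mem_insert, not_or]
            exact ⟨hia, hi⟩
        | zero =>
          rw [f.map_update_zero]
          exact T.zero_mem
        | add x z _ _ hx hz =>
          rw [f.map_update_add]
          exact T.add_mem hx hz
        | smul c x _ hx =>
          rw [f.map_update_smul]
          exact T.smul_mem c hx
      have h2 := h1 (y a)
      rwa [Function.update_eq_self] at h2
  intro y
  exact key Finset.univ y fun i hi => absurd (Finset.mem_univ i) hi

section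

variable {M : Type*} [AddCommGroup M] {r : ℕ} (b : Basis (Fin r) ℤ M)

/-- Cramer's rule -/
lemma cramer_rule (u : Fin r → M) (y : M) :
    b.det u • y = ∑ i, b.det (Function.update u i y) • u i := by
  classical
  apply b.repr.injective
  ext j
  rw [map_smul, map_sum, Finsupp.smul_apply, Finsupp.finsetSum_apply]
  have h1 := congrFun (Matrix.mulVec_cramer (b.toMatrix u) (b.repr y)) j
  rw [Pi.smul_apply, ← Basis.det_apply] at h1
  rw [← h1, Matrix.mulVec, dotProduct]
  refine Finset.sum_congr rfl fun i _ => ?_
  rw [map_smul, Finsupp.smul_apply, Matrix.cramer_apply, Basis.det_apply, Basis.toMatrix_update,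
    smul_eq_mul, mul_comm, Basis.toMatrix_apply]

/-- The number of the elements of a set is at most `3 ^ r` times the largest determinant. -/
lemma card_le_det (P : Finset M) (u : Fin r → M) (hu0 : b.det u ≠ 0)
    (hmax : ∀ y ∈ P, ∀ i, |b.det (Function.update u i y)| ≤ |b.det u|) :
    (P.card : ℤ) ≤ 3 ^ r * |b.det u| := by
  classical
  have hfree : Module.Free ℤ M := Module.Free.of_basis b
  have hfin : Module.Finite ℤ M := Module.Finite.of_basis b
  have hupd : ∀ (c : Fin r → ℤ) (i : Fin r),
      b.det (Function.update u i (∑ j, c j • u j)) = c i * b.det u := by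
    intro c i
    rw [Basis.det_apply, Basis.toMatrix_update, Basis.det_apply]
    have h1 : ((b.repr (∑ j, c j • u j) : Fin r →₀ ℤ) : Fin r → ℤ) =
        fun k => ∑ j, c j • (b.toMatrix u) k j := by
      funext k
      rw [map_sum, Finsupp.finsetSum_apply]
      refine Finset.sum_congr rfl fun j _ => ?_
      rw [map_smul, Finsupp.smul_apply, Basis.toMatrix_apply]
    rw [h1, Matrix.det_updateCol_sum, smul_eq_mul]
  have hli : LinearIndependent ℤ u := by
    rw [Fintype.linearIndependent_iff]
    intro c hc i
    have h1 := hupd c i
    rw [hc] at h1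
    have h2 : b.det (Function.update u i 0) = 0 := (b.det).toMultilinearMap.map_update_zero u i
    rw [h2] at h1
    rcases mul_eq_zero.1 h1.symm with h | h
    · exact h
    · exact absurd h hu0
  set U : Submodule ℤ M := Submodule.span ℤ (Set.range u) with hU
  let bU : Basis (Fin r) ℤ U := Basis.span hli
  have hbU : ((↑) : U → M) ∘ bU = u := by
    funext i
    exact congrArg Subtype.val (Basis.span_apply hli i)
  have hidx := Submodule.natAbs_det_basis_change b U bU
  rw [hbU] at hidx
  have hcard0 : Nat.card (M ⧸ U) ≠ 0 := by
    rw [← hidx]
    exact Int.natAbs_ne_zero.2 hu0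
  have : Finite (M ⧸ U) := Nat.finite_of_card_ne_zero hcard0
  have : Fintype (M ⧸ U) := Fintype.ofFinite _
  set D : ℤ := b.det u with hD
  have hD0 : (0 : ℚ) < |(D : ℚ)| := abs_pos.2 (by exact_mod_cast hu0)
  have hDq : (D : ℚ) ≠ 0 := by exact_mod_cast hu0
  let φ : M → (M ⧸ U) × (Fin r → ℤ) := fun y =>
    (Submodule.Quotient.mk y, fun i => ⌊((b.det (Function.update u i y) : ℤ) : ℚ) / D⌋)
  have hinj : P.card ≤ ((Finset.univ : Finset (M ⧸ U)) ×ˢ
      Fintype.piFinset (fun _ : Fin r => Finset.Icc (-1 : ℤ) 1)).card := by
    apply Finset.card_le_card_of_injOn φ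
    · intro y hy
      simp only [Finset.coe_product, Set.mem_prod, Finset.mem_coe, Finset.mem_univ, true_and,
        Fintype.mem_piFinset, Finset.mem_Icc, φ]
      intro i
      have h1 : |((b.det (Function.update u i y) : ℤ) : ℚ) / D| ≤ 1 := by
        rw [abs_div, div_le_one hD0]
        exact_mod_cast hmax y hy i
      have h2 := abs_le.1 h1
      constructor
      · rw [Int.le_floor]
        push_cast
        exact h2.1
      · have h3 : ((⌊((b.det (Function.update u i y) : ℤ) : ℚ) / D⌋ : ℤ) : ℚ) ≤ 1 :=
          (Int.floor_le _).trans h2.2
        exact_mod_cast h3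
    · intro y hy y' hy' heq
      have h1 : (Submodule.Quotient.mk y : M ⧸ U) = Submodule.Quotient.mk y' :=
        congrArg Prod.fst heq
      have h2 : ∀ i, ⌊((b.det (Function.update u i y) : ℤ) : ℚ) / D⌋ =
          ⌊((b.det (Function.update u i y') : ℤ) : ℚ) / D⌋ :=
        fun i => congrFun (congrArg Prod.snd heq) i
      rw [Submodule.Quotient.eq] at h1
      rw [hU, Submodule.mem_span_range_iff_exists_fun] at h1
      obtain ⟨c, hc⟩ := h1
      have h3 : ∀ i, b.det (Function.update u i y) - b.det (Function.update u i y') = c i * D := by
        intro i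
        rw [← hupd c i, hc]
        have h4 : y = (y - y') + y' := by abel
        have h5 : b.det (Function.update u i y) = b.det (Function.update u i (y - y')) +
            b.det (Function.update u i y') := by
          conv_lhs => rw [h4]
          exact (b.det).toMultilinearMap.map_update_add u i (y - y') y'
        rw [h5]
        ring
      have h6 : ∀ i, c i = 0 := by
        intro i
        have h7 : ((b.det (Function.update u i y) : ℤ) : ℚ) / D -
            ((b.det (Function.update u i y') : ℤ) : ℚ) / D = c i := by
          rw [← sub_div, div_eq_iff hDq]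
          exact_mod_cast h3 i
        have h8 := Int.floor_le (((b.det (Function.update u i y) : ℤ) : ℚ) / D)
        have h9 := Int.lt_floor_add_one (((b.det (Function.update u i y) : ℤ) : ℚ) / D)
        have h10 := Int.floor_le (((b.det (Function.update u i y') : ℤ) : ℚ) / D)
        have h11 := Int.lt_floor_add_one (((b.det (Function.update u i y') : ℤ) : ℚ) / D)
        rw [h2 i] at h8 h9
        have h12 : ((c i : ℤ) : ℚ) < 1 := by linarith
        have h13 : (-1 : ℚ) < (c i : ℤ) := by linarith
        have h14 : c i < 1 := by exact_mod_cast h12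
        have h15 : -1 < c i := by exact_mod_cast h13
        omega
      rw [Finset.sum_eq_zero (fun i _ => by rw [h6 i, zero_smul])] at hc
      exact (sub_eq_zero.1 hc.symm)
  rw [Finset.card_product, Fintype.card_piFinset, Finset.card_univ, ← Nat.card_eq_fintype_card,
    ← hidx] at hinj
  simp only [Int.card_Icc, Finset.prod_const, Finset.card_univ, Fintype.card_fin] at hinj
  have h1 : P.card ≤ D.natAbs * 3 ^ r := by simpa using hinj
  have h2 : (P.card : ℤ) ≤ (D.natAbs : ℤ) * 3 ^ r := by exact_mod_cast h1
  rw [Int.natCast_natAbs] at h2
  linarith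

end

end Pool.Agent.H41N.VP
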