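import Pool.Agent.H41N.VP.Lat
import Pool.Agent.TH42.NC.Loc

set_option autoImplicit false

/-!
A finite set of integer vectors with small minors is small or lies in a hyperplane of small height.
-/

namespace Pool.Agent.H41N.VP

open Module

/-- the minor of the vectors `y` with the columns `K` -/
def mnr {R : Type*} [CommRing R] {n k : ℕ} (y : Fin k → Fin n → R) (K : Fin k → Fin n) : R :=
  (Matrix.of fun a c => y a (K c)).det

/-- the minor as an alternating map on a module of integer vectors -/
def mnrA {n k : ℕ} (M : Submodule ℤ (Fin n → ℤ)) (K : Fin k → Fin n) : M [⋀^Fin k]→ₗ[ℤ] ℤ :=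
  (Matrix.detRowAlternating (n := Fin k) (R := ℤ)).compLinearMap
    ((LinearMap.funLeft ℤ ℤ K).comp M.subtype)

lemma mnrA_apply {n k : ℕ} (M : Submodule ℤ (Fin n → ℤ)) (K : Fin k → Fin n) (y : Fin k → M) :
    mnrA M K y = mnr (fun a => (y a).1) K := rfl

/-- integers of small `p`-adic absolute value -/
def padT (p : ℕ) (hp : p.Prime) (R : ℝ) (hR : 0 ≤ R) : Submodule ℤ ℤ where
  carrier := {z | (padicNorm p (z : ℚ) : ℝ) ≤ R}
  add_mem' := by
    intro a b ha hb
    have : Fact p.Prime := ⟨hp⟩
    simp only [Set.mem_ofPred_eq] at ha hb ⊢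
    push_cast
    have h1 : padicNorm p ((a : ℚ) + b) ≤ max (padicNorm p (a : ℚ)) (padicNorm p (b : ℚ)) :=
      padicNorm.nonarchimedean
    have h2 : (padicNorm p ((a : ℚ) + b) : ℝ) ≤
        max (padicNorm p (a : ℚ) : ℝ) (padicNorm p (b : ℚ) : ℝ) := by exact_mod_cast h1
    exact h2.trans (max_le ha hb)
  zero_mem' := by
    simpa using hR
  smul_mem' := by
    intro c a ha
    have : Fact p.Prime := ⟨hp⟩
    simp only [Set.mem_ofPred_eq, smul_eq_mul] at ha ⊢
    push_cast
    rw [padicNorm.mul]
    push_cast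
    have h1 : padicNorm p (c : ℚ) ≤ 1 := padicNorm.of_int c
    have h2 : (padicNorm p (c : ℚ) : ℝ) ≤ 1 := by exact_mod_cast h1
    have h3 : (0 : ℝ) ≤ (padicNorm p (a : ℚ) : ℝ) := by exact_mod_cast padicNorm.nonneg _
    have h4 : (0 : ℝ) ≤ (padicNorm p (c : ℚ) : ℝ) := by exact_mod_cast padicNorm.nonneg _
    calc (padicNorm p (c : ℚ) : ℝ) * (padicNorm p (a : ℚ) : ℝ) ≤ 1 * (padicNorm p (a : ℚ) : ℝ) :=
          mul_le_mul_of_nonneg_right h2 h3
      _ ≤ R := by rw [one_mul]; exact ha

lemma mem_padT {p : ℕ} {hp : p.Prime} {R : ℝ} {hR : 0 ≤ R} {z : ℤ} :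
    z ∈ padT p hp R hR ↔ (padicNorm p (z : ℚ) : ℝ) ≤ R := Iff.rfl

/-- a basis of a module of integer vectors has a nonzero maximal minor -/
lemma exists_minor {n r : ℕ} (M : Submodule ℤ (Fin n → ℤ)) (b : Basis (Fin r) ℤ M) :
    ∃ K : Fin r → Fin n, Function.Injective K ∧ mnr (fun a => (b a).1) K ≠ 0 := by
  classical
  let cast : (Fin n → ℤ) →ₗ[ℤ] (Fin n → ℚ) :=
    { toFun := fun x i => (x i : ℚ)
      map_add' := by intro x y; ext i; simp
      map_smul' := by intro c x; ext i; simp }
  have hinj : Function.Injective (cast.comp M.subtype) := by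
    intro x y h
    ext i
    have h1 : ((x.1 i : ℤ) : ℚ) = (y.1 i : ℤ) := congrFun h i
    exact_mod_cast h1
  have hli : LinearIndependent ℤ (fun a => cast ((b a : M) : Fin n → ℤ)) :=
    b.linearIndependent.map' (cast.comp M.subtype) (LinearMap.ker_eq_bot.2 hinj)
  rw [LinearIndependent.iff_fractionRing ℤ ℚ] at hli
  obtain ⟨I, hI, hI2⟩ := Pool.Agent.TH42.NC.exists_coords
    (fun i => fun a : Fin r => (((b a).1 i : ℤ) : ℚ)) hli
  rw [Fintype.card_fin] at hI
  refine ⟨fun c => I.orderEmbOfFin hI c, (I.orderEmbOfFin hI).injective, ?_⟩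
  intro h0
  have h1 : (Matrix.of fun a c : Fin r => (((b a).1 (I.orderEmbOfFin hI c) : ℤ) : ℚ)).det = 0 := by
    have h2 : (Matrix.of fun a c : Fin r => (((b a).1 (I.orderEmbOfFin hI c) : ℤ) : ℚ)) =
        (Int.castRingHom ℚ).mapMatrix
          (Matrix.of fun a c : Fin r => (b a).1 (I.orderEmbOfFin hI c)) := by
      ext a c
      simp
    rw [h2, ← RingHom.map_det]
    unfold mnr at h0
    rw [h0, map_zero]
  obtain ⟨v, hv0, hv⟩ := Matrix.exists_mulVec_eq_zero_iff.2 h1
  apply hv0
  set y : Fin n → ℚ := fun i => ∑ c, if I.orderEmbOfFin hI c = i then v c else 0 with hy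
  have hyK : ∀ c, y (I.orderEmbOfFin hI c) = v c := by
    intro c
    rw [hy]
    simp only
    rw [Finset.sum_eq_single c]
    · simp
    · intro d _ hd
      rw [if_neg]
      intro h
      exact hd ((I.orderEmbOfFin hI).injective h)
    · simp
  have hy0 : y = 0 := by
    apply hI2 y
    · intro i hi
      rw [hy]
      apply Finset.sum_eq_zero
      intro c _
      rw [if_neg]
      rintro rfl
      exact hi (Finset.orderEmbOfFin_mem I hI c)
    · intro a
      have h3 := congrFun hv a
      rw [Matrix.mulVec, dotProduct, Pi.zero_apply] at h3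
      rw [← h3]
      have h4 : ∀ i, (((b a).1 i : ℤ) : ℚ) * y i =
          ∑ c, if I.orderEmbOfFin hI c = i then (((b a).1 i : ℤ) : ℚ) * v c else 0 := by
        intro i
        rw [hy]
        simp only
        rw [Finset.mul_sum]
        refine Finset.sum_congr rfl fun c _ => ?_
        rw [mul_ite, mul_zero]
      rw [Finset.sum_congr rfl fun i _ => h4 i, Finset.sum_comm]
      refine Finset.sum_congr rfl fun c _ => ?_
      rw [Finset.sum_ite_eq]
      simp
  funext c
  rw [← hyK c, hy0]
  rfl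

/-- the determinant with a row `x` on top of the vectors `y`, with the columns `K` -/
def bord {n r : ℕ} (x : Fin n → ℤ) (y : Fin r → Fin n → ℤ) (K : Fin (r + 1) → Fin n) : ℤ :=
  mnr (Fin.cons x y : Fin (r + 1) → Fin n → ℤ) K

lemma bord_expand {n r : ℕ} (x : Fin n → ℤ) (y : Fin r → Fin n → ℤ) (K : Fin (r + 1) → Fin n) :
    bord x y K = ∑ j : Fin (r + 1), (-1) ^ (j : ℕ) * x (K j) * mnr y (K ∘ j.succAbove) := by
  unfold bord mnr
  rw [Matrix.det_succ_row_zero]
  refine Finset.sum_congr rfl fun j _ => ?_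
  congr 1

lemma bord_eq_mul {n r : ℕ} (M : Submodule ℤ (Fin n → ℤ)) (b : Basis (Fin r) ℤ M)
    (x : Fin n → ℤ) (K : Fin (r + 1) → Fin n) (u : Fin r → M) :
    bord x (fun a => (u a).1) K = b.det u * bord x (fun a => (b a).1) K := by
  rw [bord_expand, bord_expand, Finset.mul_sum]
  refine Finset.sum_congr rfl fun j _ => ?_
  have h := congrArg (fun f => f u) ((mnrA M (K ∘ j.succAbove)).eq_smul_basis_det b)
  simp only [AlternatingMap.smul_apply, smul_eq_mul, mnrA_apply] at h
  rw [h]
  ring

/-- **Main lemma.** -/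
theorem lattice {n : ℕ} (S : Finset ℕ) (hS : ∀ p ∈ S, p.Prime) (P : Finset (Fin n → ℤ))
    (hP : ∃ x ∈ P, x ≠ 0) (X : ℕ → ℝ) (R : ℕ → ℕ → ℝ) (hR : ∀ p ∈ S, ∀ k, 0 ≤ R p k)
    (hinf : ∀ k, 1 ≤ k → k ≤ n → ∀ (y : Fin k → Fin n → ℤ), (∀ a, y a ∈ P) →
      ∀ K : Fin k → Fin n, |((mnr y K : ℤ) : ℝ)| ≤ X k)
    (hpad : ∀ p ∈ S, ∀ k, 1 ≤ k → k ≤ n → ∀ (y : Fin k → Fin n → ℤ), (∀ a, y a ∈ P) →
      ∀ K : Fin k → Fin n, (padicNorm p ((mnr y K : ℤ) : ℚ) : ℝ) ≤ R p k) :
    (P.card : ℝ) ≤ 3 ^ n * (X n * ∏ p ∈ S, R p n) ∨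
    ∃ k, 1 ≤ k ∧ k < n ∧ ∃ c : Fin n → ℤ, c ≠ 0 ∧ (∀ y ∈ P, ∑ i, c i * y i = 0) ∧
      ∀ i, |(c i : ℝ)| * P.card ≤ 3 ^ k * (X k * ∏ p ∈ S, R p k) := by
  classical
  set M : Submodule ℤ (Fin n → ℤ) := Submodule.span ℤ (P : Set (Fin n → ℤ)) with hM
  obtain ⟨r, ⟨b⟩⟩ := Submodule.nonempty_basis_of_pid (Pi.basisFun ℤ (Fin n)) M
  have hfr : Module.finrank ℤ M = r := by
    rw [Module.finrank_eq_card_basis b, Fintype.card_fin]
  have hrn : r ≤ n := by
    rw [← hfr]
    have := Submodule.finrank_le M
    simpa using this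
  have hr1 : 1 ≤ r := by
    by_contra h
    have hr0 : r = 0 := by omega
    subst hr0
    obtain ⟨x, hx, hx0⟩ := hP
    apply hx0
    have h1 : Subsingleton M := b.repr.toEquiv.subsingleton
    have h2 : (⟨x, Submodule.subset_span hx⟩ : M) = 0 := Subsingleton.elim _ _
    exact congrArg Subtype.val h2
  -- the set as a subset of the module
  set Q : Finset M := P.attach.image (fun x => (⟨x.1, Submodule.subset_span x.2⟩ : M)) with hQ
  have hQc : Q.card = P.card := by
    rw [hQ, Finset.card_image_of_injective, Finset.card_attach]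
    intro x y h
    have h1 : x.1 = y.1 := by
      have h2 := congrArg Subtype.val h
      exact h2
    exact Subtype.ext h1
  have hQP : ∀ y ∈ Q, y.1 ∈ P := by
    intro y hy
    obtain ⟨x, _, rfl⟩ := Finset.mem_image.1 hy
    exact x.2
  have hQset : (Q : Set M) = ((↑) : M → Fin n → ℤ) ⁻¹' (P : Set (Fin n → ℤ)) := by
    ext y
    constructor
    · intro hy
      exact hQP y hy
    · intro hy
      exact Finset.mem_image.2 ⟨⟨y.1, hy⟩, Finset.mem_attach _ _, rfl⟩
  have hspan : Submodule.span ℤ (Q : Set M) = ⊤ := by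
    rw [hQset]
    exact Submodule.span_span_coe_preimage
  have hQne : Q.Nonempty := by
    obtain ⟨x, hx, _⟩ := hP
    rw [← Finset.card_pos, hQc]
    exact Finset.card_pos.2 ⟨x, hx⟩
  have hPpos : (0 : ℝ) < P.card := by
    rw [← hQc]
    exact_mod_cast Finset.card_pos.2 hQne
  -- the largest determinant
  obtain ⟨u, huQ, humax⟩ := Finset.exists_max_image (Fintype.piFinset (fun _ : Fin r => Q))
    (fun u => |b.det u|) (by
      obtain ⟨q, hq⟩ := hQne
      exact ⟨fun _ => q, Fintype.mem_piFinset.2 fun _ => hq⟩)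
  have huQ' : ∀ a, u a ∈ Q := Fintype.mem_piFinset.1 huQ
  have hu0 : b.det u ≠ 0 := by
    intro h0
    have h1 := multilin_mem (Q : Set M) hspan b.det.toMultilinearMap ⊥ (by
      intro y hy
      rw [Submodule.mem_bot]
      have h2 := humax y (Fintype.mem_piFinset.2 hy)
      rw [h0, abs_zero] at h2
      exact abs_eq_zero.1 (le_antisymm h2 (abs_nonneg _))) b
    rw [Submodule.mem_bot] at h1
    have h3 : b.det b = 1 := Basis.det_self b
    have h4 : b.det b = 0 := h1
    rw [h3] at h4
    exact one_ne_zero h4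
  have hcard := card_le_det b Q u hu0 (by
    intro y hy i
    apply humax
    rw [Fintype.mem_piFinset]
    intro a
    by_cases h : a = i
    · subst h
      rw [Function.update_self]
      exact hy
    · rw [Function.update_of_ne h]
      exact huQ' a)
  rw [hQc] at hcard
  have hcardR : (P.card : ℝ) ≤ 3 ^ r * |((b.det u : ℤ) : ℝ)| := by exact_mod_cast hcard
  have hdpos : (0 : ℝ) < |((b.det u : ℤ) : ℝ)| := abs_pos.2 (by exact_mod_cast hu0)
  -- minors of tuples from the module
  have hpb : ∀ p (hp : p ∈ S), ∀ (f : M [⋀^Fin r]→ₗ[ℤ] ℤ),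
      (∀ y : Fin r → M, (∀ a, y a ∈ Q) → (padicNorm p ((f y : ℤ) : ℚ) : ℝ) ≤ R p r) →
      (padicNorm p ((f b : ℤ) : ℚ) : ℝ) ≤ R p r := by
    intro p hp f hf
    have h1 := multilin_mem (Q : Set M) hspan f.toMultilinearMap
      (padT p (hS p hp) (R p r) (hR p hp r)) (fun y hy => hf y hy) b
    exact h1
  rcases Nat.lt_or_ge r n with hlt | hge
  · right
    refine ⟨r, hr1, hlt, ?_⟩
    obtain ⟨K0, hK0inj, hK0⟩ := exists_minor M b
    obtain ⟨j, hj⟩ : ∃ j : Fin n, j ∉ Set.range K0 := by
      by_contra h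
      push Not at h
      have h1 : Function.Surjective K0 := h
      have h2 := Fintype.card_le_of_surjective K0 h1
      simp only [Fintype.card_fin] at h2
      omega
    set K : Fin (r + 1) → Fin n := Fin.cons j K0 with hK
    set c' : Fin n → ℤ := fun m => bord (Pi.single m 1) (fun a => (b a).1) K with hc'
    have hKs : K ∘ (0 : Fin (r + 1)).succAbove = K0 := by
      funext i
      simp [hK]
    have hc'j : c' j ≠ 0 := by
      have h1 : c' j = mnr (fun a => (b a).1) K0 := by
        simp only [hc']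
        rw [bord_expand, Fin.sum_univ_succ, hKs]
        rw [Finset.sum_eq_zero]
        · simp [hK]
        · intro i _
          have h2 : K i.succ ≠ j := by
            simp only [hK, Fin.cons_succ]
            intro h
            exact hj ⟨i, h⟩
          rw [Pi.single_eq_of_ne h2]
          ring
      rw [h1]
      exact hK0
    -- the linear form
    have hform : ∀ y : Fin n → ℤ, ∑ m, c' m * y m = bord y (fun a => (b a).1) K := by
      intro y
      simp only [hc']
      rw [bord_expand]
      simp only [bord_expand, Finset.sum_mul]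
      rw [Finset.sum_comm]
      refine Finset.sum_congr rfl fun i _ => ?_
      rw [Finset.sum_eq_single (K i)]
      · rw [Pi.single_eq_same]
        ring
      · intro m _ hm
        rw [Pi.single_eq_of_ne (Ne.symm hm)]
        ring
      · simp
    have hvan : ∀ y ∈ P, ∑ m, c' m * y m = 0 := by
      intro y hy
      rw [hform]
      -- `y` is a combination of the basis
      set ym : M := ⟨y, Submodule.subset_span hy⟩ with hym
      have h1 : y = ∑ a, b.repr ym a • (b a).1 := by
        have h2 := congrArg Subtype.val (b.sum_repr ym)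
        rw [AddSubmonoidClass.coe_finsetSum] at h2
        rw [← show ym.1 = y from rfl, ← h2]
        rfl
      unfold bord mnr
      rw [← Matrix.exists_vecMul_eq_zero_iff]
      refine ⟨Fin.cons (-1) (fun a => b.repr ym a), ?_, ?_⟩
      · intro h
        have := congrFun h 0
        simp at this
      · funext k
        rw [Matrix.vecMul, dotProduct, Fin.sum_univ_succ]
        simp only [Fin.cons_zero, Fin.cons_succ, Matrix.of_apply, Pi.zero_apply]
        have h3 := congrFun h1 (K k)
        rw [Finset.sum_apply] at h3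
        rw [h3]
        simp only [Pi.smul_apply, smul_eq_mul]
        ring
    -- sizes
    have hsz : ∀ (y : Fin r → Fin n → ℤ) (m : Fin n), (∃ i : Fin (r + 1),
        bord (Pi.single m 1) y K = (-1) ^ (i : ℕ) * mnr y (K ∘ i.succAbove)) ∨
        bord (Pi.single m 1) y K = 0 := by
      intro y m
      by_cases hm : ∃ i, K i = m
      · left
        obtain ⟨i, hi⟩ := hm
        refine ⟨i, ?_⟩
        rw [bord_expand, Finset.sum_eq_single i]
        · rw [hi, Pi.single_eq_same, mul_one]
        · intro i' _ hne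
          have h2 : K i' ≠ m := by
            intro h
            apply hne
            have hKinj : Function.Injective K := by
              rw [hK, Fin.cons_injective_iff]
              exact ⟨hj, hK0inj⟩
            exact hKinj (h.trans hi.symm)
          rw [Pi.single_eq_of_ne h2]
          ring
        · simp
      · right
        push Not at hm
        rw [bord_expand]
        refine Finset.sum_eq_zero fun i _ => ?_
        rw [Pi.single_eq_of_ne (hm i)]
        ring
    have hX0 : 0 ≤ X r := by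
      have h1 := hinf r hr1 hrn (fun a => (u a).1) (fun a => hQP _ (huQ' a)) (K ∘ Fin.succ)
      exact (abs_nonneg _).trans h1
    have hcinf : ∀ m, |(c' m : ℝ)| * |((b.det u : ℤ) : ℝ)| ≤ X r := by
      intro m
      have h1 := bord_eq_mul M b (Pi.single m 1) K u
      rw [← abs_mul, mul_comm]
      have h2 : ((b.det u : ℤ) : ℝ) * (c' m : ℝ) =
          ((bord (Pi.single m 1) (fun a => (u a).1) K : ℤ) : ℝ) := by
        rw [h1]
        push_cast
        rfl
      rw [h2]
      rcases hsz (fun a => (u a).1) m with ⟨i, hi⟩ | hi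
      · rw [hi]
        push_cast
        rw [abs_mul, abs_pow, abs_neg, abs_one, one_pow, one_mul]
        exact hinf r hr1 hrn _ (fun a => hQP _ (huQ' a)) _
      · rw [hi, Int.cast_zero, abs_zero]
        exact hX0
    have hcpad : ∀ p ∈ S, ∀ m, (padicNorm p ((c' m : ℤ) : ℚ) : ℝ) ≤ R p r := by
      intro p hp m
      have : Fact p.Prime := ⟨hS p hp⟩
      rcases hsz (fun a => (b a).1) m with ⟨i, hi⟩ | hi
      · have h1 := hpb p hp (mnrA M (K ∘ i.succAbove)) (by
          intro y hy
          rw [mnrA_apply]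
          exact hpad p hp r hr1 hrn _ (fun a => hQP _ (hy a)) _)
        rw [mnrA_apply] at h1
        simp only [hc']
        rw [hi]
        rcases Nat.even_or_odd (i : ℕ) with h | h
        · rw [h.neg_one_pow, one_mul]
          exact h1
        · rw [h.neg_one_pow]
          push_cast
          rw [neg_one_mul, padicNorm.neg]
          exact h1
      · simp only [hc']
        rw [hi]
        simpa using hR p hp r
    -- the greatest common divisor
    set J : Ideal ℤ := Ideal.span (Set.range c') with hJ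
    set g : ℤ := Submodule.IsPrincipal.generator J with hg
    have hgJ : g ∈ J := Submodule.IsPrincipal.generator_mem J
    have hgdvd : ∀ m, g ∣ c' m := by
      intro m
      have h1 : c' m ∈ J := Ideal.subset_span ⟨m, rfl⟩
      exact (Submodule.IsPrincipal.mem_iff_generator_dvd J).1 h1
    have hg0 : g ≠ 0 := by
      intro h
      have h1 := hgdvd j
      rw [h, zero_dvd_iff] at h1
      exact hc'j h1
    have hgpad : ∀ p ∈ S, (padicNorm p ((g : ℤ) : ℚ) : ℝ) ≤ R p r := by
      intro p hp
      have h1 : J ≤ (padT p (hS p hp) (R p r) (hR p hp r) : Submodule ℤ ℤ) := by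
        rw [hJ, Ideal.span, Submodule.span_le]
        rintro _ ⟨m, rfl⟩
        exact hcpad p hp m
      exact h1 hgJ
    have hg1 : 1 ≤ |(g : ℝ)| * ∏ p ∈ S, R p r := by
      refine (Pool.Agent.H951R3.W.prod_padic_int S hS g hg0).trans ?_
      refine mul_le_mul_of_nonneg_left ?_ (abs_nonneg _)
      refine Finset.prod_le_prod (fun p _ => ?_) fun p hp => hgpad p hp
      exact_mod_cast padicNorm.nonneg _
    have hgpos : (0 : ℝ) < |(g : ℝ)| := abs_pos.2 (by exact_mod_cast hg0)
    have hprodR : 0 ≤ ∏ p ∈ S, R p r := Finset.prod_nonneg fun p hp => hR p hp r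
    choose c hc using hgdvd
    refine ⟨c, ?_, ?_, ?_⟩
    · intro h
      apply hc'j
      rw [hc j, h]
      simp
    · intro y hy
      have h1 := hvan y hy
      simp only [hc] at h1
      have h2 : g * ∑ i, c i * y i = 0 := by
        rw [Finset.mul_sum, ← h1]
        refine Finset.sum_congr rfl fun i _ => by ring
      exact (mul_eq_zero.1 h2).resolve_left hg0
    · intro i
      have h1 := hcinf i
      rw [hc i] at h1
      push_cast at h1
      rw [abs_mul] at h1
      have h0 : 0 ≤ |(c i : ℝ)| := abs_nonneg _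
      calc |(c i : ℝ)| * P.card ≤ |(c i : ℝ)| * (3 ^ r * |((b.det u : ℤ) : ℝ)|) :=
            mul_le_mul_of_nonneg_left hcardR h0
        _ = 3 ^ r * (|(c i : ℝ)| * |((b.det u : ℤ) : ℝ)| * 1) := by ring
        _ ≤ 3 ^ r * (|(c i : ℝ)| * |((b.det u : ℤ) : ℝ)| * (|(g : ℝ)| * ∏ p ∈ S, R p r)) := by
            refine mul_le_mul_of_nonneg_left ?_ (by positivity)
            exact mul_le_mul_of_nonneg_left hg1 (by positivity)
        _ = 3 ^ r * ((|(g : ℝ)| * |(c i : ℝ)| * |((b.det u : ℤ) : ℝ)|) * ∏ p ∈ S, R p r) := by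
            ring
        _ ≤ 3 ^ r * (X r * ∏ p ∈ S, R p r) := by
            refine mul_le_mul_of_nonneg_left ?_ (by positivity)
            exact mul_le_mul_of_nonneg_right h1 hprodR
  · left
    have hrn' : r = n := le_antisymm hrn hge
    subst hrn'
    -- the full determinant
    obtain ⟨K0, hK0inj, hK0⟩ := exists_minor M b
    set D : ℤ := mnr (fun a => (b a).1) K0 with hD
    have h1 : (mnr (fun a => (u a).1) K0 : ℤ) = b.det u * D := by
      have h := congrArg (fun f => f u) ((mnrA M K0).eq_smul_basis_det b)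
      simp only [AlternatingMap.smul_apply, smul_eq_mul, mnrA_apply] at h
      rw [h, mul_comm]
    have h2 := hinf r hr1 le_rfl (fun a => (u a).1) (fun a => hQP _ (huQ' a)) K0
    rw [h1] at h2
    push_cast at h2
    rw [abs_mul] at h2
    have h3 : 1 ≤ |(D : ℝ)| * ∏ p ∈ S, R p r := by
      refine (Pool.Agent.H951R3.W.prod_padic_int S hS D hK0).trans ?_
      refine mul_le_mul_of_nonneg_left ?_ (abs_nonneg _)
      refine Finset.prod_le_prod (fun p _ => ?_) fun p hp => ?_
      · exact_mod_cast padicNorm.nonneg _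
      · have h4 := hpb p hp (mnrA M K0) (by
          intro y hy
          rw [mnrA_apply]
          exact hpad p hp r hr1 le_rfl _ (fun a => hQP _ (hy a)) _)
        rwa [mnrA_apply] at h4
    have hprodR : 0 ≤ ∏ p ∈ S, R p r := Finset.prod_nonneg fun p hp => hR p hp r
    calc (P.card : ℝ) ≤ 3 ^ r * |((b.det u : ℤ) : ℝ)| := hcardR
      _ = 3 ^ r * (|((b.det u : ℤ) : ℝ)| * 1) := by ring
      _ ≤ 3 ^ r * (|((b.det u : ℤ) : ℝ)| * (|(D : ℝ)| * ∏ p ∈ S, R p r)) := by
          refine mul_le_mul_of_nonneg_left ?_ (by positivity)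
          exact mul_le_mul_of_nonneg_left h3 (by positivity)
      _ = 3 ^ r * ((|((b.det u : ℤ) : ℝ)| * |(D : ℝ)|) * ∏ p ∈ S, R p r) := by ring
      _ ≤ 3 ^ r * (X r * ∏ p ∈ S, R p r) := by
          refine mul_le_mul_of_nonneg_left ?_ (by positivity)
          exact mul_le_mul_of_nonneg_right h2 hprodR

end Pool.Agent.H41N.VP
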