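import Mathlib

set_option autoImplicit false

/-!
A smooth hypersurface with a hyperplane section which is a cone with a large vertex.
-/

namespace Pool.Agent.H41N.VP

open MvPolynomial

/-- `X_0 ^ (d - 1) * X_N + ∑_{i ≠ 0} X_i ^ d` -/
noncomputable def FN (N d : ℕ) : MvPolynomial (Fin (N + 1)) ℤ :=
  X 0 ^ (d - 1) * X (Fin.last N) + ∑ i ∈ Finset.univ.erase 0, X i ^ d

lemma FN_hom (N d : ℕ) (hd : 1 ≤ d) : (FN N d).IsHomogeneous d := by
  unfold FN
  apply IsHomogeneous.add
  · have h1 := ((isHomogeneous_X ℤ (0 : Fin (N + 1))).pow (d - 1)).mul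
      (isHomogeneous_X ℤ (Fin.last N))
    have h2 : 1 * (d - 1) + 1 = d := by omega
    rwa [h2] at h1
  · apply IsHomogeneous.sum
    intro i _
    have h1 := (isHomogeneous_X ℤ i).pow d
    rwa [one_mul] at h1

lemma pd_pow {n : ℕ} {K : Type} [Field K] (z : Fin n → K) (k i : Fin n) (m : ℕ) :
    aeval z (pderiv k (X i ^ m : MvPolynomial (Fin n) ℤ)) =
      if i = k then (m : K) * z i ^ (m - 1) else 0 := by
  rw [Derivation.leibniz_pow, pderiv_X]
  by_cases h : i = k
  · subst h
    simp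
  · rw [if_neg h, Pi.single_eq_of_ne h]
    simp

lemma FN_pd {N d : ℕ} {K : Type} [Field K] (z : Fin (N + 1) → K) (k : Fin (N + 1)) :
    aeval z (pderiv k (FN N d)) =
      (if (0 : Fin (N + 1)) = k then ((d - 1 : ℕ) : K) * z 0 ^ (d - 1 - 1) else 0) *
          z (Fin.last N) +
        z 0 ^ (d - 1) * (if Fin.last N = k then 1 else 0) +
        (if k = 0 then 0 else (d : K) * z k ^ (d - 1)) := by
  unfold FN
  rw [map_add, map_add, Derivation.leibniz, map_sum, map_sum]
  have h1 : ∑ i ∈ Finset.univ.erase (0 : Fin (N + 1)),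
      aeval z (pderiv k (X i ^ d : MvPolynomial (Fin (N + 1)) ℤ)) =
      (if k = 0 then 0 else (d : K) * z k ^ (d - 1)) := by
    rw [Finset.sum_congr rfl fun i _ => pd_pow z k i d]
    by_cases hk : k = 0
    · rw [if_pos hk]
      apply Finset.sum_eq_zero
      intro i hi
      rw [if_neg]
      rintro rfl
      exact (Finset.ne_of_mem_erase hi) hk
    · rw [if_neg hk, Finset.sum_eq_single k]
      · rw [if_pos rfl]
      · intro i _ hi
        rw [if_neg hi]
      · intro h
        exact absurd (Finset.mem_erase.2 ⟨hk, Finset.mem_univ _⟩) h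
  rw [h1]
  congr 1
  rw [map_add, smul_eq_mul, smul_eq_mul, map_mul, map_mul, pd_pow, map_pow, aeval_X, aeval_X,
    add_comm]
  congr 1
  · rw [mul_comm]
  · congr 1
    rw [pderiv_X]
    by_cases h : Fin.last N = k
    · rw [if_pos h, h, Pi.single_eq_same, map_one]
    · rw [if_neg h, Pi.single_eq_of_ne h, map_zero]

lemma FN_smooth {N d : ℕ} (hN : 1 ≤ N) (hd : 2 ≤ d) {K : Type} [Field K] [CharZero K]
    (z : Fin (N + 1) → K) (hz : z ≠ 0) : ∃ k, aeval z (pderiv k (FN N d)) ≠ 0 := by
  by_contra hcon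
  push Not at hcon
  have hl0 : Fin.last N ≠ 0 := by
    intro h
    have := congrArg Fin.val h
    simp at this
    omega
  have hd0 : (d : K) ≠ 0 := by
    have : d ≠ 0 := by omega
    exact_mod_cast this
  have hd10 : ((d - 1 : ℕ) : K) ≠ 0 := by
    have : d - 1 ≠ 0 := by omega
    exact_mod_cast this
  have h0 := hcon 0
  have hl := hcon (Fin.last N)
  rw [FN_pd] at h0 hl
  rw [if_pos rfl, if_neg hl0, if_pos rfl, mul_zero, add_zero, add_zero] at h0
  rw [if_neg (Ne.symm hl0), if_pos rfl, if_neg hl0, zero_mul, zero_add, mul_one] at hl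
  have hlast : z (Fin.last N) = 0 := by
    rcases mul_eq_zero.1 h0 with h | h
    · have h1 := (mul_eq_zero.1 h).resolve_left hd10
      have h2 : z 0 = 0 := eq_zero_of_pow_eq_zero h1
      rw [h2, zero_pow (by omega), zero_add] at hl
      exact pow_eq_zero_iff (by omega) |>.1 ((mul_eq_zero.1 hl).resolve_left hd0)
    · exact h
  have hz0 : z 0 = 0 := by
    rw [hlast, zero_pow (by omega), mul_zero, add_zero] at hl
    exact pow_eq_zero_iff (by omega) |>.1 hl
  apply hz
  funext k
  by_cases hk0 : k = 0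
  · rw [hk0]; exact hz0
  by_cases hkl : k = Fin.last N
  · rw [hkl]; exact hlast
  have h1 := hcon k
  rw [FN_pd, if_neg (Ne.symm hk0), if_neg (Ne.symm hkl), if_neg hk0, zero_mul, mul_zero, zero_add,
    zero_add] at h1
  exact pow_eq_zero_iff (by omega) |>.1 ((mul_eq_zero.1 h1).resolve_left hd0)

lemma FN_eval {N d : ℕ} (x : Fin (N + 1) → ℤ) (hx : x (Fin.last N) = 0) :
    eval x (FN N d) = ∑ i ∈ Finset.univ.erase 0, x i ^ d := by
  unfold FN
  rw [map_add, map_mul, eval_X, hx, mul_zero, zero_add, map_sum]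
  simp only [map_pow, eval_X]

end Pool.Agent.H41N.VP
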