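import Pool.Agent.H41N.VP.Low1

set_option autoImplicit false

/-!
Many primitive vectors in a box.
-/

namespace Pool.Agent.H41N.VP

open Finset

lemma sum_inv_sq (M : ℕ) : ∑ g ∈ Icc 2 M, 1 / (g : ℝ) ^ 2 ≤ 3 / 4 := by
  have key : ∀ k : ℕ, ∑ g ∈ Icc 2 (k + 2), 1 / (g : ℝ) ^ 2 ≤ 3 / 4 - 1 / ((k : ℝ) + 2) := by
    intro k
    induction k with
    | zero => norm_num
    | succ k ih =>
      have h1 : Icc 2 (k + 1 + 2) = insert (k + 3) (Icc 2 (k + 2)) := by
        ext a
        simp only [mem_Icc, mem_insert]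
        omega
      rw [h1, sum_insert (by simp)]
      have h2 : 1 / (((k + 3 : ℕ) : ℝ)) ^ 2 ≤ 1 / ((k : ℝ) + 2) - 1 / ((k : ℝ) + 3) := by
        push_cast
        have hk : (0 : ℝ) ≤ k := Nat.cast_nonneg k
        rw [div_sub_div _ _ (by positivity) (by positivity), div_le_div_iff₀ (by positivity)
          (by positivity)]
        nlinarith
      push_cast at h2 ⊢
      have h3 : (k : ℝ) + 1 + 2 = k + 3 := by ring
      rw [h3]
      linarith
  rcases Nat.lt_or_ge M 2 with h | h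
  · rw [Icc_eq_empty (by omega), sum_empty]
    norm_num
  · obtain ⟨k, rfl⟩ : ∃ k, M = k + 2 := ⟨M - 2, by omega⟩
    refine (key k).trans ?_
    have : 0 ≤ 1 / ((k : ℝ) + 2) := by positivity
    linarith

lemma mult_le (a b g : ℕ) (hg : 1 ≤ g) (hab : a ≤ b) :
    ((((Ioc (a : ℤ) b).filter (fun x => (g : ℤ) ∣ x)).card : ℕ) : ℝ) ≤
      ((b : ℝ) - a) / g + (if a = 0 then 0 else 1) := by
  have hg0 : (0 : ℤ) < g := by exact_mod_cast hg
  have h1 := Int.Ioc_filter_dvd_card (a : ℤ) (b : ℤ) hg0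
  have h2 : ((((Ioc (a : ℤ) b).filter (fun x => (g : ℤ) ∣ x)).card : ℕ) : ℝ) =
      ((max (⌊((b : ℤ) : ℚ) / ((g : ℤ) : ℚ)⌋ - ⌊((a : ℤ) : ℚ) / ((g : ℤ) : ℚ)⌋) 0 : ℤ) : ℝ) := by
    rw [← h1]
    push_cast
    rfl
  rw [h2]
  push_cast
  have hgq : (0 : ℚ) < g := by exact_mod_cast hg
  have hgr : (0 : ℝ) < g := by exact_mod_cast hg
  apply max_le
  · have e1 : (⌊(b : ℚ) / (g : ℚ)⌋ : ℝ) ≤ (b : ℝ) / g := by
      have := Int.floor_le ((b : ℚ) / (g : ℚ))
      have h3 : ((⌊(b : ℚ) / (g : ℚ)⌋ : ℚ) : ℝ) ≤ (((b : ℚ) / (g : ℚ) : ℚ) : ℝ) := by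
        exact_mod_cast this
      push_cast at h3
      exact h3
    split_ifs with h0
    · subst h0
      simp only [Nat.cast_zero, zero_div, Int.floor_zero, Int.cast_zero, sub_zero, add_zero]
      exact e1
    · have e2 : (a : ℝ) / g < (⌊(a : ℚ) / (g : ℚ)⌋ : ℝ) + 1 := by
        have := Int.lt_floor_add_one ((a : ℚ) / (g : ℚ))
        have h3 : (((a : ℚ) / (g : ℚ) : ℚ) : ℝ) < ((⌊(a : ℚ) / (g : ℚ)⌋ : ℚ) : ℝ) + 1 := by
          exact_mod_cast this
        push_cast at h3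
        exact h3
      rw [sub_div]
      linarith
  · have e1 : (0 : ℝ) ≤ (b : ℝ) - a := by
      have : (a : ℝ) ≤ b := by exact_mod_cast hab
      linarith
    split_ifs <;> positivity

lemma one_ne (N : ℕ) (hN : 2 ≤ N) : (1 : Fin (N + 1)) ≠ 0 ∧ (1 : Fin (N + 1)) ≠ Fin.last N := by
  obtain ⟨k, rfl⟩ : ∃ k, N = k + 2 := ⟨N - 2, by omega⟩
  refine ⟨?_, ?_⟩
  · intro h
    have h1 := congrArg Fin.val h
    rw [Fin.val_zero, Fin.val_one] at h1
    omega
  · intro h
    have h1 := congrArg Fin.val h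
    rw [Fin.val_last, Fin.val_one] at h1
    omega

lemma prod_box (N : ℕ) (hN : 2 ≤ N) (α β γ : ℕ) :
    ∏ i : Fin (N + 1), (if i = 0 then α else if i = Fin.last N then 1 else
      if i = 1 then β else γ) = α * β * γ ^ (N - 2) := by
  obtain ⟨h01, h1l⟩ := one_ne N hN
  have h0l : Fin.last N ≠ (0 : Fin (N + 1)) := by
    intro h
    have := congrArg Fin.val h
    simp at this
    omega
  rw [← mul_prod_erase univ _ (mem_univ (0 : Fin (N + 1))), if_pos rfl,
    ← mul_prod_erase (univ.erase 0) _ (mem_erase.2 ⟨h01, mem_univ (1 : Fin (N + 1))⟩), if_neg h01,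
    if_neg h1l, if_pos rfl,
    ← mul_prod_erase ((univ.erase 0).erase 1) _ (mem_erase.2 ⟨h1l.symm, mem_erase.2
      ⟨h0l, mem_univ (Fin.last N)⟩⟩), if_neg h0l, if_pos rfl, one_mul, mul_assoc]
  congr 2
  rw [prod_congr rfl (g := fun _ => γ)]
  · rw [prod_const, card_erase_of_mem (mem_erase.2 ⟨h1l.symm, mem_erase.2
      ⟨h0l, mem_univ (Fin.last N)⟩⟩), card_erase_of_mem (mem_erase.2 ⟨h01, mem_univ _⟩),
      card_erase_of_mem (mem_univ _), card_univ, Fintype.card_fin]
    congr 1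
  · intro i hi
    simp only [mem_erase, mem_univ, and_true] at hi
    rw [if_neg hi.2.2, if_neg hi.1, if_neg hi.2.1]

/-- many primitive vectors in a box -/
theorem low_vectors (N : ℕ) (hN : 2 ≤ N) (A M : ℕ) (hM : 1 ≤ M) (hA : 4 * M ≤ A) :
    ∃ X : Finset (Fin (N + 1) → ℤ), ((A : ℝ) * M ^ (N - 1)) / 8 ≤ X.card ∧
      ∀ x ∈ X, (A : ℤ) < x 0 ∧ x 0 ≤ 2 * A ∧ x (Fin.last N) = 0 ∧
        (∀ i, i ≠ 0 → 0 ≤ x i ∧ x i ≤ M) ∧ 1 ≤ x 1 ∧ IsCoprime (x 0) (x 1) := by
  classical
  obtain ⟨h01, h1l⟩ := one_ne N hN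
  have h0l : Fin.last N ≠ (0 : Fin (N + 1)) := by
    intro h
    have := congrArg Fin.val h
    simp at this
    omega
  set V : Finset (Fin (N + 1) → ℤ) := Fintype.piFinset (fun i : Fin (N + 1) =>
    if i = 0 then Ioc (A : ℤ) (2 * A : ℕ) else if i = Fin.last N then {0} else
      if i = 1 then Ioc ((0 : ℕ) : ℤ) M else Ioc ((0 : ℕ) : ℤ) M) with hV
  set W : ℕ → Finset (Fin (N + 1) → ℤ) := fun g => Fintype.piFinset (fun i : Fin (N + 1) =>
    if i = 0 then (Ioc (A : ℤ) (2 * A : ℕ)).filter (fun x => (g : ℤ) ∣ x) else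
      if i = Fin.last N then {0} else
      if i = 1 then (Ioc ((0 : ℕ) : ℤ) M).filter (fun x => (g : ℤ) ∣ x) else
      Ioc ((0 : ℕ) : ℤ) M) with hW
  have hVc : V.card = A * M * M ^ (N - 2) := by
    rw [hV, Fintype.card_piFinset, ← prod_box N hN]
    refine prod_congr rfl fun i _ => ?_
    split_ifs with h1 h2 h3
    · rw [Int.card_Ioc]
      push_cast
      omega
    · simp
    · rw [Int.card_Ioc]
      simp
    · rw [Int.card_Ioc]
      simp
  have hWc : ∀ g ∈ Icc 2 M, ((W g).card : ℝ) ≤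
      (A / g + 1) * (M / g) * (M : ℝ) ^ (N - 2) := by
    intro g hg
    rw [mem_Icc] at hg
    have h1 : (W g).card = ((Ioc (A : ℤ) (2 * A : ℕ)).filter (fun x => (g : ℤ) ∣ x)).card *
        ((Ioc ((0 : ℕ) : ℤ) M).filter (fun x => (g : ℤ) ∣ x)).card * M ^ (N - 2) := by
      rw [hW, Fintype.card_piFinset, ← prod_box N hN]
      refine prod_congr rfl fun i _ => ?_
      split_ifs with h1 h2 h3
      · rfl
      · simp
      · rfl
      · rw [Int.card_Ioc]
        simp
    rw [h1]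
    push_cast
    have h2 := mult_le A (2 * A) g (by omega) (by omega)
    have h3 := mult_le 0 M g (by omega) (Nat.zero_le _)
    rw [if_pos rfl, add_zero] at h3
    rw [if_neg (by omega : A ≠ 0)] at h2
    push_cast at h2 h3
    have h4 : (2 * (A : ℝ) - A) / g + 1 = A / g + 1 := by ring
    rw [h4] at h2
    rw [sub_zero] at h3
    apply mul_le_mul_of_nonneg_right _ (by positivity)
    exact mul_le_mul h2 h3 (by positivity) (by positivity)
  set X := V.filter (fun x => IsCoprime (x 0) (x 1)) with hX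
  have hXprop : ∀ x ∈ V, (A : ℤ) < x 0 ∧ x 0 ≤ 2 * A ∧ x (Fin.last N) = 0 ∧
      (∀ i, i ≠ 0 → 0 ≤ x i ∧ x i ≤ M) ∧ 1 ≤ x 1 := by
    intro x hx
    rw [hV, Fintype.mem_piFinset] at hx
    have e0 := hx 0
    rw [if_pos rfl, mem_Ioc] at e0
    have el := hx (Fin.last N)
    rw [if_neg h0l, if_pos rfl, mem_singleton] at el
    have e1 := hx 1
    rw [if_neg h01, if_neg h1l, if_pos rfl, mem_Ioc] at e1
    refine ⟨e0.1, by have := e0.2; push_cast at this; exact this, el, ?_, by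
      have := e1.1; push_cast at this; omega⟩
    intro i hi
    have ei := hx i
    rw [if_neg hi] at ei
    split_ifs at ei with h1 h2
    · rw [mem_singleton] at ei
      rw [ei]
      exact ⟨le_rfl, by positivity⟩
    · rw [mem_Ioc] at ei
      push_cast at ei
      omega
    · rw [mem_Ioc] at ei
      push_cast at ei
      omega
  refine ⟨X, ?_, ?_⟩
  · have hsub : V.filter (fun x => ¬ IsCoprime (x 0) (x 1)) ⊆ (Icc 2 M).biUnion W := by
      intro x hx
      obtain ⟨hxV, hxc⟩ := mem_filter.1 hx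
      obtain ⟨p1, p2, p3, p4, p5⟩ := hXprop x hxV
      rw [mem_biUnion]
      refine ⟨Int.gcd (x 0) (x 1), ?_, ?_⟩
      · rw [mem_Icc]
        constructor
        · have h1 : Int.gcd (x 0) (x 1) ≠ 0 := by
            intro h
            rw [Int.gcd_eq_zero_iff] at h
            omega
          have h2 : Int.gcd (x 0) (x 1) ≠ 1 := by
            intro h
            exact hxc (Int.isCoprime_iff_gcd_eq_one.2 h)
          omega
        · have h1 : ((Int.gcd (x 0) (x 1) : ℕ) : ℤ) ∣ x 1 := Int.gcd_dvd_right _ _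
          have h2 := Int.le_of_dvd (by omega) h1
          have h3 := (p4 1 h01).2
          omega
      · rw [hW, Fintype.mem_piFinset]
        intro i
        rw [hV, Fintype.mem_piFinset] at hxV
        have hi := hxV i
        split_ifs with h1 h2 h3
        · rw [if_pos h1] at hi
          rw [mem_filter]
          refine ⟨hi, ?_⟩
          rw [h1]
          exact Int.gcd_dvd_left _ _
        · rw [if_neg h1, if_pos h2] at hi
          exact hi
        · rw [if_neg h1, if_neg h2, if_pos h3] at hi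
          rw [mem_filter]
          refine ⟨hi, ?_⟩
          rw [h3]
          exact Int.gcd_dvd_right _ _
        · rw [if_neg h1, if_neg h2, if_neg h3] at hi
          exact hi
    have h1 : ((V.filter (fun x => ¬ IsCoprime (x 0) (x 1))).card : ℝ) ≤
        ∑ g ∈ Icc 2 M, (A / g + 1) * (M / g) * (M : ℝ) ^ (N - 2) := by
      have h2 := (card_le_card hsub).trans card_biUnion_le
      have h3 : ((V.filter (fun x => ¬ IsCoprime (x 0) (x 1))).card : ℝ) ≤
          ∑ g ∈ Icc 2 M, ((W g).card : ℝ) := by exact_mod_cast h2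
      exact h3.trans (sum_le_sum hWc)
    have hMR : (1 : ℝ) ≤ M := by exact_mod_cast hM
    have hAR : 4 * (M : ℝ) ≤ A := by exact_mod_cast hA
    have h2 : ∑ g ∈ Icc 2 M, (A / g + 1) * (M / g) * (M : ℝ) ^ (N - 2) ≤
        (7 / 8 * (A * M)) * (M : ℝ) ^ (N - 2) := by
      rw [← sum_mul]
      apply mul_le_mul_of_nonneg_right _ (by positivity)
      have h3 : ∀ g ∈ Icc 2 M, ((A : ℝ) / g + 1) * (M / g) ≤ A * M * (1 / (g : ℝ) ^ 2) + M / 2 := by
        intro g hg
        rw [mem_Icc] at hg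
        have hg2 : (2 : ℝ) ≤ g := by exact_mod_cast hg.1
        have h4 : (M : ℝ) / g ≤ M / 2 := div_le_div_of_nonneg_left (by positivity) (by norm_num) hg2
        have h5 : ((A : ℝ) / g + 1) * (M / g) = A * M * (1 / (g : ℝ) ^ 2) + M / g := by
          field_simp
        rw [h5]
        linarith
      refine (sum_le_sum h3).trans ?_
      rw [sum_add_distrib, ← mul_sum, sum_const, Nat.card_Icc, nsmul_eq_mul]
      have h4 := sum_inv_sq M
      have h5 : ((M + 1 - 2 : ℕ) : ℝ) ≤ M := by exact_mod_cast (by omega : M + 1 - 2 ≤ M)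
      have h6 : (A : ℝ) * M * ∑ g ∈ Icc 2 M, 1 / (g : ℝ) ^ 2 ≤ A * M * (3 / 4) :=
        mul_le_mul_of_nonneg_left h4 (by positivity)
      have h7 : ((M + 1 - 2 : ℕ) : ℝ) * (M / 2) ≤ M * (M / 2) :=
        mul_le_mul_of_nonneg_right h5 (by positivity)
      nlinarith
    have h3 := card_filter_add_card_filter_not (s := V) (fun x => IsCoprime (x 0) (x 1))
    have h4 : (X.card : ℝ) + ((V.filter (fun x => ¬ IsCoprime (x 0) (x 1))).card : ℝ) =
        A * M * M ^ (N - 2) := by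
      have h5 : X.card + (V.filter (fun x => ¬ IsCoprime (x 0) (x 1))).card =
        A * M * M ^ (N - 2) := by rw [← hVc, hX]; exact h3
      exact_mod_cast h5
    have h5 : (M : ℝ) ^ (N - 1) = M * M ^ (N - 2) := by
      rw [← pow_succ']
      congr 1
      omega
    rw [h5]
    nlinarith
  · intro x hx
    obtain ⟨hxV, hxc⟩ := mem_filter.1 hx
    obtain ⟨p1, p2, p3, p4, p5⟩ := hXprop x hxV
    exact ⟨p1, p2, p3, p4, p5, hxc⟩

end Pool.Agent.H41N.VP
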