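import Pool.Agent.H41N.VP.Low2

set_option autoImplicit false

namespace Pool.Agent.H41N.VP

open Finset

/-- choice of the box -/
theorem low_choice (N : ℕ) (hN : 2 ≤ N) (κ D ρ : ℝ) (hκ : 0 < κ) (hκD : κ < D) (hρ : 0 < ρ) :
    ∃ c' : ℝ, 0 < c' ∧ ∃ B0 : ℝ, ∀ B : ℝ, B0 ≤ B → ∃ A M : ℕ, 1 ≤ M ∧ 4 * M ≤ A ∧
      (2 * A : ℝ) ≤ B ∧ (M : ℝ) ≤ ρ * (A : ℝ) ^ (1 - κ / D) ∧
      c' * B ^ ((N : ℝ) - (N - 1) * κ / D) ≤ ((A : ℝ) * M ^ (N - 1)) / 8 := by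
  have hD : 0 < D := by linarith
  set e : ℝ := 1 - κ / D with he
  have hκD1 : κ / D < 1 := (div_lt_one hD).2 hκD
  have hκD0 : 0 < κ / D := div_pos hκ hD
  have he0 : 0 < e := by rw [he]; linarith
  have he1 : 0 < 1 - e := by rw [he]; linarith
  have h1 := (tendsto_rpow_atTop he0).eventually_ge_atTop (2 / ρ)
  have h2 := (tendsto_rpow_atTop he1).eventually_ge_atTop (4 * ρ)
  obtain ⟨A0, hA0⟩ := Filter.eventually_atTop.1 (h1.and h2)
  refine ⟨1 / 32 * (ρ / 2 * (1 / 4) ^ e) ^ (N - 1), by positivity, max 4 (4 * A0), ?_⟩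
  intro B hB
  have hB4 : 4 ≤ B := (le_max_left _ _).trans hB
  have hBA : 4 * A0 ≤ B := (le_max_right _ _).trans hB
  have hB0 : 0 < B := by linarith
  set A : ℕ := ⌊B / 2⌋₊ with hA
  have hAle : (A : ℝ) ≤ B / 2 := Nat.floor_le (by linarith)
  have hAge : B / 4 ≤ (A : ℝ) := by
    have := Nat.lt_floor_add_one (B / 2)
    rw [← hA] at this
    linarith
  have hA1 : (0 : ℝ) < A := by linarith
  obtain ⟨hc1, hc2⟩ := hA0 (A : ℝ) (by linarith)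
  have hAe : (0 : ℝ) < (A : ℝ) ^ e := Real.rpow_pos_of_pos hA1 _
  have h3 : 2 ≤ ρ * (A : ℝ) ^ e := by
    rw [div_le_iff₀ hρ] at hc1
    linarith
  set M : ℕ := ⌊ρ * (A : ℝ) ^ e⌋₊ with hM
  have hMle : (M : ℝ) ≤ ρ * (A : ℝ) ^ e := Nat.floor_le (by positivity)
  have hMge : ρ / 2 * (A : ℝ) ^ e ≤ M := by
    have := Nat.lt_floor_add_one (ρ * (A : ℝ) ^ e)
    rw [← hM] at this
    linarith
  have hM1 : 1 ≤ M := by
    rw [hM]
    apply Nat.le_floor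
    push_cast
    linarith
  have h4 : 4 * (ρ * (A : ℝ) ^ e) ≤ A := by
    have e1 : (A : ℝ) = (A : ℝ) ^ (1 - e) * (A : ℝ) ^ e := by
      rw [← Real.rpow_add hA1]
      simp
    calc 4 * (ρ * (A : ℝ) ^ e) = 4 * ρ * (A : ℝ) ^ e := by ring
      _ ≤ (A : ℝ) ^ (1 - e) * (A : ℝ) ^ e := mul_le_mul_of_nonneg_right hc2 hAe.le
      _ = A := e1.symm
  have h5 : 4 * M ≤ A := by
    have : ((4 * M : ℕ) : ℝ) ≤ A := by
      push_cast
      linarith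
    exact_mod_cast this
  refine ⟨A, M, hM1, h5, by linarith, hMle, ?_⟩
  have h6 : ρ / 2 * ((1 / 4) ^ e * B ^ e) ≤ M := by
    refine le_trans ?_ hMge
    apply mul_le_mul_of_nonneg_left _ (by positivity)
    rw [← Real.mul_rpow (by norm_num) hB0.le]
    apply Real.rpow_le_rpow (by positivity) _ he0.le
    linarith
  have h7 : B ^ ((N : ℝ) - (N - 1) * κ / D) = B * (B ^ e) ^ (N - 1) := by
    rw [← Real.rpow_natCast (B ^ e), ← Real.rpow_mul hB0.le]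
    nth_rewrite 2 [← Real.rpow_one B]
    rw [← Real.rpow_add hB0]
    congr 1
    rw [Nat.cast_sub (by omega), he]
    push_cast
    ring
  rw [h7]
  have h8 : (ρ / 2 * ((1 / 4) ^ e * B ^ e)) ^ (N - 1) ≤ (M : ℝ) ^ (N - 1) :=
    pow_le_pow_left₀ (by positivity) h6 _
  calc 1 / 32 * (ρ / 2 * (1 / 4) ^ e) ^ (N - 1) * (B * (B ^ e) ^ (N - 1)) =
        (B / 4) * (ρ / 2 * ((1 / 4) ^ e * B ^ e)) ^ (N - 1) / 8 := by
        rw [mul_pow (ρ / 2) ((1 / 4) ^ e * B ^ e), mul_pow ((1 / 4) ^ e) (B ^ e),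
          mul_pow (ρ / 2) ((1 / 4) ^ e)]
        ring
    _ ≤ (A : ℝ) * M ^ (N - 1) / 8 := by
        apply div_le_div_of_nonneg_right _ (by norm_num)
        exact mul_le_mul hAge h8 (by positivity) (by positivity)

end Pool.Agent.H41N.VP
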