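import Pool.Agent.H41N.VP.ClassC

set_option autoImplicit false

/-!
At most `r` of the forms are small at a point.
-/

namespace Pool.Agent.H41N.VP

open Pool.Agent.TH42.NC

section

variable {𝕜 : Type} [NontriviallyNormedField 𝕜] [ProperSpace 𝕜] {n q : ℕ}

lemma near_aux (F : Fin q → MvPolynomial (Fin n) 𝕜) (r : ℕ)
    (hr : ∀ z : Fin n → 𝕜, z ≠ 0 → {j | MvPolynomial.eval z (F j) = 0}.ncard ≤ r) (i0 : Fin n) :
    ∃ η : ℝ, 0 < η ∧ η ≤ 1 ∧ ∀ z : Fin n → 𝕜, ‖z‖ ≤ 1 → z i0 = 1 →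
      {j | ‖MvPolynomial.eval z (F j)‖ < η}.ncard ≤ r := by
  classical
  set Kc : Set (Fin n → 𝕜) := Metric.closedBall 0 1 ∩ {z | z i0 = 1} with hKc
  have hKcc : IsCompact Kc := by
    apply (isCompact_closedBall _ _).inter_right
    exact isClosed_eq (continuous_apply i0) continuous_const
  have hne0 : ∀ z ∈ Kc, z ≠ 0 := by
    rintro z hz rfl
    have h1 : (0 : Fin n → 𝕜) i0 = 1 := hz.2
    simp at h1
  have hJ : ∀ J : Finset (Fin q), ∃ μ : ℝ, 0 < μ ∧ (J.card = r + 1 → ∀ z ∈ Kc,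
      μ ≤ ∑ j ∈ J, ‖MvPolynomial.eval z (F j)‖) := by
    intro J
    by_cases hJc : J.card = r + 1
    · by_cases hKne : Kc.Nonempty
      · have hcont : Continuous (fun z : Fin n → 𝕜 => ∑ j ∈ J, ‖MvPolynomial.eval z (F j)‖) :=
          continuous_finsetSum _ fun j _ => (continuous_eval (F j)).norm
        obtain ⟨z1, hz1, hmin⟩ := hKcc.exists_isMinOn hKne hcont.continuousOn
        refine ⟨∑ j ∈ J, ‖MvPolynomial.eval z1 (F j)‖, ?_, fun _ z hz => hmin hz⟩
        by_contra hcon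
        push Not at hcon
        have h0 : ∑ j ∈ J, ‖MvPolynomial.eval z1 (F j)‖ = 0 :=
          le_antisymm hcon (Finset.sum_nonneg fun _ _ => norm_nonneg _)
        rw [Finset.sum_eq_zero_iff_of_nonneg (fun _ _ => norm_nonneg _)] at h0
        have h1 := hr z1 (hne0 z1 hz1)
        have h2 : (J : Set (Fin q)) ⊆ {j | MvPolynomial.eval z1 (F j) = 0} := by
          intro j hj
          exact norm_eq_zero.1 (h0 j hj)
        have h3 := Set.ncard_le_ncard h2 (Set.toFinite _)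
        rw [Set.ncard_coe_finset] at h3
        omega
      · exact ⟨1, one_pos, fun _ z hz => absurd ⟨z, hz⟩ hKne⟩
    · exact ⟨1, one_pos, fun h => absurd h hJc⟩
  choose μ hμ0 hμ using hJ
  have huniv : (Finset.univ : Finset (Finset (Fin q))).Nonempty := ⟨∅, Finset.mem_univ _⟩
  set η : ℝ := min 1 (Finset.univ.inf' huniv (fun J => μ J / (r + 1))) with hη
  have hη0 : 0 < η := by
    rw [hη, lt_min_iff]
    refine ⟨one_pos, ?_⟩
    rw [Finset.lt_inf'_iff]
    intro J _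
    have := hμ0 J
    positivity
  refine ⟨η, hη0, min_le_left _ _, ?_⟩
  intro z hz hz1
  by_contra hcon
  push Not at hcon
  set A : Finset (Fin q) := Finset.univ.filter (fun j => ‖MvPolynomial.eval z (F j)‖ < η) with hA
  have hAc : {j | ‖MvPolynomial.eval z (F j)‖ < η}.ncard = A.card := by
    rw [← Set.ncard_coe_finset, hA]
    congr 1
    ext j
    simp
  rw [hAc] at hcon
  obtain ⟨J, hJA, hJc⟩ := Finset.exists_subset_card_eq (show r + 1 ≤ A.card by omega)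
  have hzK : z ∈ Kc := ⟨by rwa [mem_closedBall_zero_iff], hz1⟩
  have h1 := hμ J hJc z hzK
  have h2 : ∑ j ∈ J, ‖MvPolynomial.eval z (F j)‖ < ∑ _j ∈ J, η := by
    apply Finset.sum_lt_sum_of_nonempty
    · rw [← Finset.card_pos]
      omega
    · intro j hj
      exact (Finset.mem_filter.1 (hJA hj)).2
  rw [Finset.sum_const, hJc, nsmul_eq_mul] at h2
  have h3 : η ≤ μ J / (r + 1) := by
    rw [hη]
    exact (min_le_right _ _).trans (Finset.inf'_le _ (Finset.mem_univ J))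
  rw [le_div_iff₀ (by positivity)] at h3
  push_cast at h2
  linarith

lemma near (F : Fin q → MvPolynomial (Fin n) ℤ) (d : Fin q → ℕ)
    (hF : ∀ j, (F j).IsHomogeneous (d j)) (hq : 1 ≤ q) (r : ℕ)
    (hr : ∀ z : Fin n → 𝕜, z ≠ 0 → {j | MvPolynomial.aeval z (F j) = 0}.ncard ≤ r) (i0 : Fin n) :
    ∃ C : ℝ, 0 ≤ C ∧ ∀ x : Fin n → ℤ, (x i0 : 𝕜) ≠ 0 → (∀ i, ‖(x i : 𝕜)‖ ≤ ‖(x i0 : 𝕜)‖) →
      (∀ j, ((MvPolynomial.eval x (F j) : ℤ) : 𝕜) ≠ 0) → ∃ j,
      ∑ j', Real.log (‖(x i0 : 𝕜)‖ ^ d j' / ‖((MvPolynomial.eval x (F j') : ℤ) : 𝕜)‖) ≤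
      r * max (Real.log (‖(x i0 : 𝕜)‖ ^ d j / ‖((MvPolynomial.eval x (F j) : ℤ) : 𝕜)‖)) 0 + C := by
  classical
  obtain ⟨η, hη0, hη1, hη⟩ := near_aux (fun j => (F j).map (Int.castRingHom 𝕜)) r (by
    intro z hz
    simp only [eval_map']
    exact hr z hz) i0
  have hlogη : 0 ≤ -Real.log η := by
    have := Real.log_nonpos hη0.le hη1
    linarith
  refine ⟨q * (-Real.log η), by positivity, ?_⟩
  intro x hx0 hxi hne
  set z : Fin n → 𝕜 := fun i => (x i : 𝕜) / (x i0 : 𝕜) with hz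
  have hx00 : 0 < ‖(x i0 : 𝕜)‖ := norm_pos_iff.2 hx0
  have hz1 : ‖z‖ ≤ 1 := by
    rw [pi_norm_le_iff_of_nonneg zero_le_one]
    intro i
    simp only [hz]
    rw [norm_div, div_le_one hx00]
    exact hxi i
  have hzi : z i0 = 1 := div_self hx0
  set f : Fin q → 𝕜 := fun j => MvPolynomial.eval z ((F j).map (Int.castRingHom 𝕜)) with hf
  have hfe : ∀ j, ((MvPolynomial.eval x (F j) : ℤ) : 𝕜) = (x i0 : 𝕜) ^ d j * f j := by
    intro j
    have h1 := aeval_smul_hom (F j) (hF j) (x i0 : 𝕜) z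
    have h2 : (fun i => (x i0 : 𝕜) * z i) = fun i => (x i : 𝕜) := by
      funext i
      simp only [hz]
      rw [mul_div_cancel₀ _ hx0]
    rw [h2, aeval_int] at h1
    rw [h1, hf]
    simp only [eval_map']
  have hf0 : ∀ j, f j ≠ 0 := by
    intro j h0
    apply hne j
    rw [hfe j, h0, mul_zero]
  set a : Fin q → ℝ := fun j => Real.log (‖(x i0 : 𝕜)‖ ^ d j /
    ‖((MvPolynomial.eval x (F j) : ℤ) : 𝕜)‖) with ha
  have haf : ∀ j, a j = -Real.log ‖f j‖ := by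
    intro j
    simp only [ha]
    rw [hfe j, norm_mul, norm_pow]
    have h1 : 0 < ‖f j‖ := norm_pos_iff.2 (hf0 j)
    have h2 : ‖(x i0 : 𝕜)‖ ^ d j / (‖(x i0 : 𝕜)‖ ^ d j * ‖f j‖) = ‖f j‖⁻¹ := by
      field_simp
    rw [h2, Real.log_inv]
  obtain ⟨j, _, hjmax⟩ := Finset.exists_max_image Finset.univ a ⟨⟨0, hq⟩, Finset.mem_univ _⟩
  refine ⟨j, ?_⟩
  show ∑ j', a j' ≤ r * max (a j) 0 + q * (-Real.log η)
  set A : Finset (Fin q) := Finset.univ.filter (fun j => ‖f j‖ < η) with hA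
  have hAc : A.card ≤ r := by
    have h1 := hη z hz1 hzi
    have h2 : {j | ‖MvPolynomial.eval z ((F j).map (Int.castRingHom 𝕜))‖ < η} =
        (A : Set (Fin q)) := by
      ext j
      simp [hA, hf]
    rw [h2, Set.ncard_coe_finset] at h1
    exact h1
  have hm0 : 0 ≤ max (a j) 0 := le_max_right _ _
  have h1 : ∑ j' ∈ A, a j' ≤ r * max (a j) 0 := by
    calc ∑ j' ∈ A, a j' ≤ ∑ _j' ∈ A, max (a j) 0 :=
          Finset.sum_le_sum fun j' _ => (hjmax j' (Finset.mem_univ _)).trans (le_max_left _ _)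
      _ = A.card * max (a j) 0 := by rw [Finset.sum_const, nsmul_eq_mul]
      _ ≤ r * max (a j) 0 := by
          apply mul_le_mul_of_nonneg_right _ hm0
          exact_mod_cast hAc
  have h2 : ∑ j' ∈ Aᶜ, a j' ≤ q * (-Real.log η) := by
    calc ∑ j' ∈ Aᶜ, a j' ≤ ∑ _j' ∈ Aᶜ, (-Real.log η) := by
          apply Finset.sum_le_sum
          intro j' hj'
          rw [haf j']
          have h3 : η ≤ ‖f j'‖ := by
            simp only [hA, Finset.mem_compl, Finset.mem_filter, Finset.mem_univ, true_and,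
              not_lt] at hj'
            exact hj'
          have h4 := Real.log_le_log hη0 h3
          linarith
      _ = (Aᶜ).card * (-Real.log η) := by rw [Finset.sum_const, nsmul_eq_mul]
      _ ≤ q * (-Real.log η) := by
          apply mul_le_mul_of_nonneg_right _ hlogη
          have h5 : (Aᶜ).card ≤ q := by
            have := Finset.card_le_univ Aᶜ
            simpa using this
          exact_mod_cast h5
  have h3 := Finset.sum_add_sum_compl A a
  linarith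

end

/-- at most `r` of the forms vanish at a point over `R` -/
def AtMost {n q : ℕ} (F : Fin q → MvPolynomial (Fin n) ℤ) (r : ℕ) (R : Type) [Field R] : Prop :=
  ∀ z : Fin n → R, z ≠ 0 → {j | MvPolynomial.aeval z (F j) = 0}.ncard ≤ r

/-- at most `r` of the forms vanish at a point over the completion at `v` -/
def AtMostV {S : Finset ℕ} (hS : ∀ p ∈ S, p.Prime) {n q : ℕ}
    (F : Fin q → MvPolynomial (Fin n) ℤ) (r : ℕ) : Option {p // p ∈ S} → Prop
  | none => AtMost F r ℝ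
  | some p => haveI : Fact p.1.Prime := ⟨hS p.1 p.2⟩; AtMost F r ℚ_[p.1]

lemma nearV {S : Finset ℕ} (hS : ∀ p ∈ S, p.Prime) (v : Option {p // p ∈ S}) {n q : ℕ}
    (F : Fin q → MvPolynomial (Fin n) ℤ) (d : Fin q → ℕ) (hF : ∀ j, (F j).IsHomogeneous (d j))
    (hq : 1 ≤ q) (r : ℕ) (hr : AtMostV hS F r v) (i0 : Fin n) :
    ∃ C : ℝ, 0 ≤ C ∧ ∀ x : Fin n → ℤ, x i0 ≠ 0 → (∀ i, vabs v (x i) ≤ vabs v (x i0)) →
      (∀ j, MvPolynomial.eval x (F j) ≠ 0) → ∃ j,
      ∑ j', Real.log (vabs v (x i0) ^ d j' / vabs v (MvPolynomial.eval x (F j'))) ≤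
      r * max (Real.log (vabs v (x i0) ^ d j / vabs v (MvPolynomial.eval x (F j)))) 0 + C := by
  have key : ∀ {𝕜 : Type} [NontriviallyNormedField 𝕜] [ProperSpace 𝕜] [CharZero 𝕜],
      (∀ z : ℤ, vabs v z = ‖(z : 𝕜)‖) → AtMost F r 𝕜 →
      ∃ C : ℝ, 0 ≤ C ∧ ∀ x : Fin n → ℤ, x i0 ≠ 0 → (∀ i, vabs v (x i) ≤ vabs v (x i0)) →
      (∀ j, MvPolynomial.eval x (F j) ≠ 0) → ∃ j,
      ∑ j', Real.log (vabs v (x i0) ^ d j' / vabs v (MvPolynomial.eval x (F j'))) ≤
      r * max (Real.log (vabs v (x i0) ^ d j / vabs v (MvPolynomial.eval x (F j)))) 0 + C := by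
    intro 𝕜 _ _ _ hv hr'
    obtain ⟨C, hC, h⟩ := near F d hF hq r hr' i0
    refine ⟨C, hC, ?_⟩
    intro x hx0 hxi hne
    simp only [hv] at hxi ⊢
    exact h x (by exact_mod_cast hx0) hxi (fun j => by exact_mod_cast hne j)
  cases v with
  | none => exact key (𝕜 := ℝ) (fun z => rfl) hr
  | some p =>
    have : Fact p.1.Prime := ⟨hS p.1 p.2⟩
    refine key (𝕜 := ℚ_[p.1]) (fun z => ?_) hr
    show (padicNorm p.1 (z : ℚ) : ℝ) = _
    rw [← Padic.eq_padicNorm]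
    push_cast
    rfl

end Pool.Agent.H41N.VP
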