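import Pool.Agent.H41N.VP.Lat2
import Pool.Agent.TH42.NC.Pack

set_option autoImplicit false

/-!
Near a smooth hypersurface the minors of close points are small.
-/

namespace Pool.Agent.H41N.VP

open Pool.Agent.TH42.NC

section Norm

variable {𝕜 : Type*} [NontriviallyNormedField 𝕜]

lemma norm_det_le {m : ℕ} (A : Matrix (Fin m) (Fin m) 𝕜) (ρ γ : Fin m → ℝ)
    (h : ∀ a b, ‖A a b‖ ≤ ρ a * γ b) : ‖A.det‖ ≤ m.factorial * ((∏ a, ρ a) * ∏ b, γ b) := by
  rw [Matrix.det_apply]
  refine (norm_sum_le _ _).trans ?_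
  have h1 : ∀ σ : Equiv.Perm (Fin m), ‖Equiv.Perm.sign σ • ∏ i, A (σ i) i‖ ≤
      (∏ a, ρ a) * ∏ b, γ b := by
    intro σ
    have h2 : ‖Equiv.Perm.sign σ • ∏ i, A (σ i) i‖ = ∏ i, ‖A (σ i) i‖ := by
      rw [← norm_prod]
      rcases Int.units_eq_one_or (Equiv.Perm.sign σ) with h | h
      · rw [h, one_smul]
      · rw [h, Units.neg_smul, one_smul, norm_neg]
    rw [h2, ← Equiv.prod_comp σ ρ, ← Finset.prod_mul_distrib]
    exact Finset.prod_le_prod (fun _ _ => norm_nonneg _) fun i _ => h _ _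
  calc ∑ σ : Equiv.Perm (Fin m), ‖Equiv.Perm.sign σ • ∏ i, A (σ i) i‖ ≤
        ∑ _σ : Equiv.Perm (Fin m), (∏ a, ρ a) * ∏ b, γ b := Finset.sum_le_sum fun σ _ => h1 σ
    _ = _ := by
      rw [Finset.sum_const, Finset.card_univ, Fintype.card_perm, Fintype.card_fin, nsmul_eq_mul]

lemma prod_one_ne {m : ℕ} (k : Fin m) (t : ℝ) :
    ∏ a : Fin m, (if a = k then 1 else t) = t ^ (m - 1) := by
  rw [← Finset.mul_prod_erase Finset.univ _ (Finset.mem_univ k), if_pos rfl, one_mul,
    Finset.prod_congr rfl (g := fun _ => t) (fun a ha => if_neg (Finset.ne_of_mem_erase ha)),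
    Finset.prod_const, Finset.card_erase_of_mem (Finset.mem_univ k), Finset.card_univ,
    Fintype.card_fin]

lemma prod_ne_one {m : ℕ} (k : Fin m) (t : ℝ) :
    ∏ a : Fin m, (if a = k then t else 1) = t := by
  rw [Finset.prod_ite_eq' Finset.univ k (fun _ => t), if_pos (Finset.mem_univ k)]

/-- subtracting one row from the others -/
lemma det_sub_row {m : ℕ} (A : Matrix (Fin m) (Fin m) 𝕜) (k : Fin m) :
    A.det = (Matrix.of fun a b => if a = k then A k b else A a b - A k b).det := by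
  apply Matrix.det_eq_of_forall_row_eq_smul_add_const (fun a => if a = k then 0 else 1) k
  · simp
  · intro i j
    by_cases h : i = k
    · subst h
      simp
    · simp [h]

variable {n : ℕ}

lemma minor_small {m : ℕ} (y : Fin m → Fin n → 𝕜) (z0 : Fin n → 𝕜) (h : ℝ) (_hh : 0 ≤ h)
    (hy : ∀ a, ‖y a - z0‖ ≤ h) (hy1 : ∀ a, ‖y a‖ ≤ 1) (K : Fin m → Fin n) (k : Fin m) :
    ‖mnr y K‖ ≤ m.factorial * (2 * h) ^ (m - 1) := by
  unfold mnr
  rw [det_sub_row _ k]
  refine (norm_det_le _ (fun a => if a = k then 1 else 2 * h) (fun _ => 1) ?_).trans ?_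
  · intro a b
    rw [mul_one, Matrix.of_apply]
    by_cases ha : a = k
    · rw [if_pos ha, if_pos ha]
      exact (norm_le_pi_norm (y k) (K b)).trans (hy1 k)
    · rw [if_neg ha, if_neg ha]
      simp only [Matrix.of_apply]
      have h1 : y a (K b) - y k (K b) = (y a - z0) (K b) - (y k - z0) (K b) := by
        simp
      rw [h1]
      have h2 := (norm_le_pi_norm (y a - z0) (K b)).trans (hy a)
      have h3 := (norm_le_pi_norm (y k - z0) (K b)).trans (hy k)
      have h4 := norm_sub_le ((y a - z0) (K b)) ((y k - z0) (K b))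
      linarith
  · rw [prod_one_ne, Finset.prod_const_one, mul_one]

lemma minor_small_full (y : Fin n → Fin n → 𝕜) (z0 : Fin n → 𝕜) (h : ℝ) (hh : 0 ≤ h)
    (hh1 : h ≤ 1) (hy : ∀ a, ‖y a - z0‖ ≤ h) (hy1 : ∀ a, ‖y a‖ ≤ 1) (K : Fin n → Fin n)
    (k : Fin n) (l : Fin n → 𝕜) (D : ℝ) (hD : 0 ≤ D)
    (hl : ∀ a, ‖∑ i, l i * y a i‖ ≤ D * h ^ 2) :
    ‖l k‖ * ‖mnr y K‖ ≤ n.factorial * ((2 * h) ^ (n - 1) * (D * h)) := by
  by_cases hK : Function.Injective K
  · obtain ⟨b0, hb0⟩ := (Finite.injective_iff_surjective.1 hK) k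
    unfold mnr
    rw [← norm_mul, ← hb0, ← smul_eq_mul]
    rw [← Matrix.det_updateCol_sum (Matrix.of fun a c => y a (K c)) b0 (fun b => l (K b))]
    have hsum : ∀ a, ∑ i, l (K i) • (Matrix.of fun a c => y a (K c)) a i = ∑ i, l i * y a i := by
      intro a
      simp only [Matrix.of_apply, smul_eq_mul]
      exact Function.Bijective.sum_comp ⟨hK, Finite.injective_iff_surjective.1 hK⟩
        (fun i => l i * y a i)
    simp only [hsum]
    rw [det_sub_row _ b0]
    refine (norm_det_le _ (fun a => if a = b0 then 1 else 2 * h)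
      (fun b => if b = b0 then D * h else 1) ?_).trans ?_
    · intro a b
      rw [Matrix.of_apply]
      have hDh : D * h ^ 2 ≤ D * h := by
        apply mul_le_mul_of_nonneg_left _ hD
        nlinarith
      by_cases ha : a = b0
      · rw [if_pos ha, if_pos ha, one_mul]
        by_cases hb : b = b0
        · subst hb
          rw [if_pos rfl, Matrix.updateCol_self]
          exact (hl _).trans hDh
        · rw [if_neg hb, Matrix.updateCol_ne hb, Matrix.of_apply]
          exact (norm_le_pi_norm (y b0) (K b)).trans (hy1 b0)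
      · rw [if_neg ha, if_neg ha]
        by_cases hb : b = b0
        · subst hb
          rw [if_pos rfl, Matrix.updateCol_self, Matrix.updateCol_self]
          have h1 := hl a
          have h2 := hl b
          have h3 := norm_sub_le (∑ i, l i * y a i) (∑ i, l i * y b i)
          have h4 : 2 * h * (D * h) = D * h ^ 2 + D * h ^ 2 := by ring
          rw [h4]
          linarith
        · rw [if_neg hb, Matrix.updateCol_ne hb, Matrix.updateCol_ne hb, mul_one]
          simp only [Matrix.of_apply]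
          have h1 : y a (K b) - y b0 (K b) = (y a - z0) (K b) - (y b0 - z0) (K b) := by
            simp
          rw [h1]
          have h2 := (norm_le_pi_norm (y a - z0) (K b)).trans (hy a)
          have h3 := (norm_le_pi_norm (y b0 - z0) (K b)).trans (hy b0)
          have h4 := norm_sub_le ((y a - z0) (K b)) ((y b0 - z0) (K b))
          linarith
    · rw [prod_one_ne, prod_ne_one]
  · have h0 : mnr y K = 0 := by
      unfold mnr
      rw [Function.Injective] at hK
      push Not at hK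
      obtain ⟨i, j, hij, hne⟩ := hK
      apply Matrix.det_zero_of_column_eq hne
      intro a
      simp [hij]
    rw [h0, norm_zero, mul_zero]
    positivity

end Norm

section Taylor

variable {𝕜 : Type*} [NontriviallyNormedField 𝕜] {n : ℕ}

lemma eval_bdd (G : MvPolynomial (Fin n) 𝕜) : ∃ M : ℝ, 0 ≤ M ∧ ∀ z : Fin n → 𝕜, ‖z‖ ≤ 1 →
    ‖MvPolynomial.eval z G‖ ≤ M := by
  induction G using MvPolynomial.induction_on with
  | C a => exact ⟨‖a‖, norm_nonneg _, fun z _ => by rw [MvPolynomial.eval_C]⟩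
  | add p q hp hq =>
    obtain ⟨M, hM, h⟩ := hp
    obtain ⟨M', hM', h'⟩ := hq
    refine ⟨M + M', by positivity, fun z hz => ?_⟩
    rw [map_add]
    exact (norm_add_le _ _).trans (add_le_add (h z hz) (h' z hz))
  | mul_X p i hp =>
    obtain ⟨M, hM, h⟩ := hp
    refine ⟨M, hM, fun z hz => ?_⟩
    rw [map_mul, MvPolynomial.eval_X, norm_mul]
    have h1 := (norm_le_pi_norm z i).trans hz
    calc ‖MvPolynomial.eval z p‖ * ‖z i‖ ≤ M * 1 :=
          mul_le_mul (h z hz) h1 (norm_nonneg _) hM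
      _ = M := mul_one M

lemma dP_bdd (G : MvPolynomial (Fin n) 𝕜) : ∃ M : ℝ, 0 ≤ M ∧ ∀ z y : Fin n → 𝕜, ‖z‖ ≤ 1 →
    ‖dP G z y‖ ≤ M * ‖y‖ := by
  have h := fun i => eval_bdd (MvPolynomial.pderiv i G)
  choose M hM hM' using h
  refine ⟨∑ i, M i, Finset.sum_nonneg fun i _ => hM i, fun z y hz => ?_⟩
  rw [dP_apply, Finset.sum_mul]
  refine (norm_sum_le _ _).trans (Finset.sum_le_sum fun i _ => ?_)
  rw [norm_mul]
  exact mul_le_mul (hM' i z hz) (norm_le_pi_norm y i) (norm_nonneg _) (hM i)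

lemma taylor2 (G : MvPolynomial (Fin n) 𝕜) : ∃ C : ℝ, 0 ≤ C ∧ ∀ z z0 : Fin n → 𝕜, ‖z‖ ≤ 1 →
    ‖z0‖ ≤ 1 → ‖MvPolynomial.eval z G - MvPolynomial.eval z0 G - dP G z0 (z - z0)‖ ≤
      C * ‖z - z0‖ ^ 2 := by
  induction G using MvPolynomial.induction_on with
  | C a =>
    refine ⟨0, le_rfl, fun z z0 _ _ => ?_⟩
    simp [dP_apply]
  | add p q hp hq =>
    obtain ⟨M, hM, h⟩ := hp
    obtain ⟨M', hM', h'⟩ := hq
    refine ⟨M + M', by positivity, fun z z0 hz hz0 => ?_⟩
    have h1 : dP (p + q) z0 (z - z0) = dP p z0 (z - z0) + dP q z0 (z - z0) := by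
      simp [dP_apply, add_mul, Finset.sum_add_distrib]
    rw [map_add, map_add, h1, add_mul]
    have h2 : MvPolynomial.eval z p + MvPolynomial.eval z q -
        (MvPolynomial.eval z0 p + MvPolynomial.eval z0 q) -
        (dP p z0 (z - z0) + dP q z0 (z - z0)) =
        (MvPolynomial.eval z p - MvPolynomial.eval z0 p - dP p z0 (z - z0)) +
        (MvPolynomial.eval z q - MvPolynomial.eval z0 q - dP q z0 (z - z0)) := by ring
    rw [h2]
    exact (norm_add_le _ _).trans (add_le_add (h z z0 hz hz0) (h' z z0 hz hz0))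
  | mul_X p i hp =>
    obtain ⟨M, hM, h⟩ := hp
    obtain ⟨M', hM', h'⟩ := dP_bdd p
    refine ⟨M + M', by positivity, fun z z0 hz hz0 => ?_⟩
    have h1 : dP (p * MvPolynomial.X i) z0 (z - z0) =
        MvPolynomial.eval z0 p * (z i - z0 i) + z0 i * dP p z0 (z - z0) := by
      simp only [dP_apply, Derivation.leibniz, smul_eq_mul, map_add, map_mul,
        MvPolynomial.eval_X, MvPolynomial.pderiv_X, add_mul, Finset.sum_add_distrib]
      congr 1
      · rw [Finset.sum_eq_single i]
        · simp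
        · intro j _ hj
          simp [hj.symm]
        · simp
      · rw [Finset.mul_sum]
        refine Finset.sum_congr rfl fun j _ => by ring
    rw [map_mul, map_mul, MvPolynomial.eval_X, MvPolynomial.eval_X, h1]
    have h2 : MvPolynomial.eval z p * z i - MvPolynomial.eval z0 p * z0 i -
        (MvPolynomial.eval z0 p * (z i - z0 i) + z0 i * dP p z0 (z - z0)) =
        z i * (MvPolynomial.eval z p - MvPolynomial.eval z0 p - dP p z0 (z - z0)) +
        (z i - z0 i) * dP p z0 (z - z0) := by ring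
    rw [h2, add_mul]
    refine (norm_add_le _ _).trans (add_le_add ?_ ?_)
    · rw [norm_mul]
      have h3 := (norm_le_pi_norm z i).trans hz
      have h4 := h z z0 hz hz0
      calc ‖z i‖ * ‖MvPolynomial.eval z p - MvPolynomial.eval z0 p - dP p z0 (z - z0)‖ ≤
            1 * (M * ‖z - z0‖ ^ 2) := mul_le_mul h3 h4 (norm_nonneg _) zero_le_one
        _ = _ := one_mul _
    · rw [norm_mul]
      have h3 : ‖z i - z0 i‖ ≤ ‖z - z0‖ := norm_le_pi_norm (z - z0) i
      have h4 := h' z0 (z - z0) hz0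
      calc ‖z i - z0 i‖ * ‖dP p z0 (z - z0)‖ ≤ ‖z - z0‖ * (M' * ‖z - z0‖) :=
            mul_le_mul h3 h4 (norm_nonneg _) (norm_nonneg _)
        _ = _ := by ring

/-- Euler's identity -/
lemma euler (G : MvPolynomial (Fin n) 𝕜) (d : ℕ) (hG : G.IsHomogeneous d) (z : Fin n → 𝕜) :
    ∑ i, MvPolynomial.eval z (MvPolynomial.pderiv i G) * z i = d * MvPolynomial.eval z G := by
  have h := hG.sum_X_mul_pderiv
  have h1 := congrArg (MvPolynomial.eval z) h
  rw [map_sum] at h1
  simp only [map_mul, MvPolynomial.eval_X, nsmul_eq_mul, map_natCast] at h1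
  rw [← h1]
  refine Finset.sum_congr rfl fun i _ => by ring

end Taylor

end Pool.Agent.H41N.VP
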