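import Pool.Agent.H41N.VP.Near
import Pool.Agent.TH42.NC.Shell
import Pool.Agent.H951R3.W.W2

set_option autoImplicit false

/-!
The exceptional points in a dyadic shell, off the hyperplanes of small height.
-/

namespace Pool.Agent.H41N.VP

open Pool.Agent.TH42.NC

section

variable {S : Finset ℕ}

lemma vabs_nonneg (v : Option {p // p ∈ S}) (z : ℤ) : 0 ≤ vabs v z := by
  cases v with
  | none => exact abs_nonneg _
  | some p =>
    show (0 : ℝ) ≤ (padicNorm p.1 (z : ℚ) : ℝ)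
    exact_mod_cast padicNorm.nonneg _

lemma vabs_zero (v : Option {p // p ∈ S}) : vabs v 0 = 0 := by
  cases v with
  | none => simp [vabs]
  | some p => simp [vabs]

lemma vabs_pos (hS : ∀ p ∈ S, p.Prime) (v : Option {p // p ∈ S}) {z : ℤ} (hz : z ≠ 0) :
    0 < vabs v z := by
  cases v with
  | none => exact abs_pos.2 (by exact_mod_cast hz)
  | some p =>
    exact Pool.Agent.H951R3.W.padicNorm_pos' p.1 (hS p.1 p.2) (by exact_mod_cast hz)

lemma vabs_le_one (hS : ∀ p ∈ S, p.Prime) (p : {p // p ∈ S}) (z : ℤ) : vabs (some p) z ≤ 1 := by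
  have : Fact p.1.Prime := ⟨hS p.1 p.2⟩
  show (padicNorm p.1 (z : ℚ) : ℝ) ≤ 1
  exact_mod_cast padicNorm.of_int z

lemma log_vabs (hS : ∀ p ∈ S, p.Prime) (p : {p // p ∈ S}) {z : ℤ} (hz : z ≠ 0) :
    Real.log (1 / vabs (some p) z) = (padicValInt p.1 z : ℝ) * Real.log p.1 := by
  have : Fact p.1.Prime := ⟨hS p.1 p.2⟩
  have h1 : vabs (some p) z = ((p.1 : ℝ) ^ padicValInt p.1 z)⁻¹ := by
    show (padicNorm p.1 (z : ℚ) : ℝ) = _
    have hzq : (z : ℚ) ≠ 0 := by exact_mod_cast hz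
    rw [padicNorm.eq_zpow_of_nonzero hzq, padicValRat.of_int]
    push_cast
    rw [zpow_neg, zpow_natCast]
  rw [h1, one_div, inv_inv, Real.log_pow]

lemma exists_argmax (hS : ∀ p ∈ S, p.Prime) {n : ℕ} (x : Fin n → ℤ) (hx : Prim x)
    (v : Option {p // p ∈ S}) :
    ∃ i0, x i0 ≠ 0 ∧ (∀ i, vabs v (x i) ≤ vabs v (x i0)) ∧
      (∀ p, v = some p → vabs v (x i0) = 1) := by
  classical
  have hx0 : ∃ i, x i ≠ 0 := by
    by_contra h
    push Not at h
    have h1 : Finset.univ.gcd x = 0 := by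
      rw [Finset.gcd_eq_zero_iff]
      intro i _
      exact h i
    unfold Prim at hx
    rw [hx] at h1
    exact one_ne_zero h1
  obtain ⟨i1, hi1⟩ := hx0
  obtain ⟨i0, _, hmax⟩ := Finset.exists_max_image Finset.univ (fun i => vabs v (x i))
    ⟨i1, Finset.mem_univ _⟩
  refine ⟨i0, ?_, fun i => hmax i (Finset.mem_univ i), ?_⟩
  · intro h0
    have h1 := hmax i1 (Finset.mem_univ i1)
    simp only [h0, vabs_zero] at h1
    have h2 := vabs_pos hS v hi1
    linarith
  · rintro p rfl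
    apply le_antisymm (vabs_le_one hS p _)
    obtain ⟨i, hi⟩ := prim_not_dvd hx (hS p.1 p.2)
    have : Fact p.1.Prime := ⟨hS p.1 p.2⟩
    have h1 : vabs (some p) (x i) = 1 := by
      show (padicNorm p.1 (x i : ℚ) : ℝ) = 1
      have h2 : padicNorm p.1 (x i : ℚ) = 1 := padicNorm.int_eq_one_iff (x i) |>.2 hi
      rw [h2]
      norm_num
    rw [← h1]
    exact hmax i (Finset.mem_univ i)

lemma prox_eq (hS : ∀ p ∈ S, p.Prime) {n q : ℕ} (F : Fin q → MvPolynomial (Fin n) ℤ)
    (d : Fin q → ℕ) (H : ℝ) (x : Fin n → ℤ) (hne : ∀ j, MvPolynomial.eval x (F j) ≠ 0)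
    (i0 : Option {p // p ∈ S} → Fin n) (h0 : |(x (i0 none) : ℝ)| = H)
    (hp : ∀ p, vabs (some p) (x (i0 (some p))) = 1) :
    prox F d S H x = ∑ v, ∑ j, Real.log (vabs v (x (i0 v)) ^ d j /
      vabs v (MvPolynomial.eval x (F j))) := by
  unfold prox
  rw [Finset.sum_comm]
  refine Finset.sum_congr rfl fun j _ => ?_
  rw [Fintype.sum_option]
  congr 1
  · rw [← h0]
    rfl
  · rw [← Finset.sum_coe_sort S]
    refine Finset.sum_congr rfl fun p _ => ?_
    rw [hp p, one_pow, log_vabs hS p (hne j)]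

end

theorem shell_off {n q : ℕ} (hn : 2 ≤ n) (hq : 1 ≤ q) (F : Fin q → MvPolynomial (Fin n) ℤ)
    (d : Fin q → ℕ) (hF : ∀ j, (F j).IsHomogeneous (d j)) (S : Finset ℕ)
    (hS : ∀ p ∈ S, p.Prime) (hsm : ∀ j, ∀ v : Option {p // p ∈ S}, SmoothV hS (F j) v)
    (r : ℕ) (hr1 : 1 ≤ r) (hr : ∀ v, AtMostV hS F r v) (κ c0 δ : ℝ) (hκ : 0 ≤ κ) (hδ : 0 < δ) :
    ∃ C : ℝ, 1 ≤ C ∧ ∀ (B θ : ℝ), 2 ≤ B → ∀ X : Finset (Fin n → ℤ),
      (∀ x ∈ X, Prim x ∧ (∀ j, MvPolynomial.eval x (F j) ≠ 0) ∧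
        (∃ H : ℝ, 1 ≤ H ∧ B / 2 ≤ H ∧ H ≤ B ∧ (∀ i, |(x i : ℝ)| ≤ H) ∧
          (∃ i, H ≤ |(x i : ℝ)|) ∧ κ * Real.log H + c0 ≤ prox F d S H x) ∧
        ∀ c : Fin n → ℤ, c ≠ 0 → (∀ i, |(c i : ℝ)| ≤ C * B ^ θ) → ∑ i, c i * x i ≠ 0) →
      (X.card : ℝ) ≤ C * (B ^ ((n : ℝ) - 1 - min (κ / r - 1) 1 + δ) +
        B ^ ((n : ℝ) - 1 - θ)) := by
  classical
  obtain ⟨C1, hC1, hclass⟩ := class_count hn F d hF S hS hsm
  have hnear := fun (v : Option {p // p ∈ S}) (i0 : Fin n) => nearV hS v F d hF hq r (hr v) i0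
  choose Cn hCn0 hCn using hnear
  set C2 : ℝ := ∑ v, ∑ i0, Cn v i0 with hC2
  have hC20 : 0 ≤ C2 := Finset.sum_nonneg fun v _ => Finset.sum_nonneg fun i0 _ => hCn0 v i0
  have hlog2 : 0 < Real.log 2 := Real.log_pos (by norm_num)
  set s : ℕ := Fintype.card (Option {p // p ∈ S}) with hs
  set C3 : ℝ := κ * Real.log 2 + |c0| + C2 with hC3
  have hC30 : 0 ≤ C3 := by positivity
  have hrR : (1 : ℝ) ≤ r := by exact_mod_cast hr1
  have hr0 : (0 : ℝ) < r := by linarith
  set δ1 : ℝ := δ / 4 with hδ1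
  have hδ10 : 0 < δ1 := by positivity
  obtain ⟨K, hK⟩ := exists_nat_gt (max (2 * s / δ1) (1 / δ1))
  have hK1' := (le_max_left _ _).trans_lt hK
  have hK2' := (le_max_right _ _).trans_lt hK
  have hK0 : (0 : ℝ) < K := lt_of_le_of_lt (by positivity) hK2'
  have hK1 : 1 ≤ K := by exact_mod_cast hK0
  have hKs : (s : ℝ) ≤ K * δ1 / 2 := by
    rw [div_lt_iff₀ hδ10] at hK1'
    linarith
  have hKd : 1 / (K : ℝ) ≤ δ1 := by
    rw [div_lt_iff₀ hδ10] at hK2'
    rw [div_le_iff₀ hK0]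
    linarith
  set ls : ℝ := min (κ / (2 * r)) 1 with hls
  have hls1 : ls ≤ 1 := min_le_right _ _
  set t : ℕ := ⌊(K : ℝ) * (ls - δ1)⌋₊ with ht
  have htK : t ≤ K := by
    rw [ht]
    apply Nat.floor_le_of_le
    nlinarith
  have htlow : ls - δ1 - 1 / K ≤ (t : ℝ) / K := by
    have h1 := Nat.lt_floor_add_one ((K : ℝ) * (ls - δ1))
    rw [← ht] at h1
    rw [le_div_iff₀ hK0]
    have h2 : (ls - δ1 - 1 / K) * K = K * (ls - δ1) - 1 := by
      field_simp
    rw [h2]
    linarith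
  set B0 : ℝ := Real.exp (C3 / (r * δ1)) with hB0d
  have hB01 : 1 ≤ B0 := Real.one_le_exp (by positivity)
  set C4 : ℝ := (n : ℝ) ^ s * q ^ s * (K + 1) ^ s * C1 with hC4
  refine ⟨C1 + C4 + (2 * B0 + 1) ^ n, ?_, ?_⟩
  · have h1 : 0 ≤ C4 := by positivity
    have h2 : 0 ≤ (2 * B0 + 1) ^ n := by positivity
    linarith
  intro B θ hB X hX
  have hBpos : 0 < B := by linarith
  have hB1 : 1 ≤ B := by linarith
  have hL : 0 < Real.log B := Real.log_pos (by linarith)
  have hexp0 : 0 ≤ (n : ℝ) - 1 - min (κ / r - 1) 1 + δ := by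
    have h1 : (2 : ℝ) ≤ n := by exact_mod_cast hn
    have h2 : min (κ / r - 1) 1 ≤ 1 := min_le_right _ _
    linarith
  have hE1 : 1 ≤ B ^ ((n : ℝ) - 1 - min (κ / r - 1) 1 + δ) := Real.one_le_rpow hB1 hexp0
  have hE2 : 0 < B ^ ((n : ℝ) - 1 - θ) := Real.rpow_pos_of_pos hBpos _
  set E : ℝ := B ^ ((n : ℝ) - 1 - min (κ / r - 1) 1 + δ) + B ^ ((n : ℝ) - 1 - θ) with hE
  have hC10 : 0 < C1 := by linarith
  have hC40 : 0 ≤ C4 := by positivity
  by_cases hBsmall : B < B0
  · -- few points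
    have h1 : X ⊆ Fintype.piFinset (fun _ : Fin n => Finset.Icc (-⌊B⌋) ⌊B⌋) := by
      intro x hx
      rw [Fintype.mem_piFinset]
      intro i
      obtain ⟨_, _, ⟨H, _, _, hHB, hxH, _⟩, _⟩ := hX x hx
      rw [Finset.mem_Icc, ← abs_le, Int.le_floor]
      push_cast
      exact (hxH i).trans hHB
    have h2 := Finset.card_le_card h1
    rw [Fintype.card_piFinset, Finset.prod_const, Finset.card_univ, Fintype.card_fin,
      Int.card_Icc] at h2
    have h0 : 0 ≤ ⌊B⌋ := Int.floor_nonneg.2 hBpos.le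
    have h3 : (((⌊B⌋ + 1 - -⌊B⌋).toNat : ℕ) : ℝ) ≤ 2 * B0 + 1 := by
      have h4 : (((⌊B⌋ + 1 - -⌊B⌋).toNat : ℕ) : ℤ) = ⌊B⌋ + 1 - -⌊B⌋ :=
        Int.toNat_of_nonneg (by omega)
      have h5 : (((⌊B⌋ + 1 - -⌊B⌋).toNat : ℕ) : ℝ) = ((⌊B⌋ + 1 - -⌊B⌋ : ℤ) : ℝ) := by
        exact_mod_cast h4
      rw [h5]
      push_cast
      have h6 := Int.floor_le B
      linarith
    have h4 : (X.card : ℝ) ≤ (2 * B0 + 1) ^ n := by
      calc (X.card : ℝ) ≤ (((⌊B⌋ + 1 - -⌊B⌋).toNat ^ n : ℕ) : ℝ) := by exact_mod_cast h2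
        _ = (((⌊B⌋ + 1 - -⌊B⌋).toNat : ℕ) : ℝ) ^ n := by push_cast; rfl
        _ ≤ _ := pow_le_pow_left₀ (by positivity) h3 n
    calc (X.card : ℝ) ≤ (2 * B0 + 1) ^ n * 1 := by rw [mul_one]; exact h4
      _ ≤ (C1 + C4 + (2 * B0 + 1) ^ n) * E := by
        apply mul_le_mul _ _ zero_le_one (by positivity)
        · linarith
        · linarith
  push Not at hBsmall
  have hLB : C3 / (r * δ1) ≤ Real.log B := by
    have h1 := Real.log_le_log (Real.exp_pos _) hBsmall
    rw [Real.log_exp] at h1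
    exact h1
  -- the class of a point
  have hcls : ∀ x ∈ X, ∃ (i0 : Option {p // p ∈ S} → Fin n) (j : Option {p // p ∈ S} → Fin q)
      (k : Option {p // p ∈ S} → ℕ), (∀ v, x (i0 v) ≠ 0 ∧
        (∀ i, vabs v (x i) ≤ vabs v (x (i0 v))) ∧
        (B ^ (-((k v : ℝ) / K)) < 1 → vabs v (MvPolynomial.eval x (F (j v))) ≤
          (B ^ (-((k v : ℝ) / K))) ^ 2 * vabs v (x (i0 v)) ^ d (j v))) ∧
      |(x (i0 none) : ℝ)| ≤ B ∧ ∑ v, k v = t := by
    intro x hx
    obtain ⟨hprim, hne, ⟨H, hH1, hHB, hHB', hxH, ⟨i1, hi1⟩, hprox⟩, _⟩ := hX x hx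
    have h1 := fun v => exists_argmax hS x hprim v
    choose i0 hi00 hi0max hi0p using h1
    have h0H : |(x (i0 none) : ℝ)| = H := by
      apply le_antisymm (hxH _)
      have h2 := hi0max none i1
      exact hi1.trans h2
    have h2 := fun v => hCn v (i0 v) x (hi00 v) (hi0max v) hne
    choose j hj using h2
    set a : Option {p // p ∈ S} → ℝ := fun v =>
      Real.log (vabs v (x (i0 v)) ^ d (j v) / vabs v (MvPolynomial.eval x (F (j v)))) with ha
    set Λ : Option {p // p ∈ S} → ℝ := fun v => max (a v) 0 with hΛ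
    have hΛ0 : ∀ v, 0 ≤ Λ v := fun v => le_max_right _ _
    have hpr := prox_eq hS F d H x hne i0 h0H (fun p => hi0p (some p) p rfl)
    have hsum1 : prox F d S H x ≤ r * ∑ v, Λ v + C2 := by
      rw [hpr, Finset.mul_sum, hC2, ← Finset.sum_add_distrib]
      apply Finset.sum_le_sum
      intro v _
      refine (hj v).trans ?_
      have h3 : Cn v (i0 v) ≤ ∑ i0, Cn v i0 :=
        Finset.single_le_sum (f := fun i0 => Cn v i0) (fun i0 _ => hCn0 v i0) (Finset.mem_univ _)
      exact add_le_add le_rfl h3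
    have hlogH : Real.log B - Real.log 2 ≤ Real.log H := by
      rw [← Real.log_div hBpos.ne' (by norm_num)]
      exact Real.log_le_log (by positivity) hHB
    have hsum2 : κ * Real.log B - C3 ≤ r * ∑ v, Λ v := by
      have h3 := mul_le_mul_of_nonneg_left hlogH hκ
      have h4 : -|c0| ≤ c0 := neg_abs_le c0
      rw [hC3]
      linarith
    set k' : Option {p // p ∈ S} → ℕ := fun v => ⌊(K : ℝ) * Λ v / (2 * Real.log B)⌋₊ with hk'
    obtain ⟨k, hk1, hk2⟩ := exists_lower' t k'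
    have hk't : t ≤ ∑ v, k' v := by
      rw [ht]
      apply Nat.floor_le_of_le
      push_cast
      have h3 : ∑ v, ((K : ℝ) * Λ v / (2 * Real.log B) - 1) ≤ ∑ v, (k' v : ℝ) :=
        Finset.sum_le_sum fun v _ => by
          have := Nat.lt_floor_add_one ((K : ℝ) * Λ v / (2 * Real.log B))
          simp only [hk']
          linarith
      rw [Finset.sum_sub_distrib, ← Finset.sum_div, ← Finset.mul_sum] at h3
      simp only [Finset.sum_const, Finset.card_univ, nsmul_eq_mul, mul_one] at h3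
      rw [← hs] at h3
      refine le_trans ?_ h3
      have h4 : κ / (2 * r) - δ1 / 2 ≤ (∑ v, Λ v) / (2 * Real.log B) := by
        rw [le_div_iff₀ (by positivity)]
        have h5 : C3 ≤ Real.log B * (r * δ1) := by
          rwa [div_le_iff₀ (by positivity)] at hLB
        have h6 : r * ((κ / (2 * r) - δ1 / 2) * (2 * Real.log B)) =
            κ * Real.log B - Real.log B * (r * δ1) := by
          field_simp
        have h7 : r * ((κ / (2 * r) - δ1 / 2) * (2 * Real.log B)) ≤ r * ∑ v, Λ v := by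
          rw [h6]
          linarith
        exact le_of_mul_le_mul_left h7 hr0
      have h5 : (K : ℝ) * (κ / (2 * r) - δ1 / 2) ≤ K * ((∑ v, Λ v) / (2 * Real.log B)) :=
        mul_le_mul_of_nonneg_left h4 hK0.le
      have h6 : (K : ℝ) * ls ≤ K * (κ / (2 * r)) :=
        mul_le_mul_of_nonneg_left (min_le_left _ _) hK0.le
      have h7 : (K : ℝ) * ((∑ v, Λ v) / (2 * Real.log B)) =
          K * (∑ v, Λ v) / (2 * Real.log B) := by ring
      rw [← h7]
      linarith
    rw [min_eq_left hk't] at hk2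
    refine ⟨i0, j, k, ?_, by rw [h0H]; exact hHB', hk2⟩
    intro v
    refine ⟨hi00 v, hi0max v, ?_⟩
    intro hlt
    have hkv : 1 ≤ k v := by
      by_contra hcon
      have h3 : k v = 0 := by omega
      rw [h3] at hlt
      simp at hlt
    have h3 : ((k v : ℕ) : ℝ) ≤ (K : ℝ) * Λ v / (2 * Real.log B) := by
      have h4 : ((k v : ℕ) : ℝ) ≤ (k' v : ℝ) := by exact_mod_cast hk1 v
      exact h4.trans (Nat.floor_le (by have := hΛ0 v; positivity))
    have hΛpos : 0 < Λ v := by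
      by_contra hcon
      have h4 : Λ v = 0 := le_antisymm (not_lt.1 hcon) (hΛ0 v)
      rw [h4, mul_zero, zero_div] at h3
      have h5 : (1 : ℝ) ≤ k v := by exact_mod_cast hkv
      linarith
    have hΛa : Λ v = a v := by
      simp only [hΛ] at hΛpos ⊢
      rcases le_total (a v) 0 with h4 | h4
      · rw [max_eq_right h4] at hΛpos
        exact absurd hΛpos (lt_irrefl _)
      · exact max_eq_left h4
    have hxi : 0 < vabs v (x (i0 v)) := vabs_pos hS v (hi00 v)
    have hFj : 0 < vabs v (MvPolynomial.eval x (F (j v))) := vabs_pos hS v (hne _)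
    have h4 : 2 * ((k v : ℝ) / K * Real.log B) ≤ a v := by
      rw [← hΛa]
      rw [le_div_iff₀ (by positivity)] at h3
      have h5 : 2 * ((k v : ℝ) / K * Real.log B) = (k v * (2 * Real.log B)) / K := by ring
      rw [h5, div_le_iff₀ hK0]
      linarith
    have h5 := Real.exp_le_exp.2 h4
    simp only [ha] at h5
    rw [Real.exp_log (by positivity), le_div_iff₀ hFj] at h5
    have h6 : (B ^ (-((k v : ℝ) / K))) ^ 2 =
        (Real.exp (2 * ((k v : ℝ) / K * Real.log B)))⁻¹ := by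
      rw [Real.rpow_def_of_pos hBpos, ← Real.exp_nat_mul, ← Real.exp_neg]
      congr 1
      push_cast
      ring
    rw [h6]
    have h7 : 0 < Real.exp (2 * ((k v : ℝ) / K * Real.log B)) := Real.exp_pos _
    calc vabs v (MvPolynomial.eval x (F (j v))) =
          (Real.exp (2 * ((k v : ℝ) / K * Real.log B)))⁻¹ *
            (Real.exp (2 * ((k v : ℝ) / K * Real.log B)) *
              vabs v (MvPolynomial.eval x (F (j v)))) := by field_simp
      _ ≤ _ := mul_le_mul_of_nonneg_left h5 (by positivity)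
  have : Nonempty (Fin n) := ⟨⟨0, by omega⟩⟩
  have : Nonempty (Fin q) := ⟨⟨0, by omega⟩⟩
  choose! i0 j k hc1 hc2 hc3 using hcls
  -- classification
  set tgt : Finset (((Option {p // p ∈ S} → Fin n) × (Option {p // p ∈ S} → Fin q)) ×
      (Option {p // p ∈ S} → ℕ)) :=
    Finset.univ ×ˢ Fintype.piFinset (fun _ => Finset.range (K + 1)) with htgt
  set cls : (Fin n → ℤ) → ((Option {p // p ∈ S} → Fin n) × (Option {p // p ∈ S} → Fin q)) ×
      (Option {p // p ∈ S} → ℕ) := fun x => ((i0 x, j x), k x) with hclsd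
  have hmaps : ∀ x ∈ X, cls x ∈ tgt := by
    intro x hx
    rw [htgt, Finset.mem_product]
    refine ⟨Finset.mem_univ _, ?_⟩
    rw [Fintype.mem_piFinset]
    intro v
    rw [Finset.mem_range]
    show k x v < K + 1
    have h1 : k x v ≤ ∑ v, k x v :=
      Finset.single_le_sum (f := fun v => k x v) (fun _ _ => Nat.zero_le _) (Finset.mem_univ v)
    rw [hc3 x hx] at h1
    omega
  have htgtc : (tgt.card : ℝ) = (n : ℝ) ^ s * q ^ s * (K + 1) ^ s := by
    rw [htgt, Finset.card_product, Finset.card_univ, Fintype.card_prod, Fintype.card_fun,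
      Fintype.card_fun, Fintype.card_fin, Fintype.card_fin, Fintype.card_piFinset,
      Finset.prod_const, Finset.card_range, Finset.card_univ, ← hs]
    push_cast
    ring
  have hfib : ∀ b ∈ tgt, (((X.filter (fun x => cls x = b)).card : ℕ) : ℝ) ≤ C1 * E := by
    intro b _
    rcases (X.filter (fun x => cls x = b)).eq_empty_or_nonempty with he | ⟨x0, hx0⟩
    · rw [he, Finset.card_empty, Nat.cast_zero]
      positivity
    obtain ⟨hx0X, hx0b⟩ := Finset.mem_filter.1 hx0
    obtain ⟨⟨bi, bj⟩, bk⟩ := b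
    have hbk : ∑ v, bk v = t := by
      have h1 : k x0 = bk := congrArg Prod.snd hx0b
      rw [← h1]
      exact hc3 x0 hx0X
    have hprodB : ∏ v, B ^ (-((bk v : ℝ) / K)) = B ^ (-((t : ℝ) / K)) := by
      rw [← Real.rpow_sum_of_pos hBpos]
      congr 1
      rw [Finset.sum_neg_distrib, ← Finset.sum_div, ← hbk]
      push_cast
      rfl
    have htK' : (t : ℝ) / K ≤ 1 := by
      rw [div_le_one hK0]
      exact_mod_cast htK
    have h1 := hclass B θ (fun v => B ^ (-((bk v : ℝ) / K))) bi bj hB1 (fun v => by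
      refine ⟨Real.rpow_pos_of_pos hBpos _, ?_⟩
      apply Real.rpow_le_one_of_one_le_of_nonpos hB1
      have : 0 ≤ (bk v : ℝ) / K := by positivity
      linarith) (by
      rw [hprodB]
      have h2 : B * B ^ (-((t : ℝ) / K)) = B ^ (1 + -((t : ℝ) / K)) := by
        rw [Real.rpow_add hBpos, Real.rpow_one]
      rw [h2]
      exact Real.one_le_rpow hB1 (by linarith)) (X.filter (fun x => cls x = ((bi, bj), bk))) (by
      intro x hx
      obtain ⟨hxX, hxb⟩ := Finset.mem_filter.1 hx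
      have e1 : i0 x = bi := congrArg (fun z => z.1.1) hxb
      have e2 : j x = bj := congrArg (fun z => z.1.2) hxb
      have e3 : k x = bk := congrArg Prod.snd hxb
      have h2 := hc1 x hxX
      have h3 := hc2 x hxX
      rw [e1] at h3
      rw [e1, e2, e3] at h2
      obtain ⟨_, _, _, h4⟩ := hX x hxX
      refine ⟨h2, h3, fun p => vabs_le_one hS p _, ?_⟩
      intro c hc hcB
      apply h4 c hc
      intro i
      refine (hcB i).trans ?_
      apply mul_le_mul_of_nonneg_right _ (by positivity)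
      have : 0 ≤ (2 * B0 + 1) ^ n := by positivity
      linarith)
    refine h1.trans ?_
    apply mul_le_mul_of_nonneg_left _ hC10.le
    rw [hprodB, hE]
    apply add_le_add _ le_rfl
    have h2 : B ^ n * (B ^ (-((t : ℝ) / K))) ^ 2 = B ^ ((n : ℝ) - 2 * ((t : ℝ) / K)) := by
      rw [← Real.rpow_natCast B n, ← Real.rpow_natCast (B ^ (-((t : ℝ) / K))) 2,
        ← Real.rpow_mul hBpos.le, ← Real.rpow_add hBpos]
      congr 1
      push_cast
      ring
    rw [h2]
    apply Real.rpow_le_rpow_of_exponent_le hB1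
    have h3 : 2 * ls = 1 + min (κ / r - 1) 1 := by
      rw [hls]
      rcases le_total (κ / (2 * r)) 1 with h | h
      · have h4 : κ / r - 1 ≤ 1 := by
          have h5 : κ / r = 2 * (κ / (2 * r)) := by field_simp
          rw [h5]
          linarith
        rw [min_eq_left h, min_eq_left h4]
        field_simp
        ring
      · have h4 : 1 ≤ κ / r - 1 := by
          have h5 : κ / r = 2 * (κ / (2 * r)) := by field_simp
          rw [h5]
          linarith
        rw [min_eq_right h, min_eq_right h4]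
        ring
    rw [hδ1] at htlow hKd
    linarith
  have hcard : (X.card : ℝ) ≤ tgt.card * (C1 * E) := by
    have h1 := Finset.card_eq_sum_card_fiberwise (f := cls) (s := X) (t := tgt)
      (fun x hx => hmaps x hx)
    rw [h1]
    push_cast
    calc ∑ c ∈ tgt, (((X.filter (fun x => cls x = c)).card : ℕ) : ℝ) ≤ ∑ _c ∈ tgt, C1 * E :=
          Finset.sum_le_sum hfib
      _ = tgt.card * (C1 * E) := by rw [Finset.sum_const, nsmul_eq_mul]
  rw [htgtc] at hcard
  refine hcard.trans ?_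
  have hE0 : 0 ≤ E := by positivity
  calc (n : ℝ) ^ s * q ^ s * (K + 1) ^ s * (C1 * E) = C4 * E := by rw [hC4]; ring
    _ ≤ (C1 + C4 + (2 * B0 + 1) ^ n) * E := by
      apply mul_le_mul_of_nonneg_right _ hE0
      have : 0 ≤ (2 * B0 + 1) ^ n := by positivity
      linarith

end Pool.Agent.H41N.VP
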