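import Pool.Agent.H41N.VP.Shell2
import Pool.Agent.H41N.VP.Hyp

set_option autoImplicit false

/-!
The exceptional points in a dyadic shell.
-/

namespace Pool.Agent.H41N.VP

open Pool.Agent.TH42.NC

lemma padic_prod_eq {S : Finset ℕ} (hS : ∀ p ∈ S, p.Prime) {z : ℤ} (hz : z ≠ 0) :
    Real.log (|(z : ℝ)| * ∏ p ∈ S, (padicNorm p (z : ℚ) : ℝ)) =
      Real.log |(z : ℝ)| - ∑ p ∈ S, (padicValInt p z : ℝ) * Real.log p := by
  classical
  have h1 : ∀ p ∈ S, (padicNorm p (z : ℚ) : ℝ) ≠ 0 := fun p hp =>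
    (Pool.Agent.H951R3.W.padicNorm_pos' p (hS p hp) (by exact_mod_cast hz)).ne'
  have h2 : (|(z : ℝ)|) ≠ 0 := abs_ne_zero.2 (by exact_mod_cast hz)
  rw [Real.log_mul h2 (Finset.prod_ne_zero_iff.2 h1), Real.log_prod h1, sub_eq_add_neg,
    ← Finset.sum_neg_distrib]
  congr 1
  refine Finset.sum_congr rfl fun p hp => ?_
  have h3 := log_vabs hS ⟨p, hp⟩ hz
  have h4 : vabs (some (⟨p, hp⟩ : {p // p ∈ S})) z = (padicNorm p (z : ℚ) : ℝ) := rfl
  rw [h4, one_div, Real.log_inv] at h3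
  linarith

theorem shell_on {M q : ℕ} (hq : 1 ≤ q) (F : Fin q → MvPolynomial (Fin (M + 2)) ℤ)
    (d : Fin q → ℕ) (hd : ∀ j, 1 ≤ d j) (hF : ∀ j, (F j).IsHomogeneous (d j)) (S : Finset ℕ)
    (hS : ∀ p ∈ S, p.Prime) (κ c0 δ C1 : ℝ) (hκ : 0 ≤ κ) (hδ : 0 < δ) (hC1 : 1 ≤ C1) :
    ∃ C : ℝ, 1 ≤ C ∧ ∀ (B θ : ℝ), 2 ≤ B → 0 ≤ θ → θ ≤ 1 → ∀ X : Finset (Fin (M + 2) → ℤ),
      (∀ x ∈ X, (∀ j, MvPolynomial.eval x (F j) ≠ 0) ∧
        (∃ H : ℝ, 1 ≤ H ∧ H ≤ B ∧ (∀ i, |(x i : ℝ)| ≤ H) ∧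
          κ * Real.log H + c0 ≤ prox F d S H x) ∧
        ∃ c : Fin (M + 2) → ℤ, c ≠ 0 ∧ (∀ i, |(c i : ℝ)| ≤ C1 * B ^ θ) ∧ ∑ i, c i * x i = 0) →
      (X.card : ℝ) ≤ C * B ^ (((M + 1 : ℕ) : ℝ) + ((M + 3 : ℕ) : ℝ) * θ -
        min (κ / ((∑ j, d j : ℕ) : ℝ)) 1 + δ) := by
  classical
  set D : ℕ := ∑ j, d j with hD
  have hD1 : 1 ≤ D := by
    rw [hD]
    calc 1 ≤ d ⟨0, hq⟩ := hd _
      _ ≤ ∑ j, d j := Finset.single_le_sum (f := d) (fun _ _ => Nat.zero_le _) (Finset.mem_univ _)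
  have hDR : (0 : ℝ) < D := by exact_mod_cast hD1
  have hDne : (D : ℝ) ≠ 0 := hDR.ne'
  have hFh : (∏ j, F j).IsHomogeneous D :=
    MvPolynomial.IsHomogeneous.prod Finset.univ F d fun j _ => hF j
  obtain ⟨C2, hC2, hhyp⟩ := hyp_count M D hD1 S hS (∏ j, F j) hFh (δ / 2) (by positivity)
  set μ : ℝ := min (κ / (D : ℝ)) 1 with hμ
  have hμ1 : μ ≤ 1 := min_le_right _ _
  have hμ0 : 0 ≤ μ := le_min (by positivity) zero_le_one
  set E0 : ℝ := Real.exp (-c0) with hE0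
  have hE0p : 0 < E0 := Real.exp_pos _
  set A : ℝ := C2 * (C1 ^ (M + 2) * C1 ^ (δ / 2) * (1 + C1 * E0 ^ ((1 : ℝ) / D))) with hA
  have hA0 : 0 ≤ A := by positivity
  refine ⟨1 + A, by linarith, ?_⟩
  intro B θ hB hθ0 hθ1 X hX
  have hB0 : 0 < B := by linarith
  have hB1 : 1 ≤ B := by linarith
  have hBθ : 1 ≤ B ^ θ := Real.one_le_rpow hB1 hθ0
  set Y : ℝ := C1 * B ^ θ with hY
  have hY1 : 1 ≤ Y := one_le_mul_of_one_le_of_one_le hC1 hBθ
  set T : ℝ := E0 * B ^ ((D : ℝ) * (1 - μ)) with hT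
  have hT0 : 0 ≤ T := by positivity
  have h1 := hhyp B T Y hB1 hT0 hY1 X (by
    intro x hx
    obtain ⟨hne, ⟨H, hH1, hHB, hxH, hprox⟩, hc⟩ := hX x hx
    have hne' : MvPolynomial.eval x (∏ j, F j) ≠ 0 := by
      rw [map_prod]
      exact Finset.prod_ne_zero_iff.2 fun j _ => hne j
    refine ⟨fun i => (hxH i).trans hHB, hne', ?_, hc⟩
    have hH0 : 0 < H := by linarith
    set G : ℤ := MvPolynomial.eval x (∏ j, F j) with hG
    have hGprod : G = ∏ j, MvPolynomial.eval x (F j) := by rw [hG, map_prod]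
    have hpos : 0 < |(G : ℝ)| * ∏ p ∈ S, (padicNorm p (G : ℚ) : ℝ) := by
      apply mul_pos (abs_pos.2 (by exact_mod_cast hne'))
      exact Finset.prod_pos fun p hp =>
        Pool.Agent.H951R3.W.padicNorm_pos' p (hS p hp) (by exact_mod_cast hne')
    have hlogH : 0 ≤ Real.log H := Real.log_nonneg hH1
    have hlogHB : Real.log H ≤ Real.log B := Real.log_le_log hH0 hHB
    have e1 : Real.log (|(G : ℝ)| * ∏ p ∈ S, (padicNorm p (G : ℚ) : ℝ)) =
        D * Real.log H - prox F d S H x := by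
      rw [padic_prod_eq hS hne']
      unfold prox
      have e2 : Real.log |(G : ℝ)| =
          ∑ j, Real.log |((MvPolynomial.eval x (F j) : ℤ) : ℝ)| := by
        rw [hGprod]
        push_cast
        rw [Finset.abs_prod, Real.log_prod]
        intro j _
        exact abs_ne_zero.2 (by exact_mod_cast hne j)
      have e3 : ∀ p ∈ S, (padicValInt p G : ℝ) =
          ∑ j, (padicValInt p (MvPolynomial.eval x (F j)) : ℝ) := by
        intro p hp
        have : Fact p.Prime := ⟨hS p hp⟩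
        rw [hGprod]
        have e4 : ∀ t : Finset (Fin q), padicValInt p (∏ j ∈ t, MvPolynomial.eval x (F j)) =
            ∑ j ∈ t, padicValInt p (MvPolynomial.eval x (F j)) := by
          intro t
          induction t using Finset.induction_on with
          | empty => simp
          | insert a t ha ih =>
            rw [Finset.prod_insert ha, Finset.sum_insert ha, padicValInt.mul (hne a)
              (Finset.prod_ne_zero_iff.2 fun j _ => hne j), ih]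
        rw [e4]
        push_cast
        rfl
      have e5 : ∀ j, Real.log (H ^ d j / |((MvPolynomial.eval x (F j) : ℤ) : ℝ)|) =
          d j * Real.log H - Real.log |((MvPolynomial.eval x (F j) : ℤ) : ℝ)| := by
        intro j
        rw [Real.log_div (by positivity) (abs_ne_zero.2 (by exact_mod_cast hne j)), Real.log_pow]
      have e3' : ∑ p ∈ S, (padicValInt p G : ℝ) * Real.log p =
          ∑ j, ∑ p ∈ S, (padicValInt p (MvPolynomial.eval x (F j)) : ℝ) * Real.log p := by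
        rw [Finset.sum_comm]
        refine Finset.sum_congr rfl fun p hp => ?_
        rw [e3 p hp, Finset.sum_mul]
      rw [e2, e3']
      simp only [e5]
      rw [Finset.sum_add_distrib, Finset.sum_sub_distrib, ← Finset.sum_mul, hD]
      push_cast
      ring
    have e6 : Real.log (|(G : ℝ)| * ∏ p ∈ S, (padicNorm p (G : ℚ) : ℝ)) ≤
        D * (1 - μ) * Real.log B - c0 := by
      rw [e1]
      have e7 : D * μ ≤ κ := by
        have : μ ≤ κ / D := min_le_left _ _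
        rw [le_div_iff₀ hDR] at this
        linarith
      have e8 : D * μ * Real.log H ≤ κ * Real.log H := mul_le_mul_of_nonneg_right e7 hlogH
      have e9 : D * (1 - μ) * Real.log H ≤ D * (1 - μ) * Real.log B :=
        mul_le_mul_of_nonneg_left hlogHB (mul_nonneg hDR.le (by linarith))
      nlinarith
    have e7 := Real.exp_le_exp.2 e6
    rw [Real.exp_log hpos] at e7
    refine e7.trans (le_of_eq ?_)
    rw [hT, hE0, Real.rpow_def_of_pos hB0, ← Real.exp_add]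
    congr 1
    ring)
  refine h1.trans ?_
  have hTd : T ^ ((1 : ℝ) / D) = E0 ^ ((1 : ℝ) / D) * B ^ (1 - μ) := by
    rw [hT, Real.mul_rpow hE0p.le (by positivity), ← Real.rpow_mul hB0.le]
    congr 2
    field_simp
  have h2 : 1 + Y * T ^ ((1 : ℝ) / D) ≤ (1 + C1 * E0 ^ ((1 : ℝ) / D)) * B ^ (θ + (1 - μ)) := by
    rw [hTd, hY, Real.rpow_add hB0]
    have h3 : 1 ≤ B ^ (1 - μ) := Real.one_le_rpow hB1 (by linarith)
    have h4 : 1 ≤ B ^ θ * B ^ (1 - μ) := one_le_mul_of_one_le_of_one_le hBθ h3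
    calc 1 + C1 * B ^ θ * (E0 ^ ((1 : ℝ) / D) * B ^ (1 - μ)) =
          1 + C1 * E0 ^ ((1 : ℝ) / D) * (B ^ θ * B ^ (1 - μ)) := by ring
      _ ≤ B ^ θ * B ^ (1 - μ) + C1 * E0 ^ ((1 : ℝ) / D) * (B ^ θ * B ^ (1 - μ)) := by linarith
      _ = _ := by ring
  have h3 : (B * Y) ^ (δ / 2) ≤ C1 ^ (δ / 2) * B ^ δ := by
    have h4 : B * Y ≤ C1 * B ^ (2 : ℝ) := by
      rw [hY]
      have h5 : B ^ θ ≤ B := by
        calc B ^ θ ≤ B ^ (1 : ℝ) := Real.rpow_le_rpow_of_exponent_le hB1 hθ1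
          _ = B := Real.rpow_one B
      have h6 : B ^ (2 : ℝ) = B * B := by
        rw [show (2 : ℝ) = ((2 : ℕ) : ℝ) by norm_num, Real.rpow_natCast]
        ring
      rw [h6]
      have h7 : B * B ^ θ ≤ B * B := mul_le_mul_of_nonneg_left h5 hB0.le
      calc B * (C1 * B ^ θ) = C1 * (B * B ^ θ) := by ring
        _ ≤ C1 * (B * B) := mul_le_mul_of_nonneg_left h7 (by linarith)
    calc (B * Y) ^ (δ / 2) ≤ (C1 * B ^ (2 : ℝ)) ^ (δ / 2) :=
          Real.rpow_le_rpow (by positivity) h4 (by positivity)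
      _ = C1 ^ (δ / 2) * B ^ δ := by
          rw [Real.mul_rpow (by linarith) (by positivity), ← Real.rpow_mul hB0.le]
          congr 2
          ring
  have h4 : Y ^ (M + 2) = C1 ^ (M + 2) * B ^ (((M + 2 : ℕ) : ℝ) * θ) := by
    rw [hY, mul_pow]
    congr 1
    rw [← Real.rpow_natCast (B ^ θ), ← Real.rpow_mul hB0.le, mul_comm]
  have hYT0 : 0 ≤ 1 + Y * T ^ ((1 : ℝ) / D) := by positivity
  have hexp : B ^ (((M + 2 : ℕ) : ℝ) * θ) * B ^ δ * B ^ M * B ^ (θ + (1 - μ)) =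
      B ^ (((M + 1 : ℕ) : ℝ) + ((M + 3 : ℕ) : ℝ) * θ - μ + δ) := by
    rw [← Real.rpow_natCast B M, ← Real.rpow_add hB0, ← Real.rpow_add hB0, ← Real.rpow_add hB0]
    congr 1
    push_cast
    ring
  calc C2 * (Y ^ (M + 2) * (B * Y) ^ (δ / 2) * B ^ M * (1 + Y * T ^ ((1 : ℝ) / D)))
      ≤ C2 * ((C1 ^ (M + 2) * B ^ (((M + 2 : ℕ) : ℝ) * θ)) * (C1 ^ (δ / 2) * B ^ δ) * B ^ M *
        ((1 + C1 * E0 ^ ((1 : ℝ) / D)) * B ^ (θ + (1 - μ)))) := by
        apply mul_le_mul_of_nonneg_left _ hC2.le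
        apply mul_le_mul _ h2 hYT0 (by positivity)
        apply mul_le_mul_of_nonneg_right _ (by positivity)
        rw [h4]
        exact mul_le_mul_of_nonneg_left h3 (by positivity)
    _ = A * (B ^ (((M + 2 : ℕ) : ℝ) * θ) * B ^ δ * B ^ M * B ^ (θ + (1 - μ))) := by
        rw [hA]; ring
    _ = A * B ^ (((M + 1 : ℕ) : ℝ) + ((M + 3 : ℕ) : ℝ) * θ - μ + δ) := by rw [hexp]
    _ ≤ (1 + A) * B ^ (((M + 1 : ℕ) : ℝ) + ((M + 3 : ℕ) : ℝ) * θ - μ + δ) := by
        apply mul_le_mul_of_nonneg_right _ (by positivity)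
        linarith

end Pool.Agent.H41N.VP
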